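import Pool.Agent.Helper965.CN.Defs
set_option autoImplicit false
open scoped ComplexOrder BigOperators

namespace Pool.Agent.Helper965.CN

variable {A : Type} [Ring A] [StarRing A] [Algebra ℂ A] [StarModule ℂ A]

/-- A set of positive functionals with uniformly bounded left multiplications. -/
structure Adm (Φ : Set (A →ₗ[ℂ] ℂ)) : Prop where
  pos : ∀ φ ∈ Φ, ∀ t, 0 ≤ φ (star t * t)
  bdd : ∀ t, ∃ C : ℝ, ∀ φ ∈ Φ, ∀ w, (φ (star w * (star t * t) * w)).re ≤ C * (φ (star w * w)).re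

/-- The C*-seminorm given by a set of positive functionals. -/
noncomputable def cn (Φ : Set (A →ₗ[ℂ] ℂ)) (t : A) : ℝ :=
  sSup {r : ℝ | ∃ φ ∈ Φ, ∃ w, (φ (star w * w)).re ≤ 1 ∧
    r = Real.sqrt (φ (star w * (star t * t) * w)).re}


/-- half of the form -/
noncomputable def b1q (φ : A →ₗ[ℂ] ℂ) (t : A) : ℝ := (φ (star t * t)).re

theorem b1_expand (φ : A →ₗ[ℂ] ℂ) (s t : A) (c : ℂ) :
    φ (star (s + c • t) * (s + c • t)) = φ (star s * s) + c * φ (star s * t) +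
      (starRingEnd ℂ c) * φ (star t * s) + (starRingEnd ℂ c * c) * φ (star t * t) := by
  rw [star_add, star_smul, add_mul, mul_add, mul_add, smul_mul_assoc, smul_mul_assoc,
    mul_smul_comm, mul_smul_comm]
  simp only [map_add, map_smul, smul_eq_mul]
  rw [starRingEnd_apply]
  ring

theorem b1_im {φ : A →ₗ[ℂ] ℂ} (hφ : ∀ t, 0 ≤ φ (star t * t)) (t : A) :
    (φ (star t * t)).im = 0 := (Complex.nonneg_iff.1 (hφ t)).2.symm

theorem b1_re {φ : A →ₗ[ℂ] ℂ} (hφ : ∀ t, 0 ≤ φ (star t * t)) (t : A) :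
    0 ≤ b1q φ t := (Complex.nonneg_iff.1 (hφ t)).1

theorem b1_symm {φ : A →ₗ[ℂ] ℂ} (hφ : ∀ t, 0 ≤ φ (star t * t)) (s t : A) :
    (φ (star t * s)).re = (φ (star s * t)).re := by
  have h2 := b1_im hφ (s + Complex.I • t)
  rw [b1_expand] at h2
  simp [b1_im hφ] at h2
  linarith

theorem b1_q_add {φ : A →ₗ[ℂ] ℂ} (hφ : ∀ t, 0 ≤ φ (star t * t)) (s t : A) (l : ℝ) :
    b1q φ (s + (l : ℂ) • t) = b1q φ s + 2 * l * (φ (star s * t)).re + l ^ 2 * b1q φ t := by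
  unfold b1q
  rw [b1_expand]
  simp [b1_symm hφ s t]
  ring

theorem b1_q_add' {φ : A →ₗ[ℂ] ℂ} (hφ : ∀ t, 0 ≤ φ (star t * t)) (s t : A) :
    b1q φ (s + t) = b1q φ s + 2 * (φ (star s * t)).re + b1q φ t := by
  have := b1_q_add hφ s t 1
  simpa using this

theorem b1_q_smul (φ : A →ₗ[ℂ] ℂ) (t : A) (c : ℂ) :
    b1q φ (c • t) = ‖c‖ ^ 2 * b1q φ t := by
  unfold b1q
  have := b1_expand φ 0 t c
  simp only [zero_add, star_zero, zero_mul, mul_zero, map_zero, add_zero] at this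
  rw [this, ← Complex.normSq_eq_conj_mul_self, Complex.sq_norm]
  simp

theorem b1_cs {φ : A →ₗ[ℂ] ℂ} (hφ : ∀ t, 0 ≤ φ (star t * t)) (s t : A) :
    (φ (star s * t)).re ≤ Real.sqrt (b1q φ s) * Real.sqrt (b1q φ t) := by
  have h : ∀ l : ℝ, 0 ≤ b1q φ t * (l * l) + (2 * (φ (star s * t)).re) * l + b1q φ s := by
    intro l
    have h1 := b1_re hφ (s + (l : ℂ) • t)
    rw [b1_q_add hφ] at h1
    nlinarith
  have h2 := discrim_le_zero h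
  unfold discrim at h2
  rw [← Real.sqrt_mul (b1_re hφ s)]
  apply Real.le_sqrt_of_sq_le
  nlinarith

theorem b1_mink {φ : A →ₗ[ℂ] ℂ} (hφ : ∀ t, 0 ≤ φ (star t * t)) (s t : A) :
    Real.sqrt (b1q φ (s + t)) ≤ Real.sqrt (b1q φ s) + Real.sqrt (b1q φ t) := by
  rw [Real.sqrt_le_left (by positivity), b1_q_add' hφ, add_sq, Real.sq_sqrt (b1_re hφ s),
    Real.sq_sqrt (b1_re hφ t)]
  have := b1_cs hφ s t
  nlinarith

theorem b1_conv (φ : A →ₗ[ℂ] ℂ) (t w : A) :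
    (φ (star w * (star t * t) * w)).re = b1q φ (t * w) := by
  unfold b1q
  rw [star_mul]
  simp only [mul_assoc]

theorem b1_nonneg (Φ : Set (A →ₗ[ℂ] ℂ)) (t : A) : 0 ≤ cn Φ t := by
  unfold cn
  apply Real.sSup_nonneg
  rintro r ⟨φ, _, w, _, rfl⟩
  exact Real.sqrt_nonneg _

/-- TARGET 1 -/
theorem le_cn {Φ : Set (A →ₗ[ℂ] ℂ)} (hΦ : Adm Φ) {φ : A →ₗ[ℂ] ℂ} (hφ : φ ∈ Φ) (t w : A) :
    (φ (star w * (star t * t) * w)).re ≤ cn Φ t ^ 2 * (φ (star w * w)).re := by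
  obtain ⟨C, hC⟩ := hΦ.bdd t
  have hp := hΦ.pos φ hφ
  rcases (b1_re hp w).eq_or_lt with h0 | hpos
  · have h1 := hC φ hφ w
    unfold b1q at h0
    rw [← h0, mul_zero] at h1 ⊢
    exact h1
  · have hbdd : BddAbove {r : ℝ | ∃ φ ∈ Φ, ∃ w, (φ (star w * w)).re ≤ 1 ∧
        r = Real.sqrt (φ (star w * (star t * t) * w)).re} := by
      refine ⟨Real.sqrt (max C 0), ?_⟩
      rintro r ⟨ψ, hψ, v, hv, rfl⟩
      apply Real.sqrt_le_sqrt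
      refine (hC ψ hψ v).trans ?_
      have h1 := b1_re (hΦ.pos ψ hψ) v
      unfold b1q at h1
      calc C * (ψ (star v * v)).re ≤ max C 0 * (ψ (star v * v)).re := by
            gcongr; exact le_max_left _ _
        _ ≤ max C 0 * 1 := by gcongr
        _ = _ := mul_one _
    set c : ℝ := (Real.sqrt (b1q φ w))⁻¹ with hc
    have hcpos : 0 < c := by positivity
    have hc2 : c ^ 2 * b1q φ w = 1 := by
      rw [hc, inv_pow, Real.sq_sqrt hpos.le, inv_mul_cancel₀ hpos.ne']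
    have hnc : ‖(c : ℂ)‖ ^ 2 = c ^ 2 := by
      rw [Complex.norm_real, Real.norm_eq_abs, sq_abs]
    have h1 : Real.sqrt (b1q φ (t * ((c : ℂ) • w))) ≤ cn Φ t := by
      apply le_csSup hbdd
      refine ⟨φ, hφ, (c : ℂ) • w, ?_, ?_⟩
      · show b1q φ ((c : ℂ) • w) ≤ 1
        rw [b1_q_smul, hnc, hc2]
      · rw [b1_conv]
    have h2 : b1q φ (t * ((c : ℂ) • w)) ≤ cn Φ t ^ 2 := by
      rwa [← Real.sqrt_le_left (b1_nonneg Φ t)]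
    rw [mul_smul_comm, b1_q_smul, hnc] at h2
    rw [b1_conv]
    show b1q φ (t * w) ≤ cn Φ t ^ 2 * b1q φ w
    calc b1q φ (t * w) = (c ^ 2 * b1q φ (t * w)) * b1q φ w := by
          have : (c ^ 2 * b1q φ (t * w)) * b1q φ w = (c ^ 2 * b1q φ w) * b1q φ (t * w) := by ring
          rw [this, hc2, one_mul]
      _ ≤ cn Φ t ^ 2 * b1q φ w := by gcongr

/-- TARGET 2 -/
theorem cn_le {Φ : Set (A →ₗ[ℂ] ℂ)} (hΦ : Adm Φ) (t : A) (C : ℝ) (hC : 0 ≤ C)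
    (h : ∀ φ ∈ Φ, ∀ w, (φ (star w * (star t * t) * w)).re ≤ C ^ 2 * (φ (star w * w)).re) :
    cn Φ t ≤ C := by
  unfold cn
  apply Real.sSup_le _ hC
  rintro r ⟨φ, hφ, w, hw, rfl⟩
  rw [Real.sqrt_le_left hC]
  refine (h φ hφ w).trans ?_
  calc C ^ 2 * (φ (star w * w)).re ≤ C ^ 2 * 1 := by gcongr
    _ = C ^ 2 := mul_one _

theorem b1_le {Φ : Set (A →ₗ[ℂ] ℂ)} (hΦ : Adm Φ) {φ : A →ₗ[ℂ] ℂ} (hφ : φ ∈ Φ) (t w : A) :
    Real.sqrt (b1q φ (t * w)) ≤ cn Φ t * Real.sqrt (b1q φ w) := by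
  have h := le_cn hΦ hφ t w
  rw [b1_conv] at h
  have h0 := b1_nonneg Φ t
  rw [Real.sqrt_le_left (by positivity), mul_pow, Real.sq_sqrt (b1_re (hΦ.pos φ hφ) w)]
  exact h

theorem b1_cn_le {Φ : Set (A →ₗ[ℂ] ℂ)} (hΦ : Adm Φ) (t : A) (C : ℝ) (hC : 0 ≤ C)
    (h : ∀ φ ∈ Φ, ∀ w, Real.sqrt (b1q φ (t * w)) ≤ C * Real.sqrt (b1q φ w)) :
    cn Φ t ≤ C := by
  apply cn_le hΦ t C hC
  intro φ hφ w
  have h1 := h φ hφ w
  rw [Real.sqrt_le_left (by positivity), mul_pow, Real.sq_sqrt (b1_re (hΦ.pos φ hφ) w)] at h1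
  rw [b1_conv]
  exact h1

theorem b1_add {Φ : Set (A →ₗ[ℂ] ℂ)} (hΦ : Adm Φ) (x y : A) :
    cn Φ (x + y) ≤ cn Φ x + cn Φ y := by
  apply b1_cn_le hΦ _ _ (add_nonneg (b1_nonneg _ _) (b1_nonneg _ _))
  intro φ hφ w
  rw [add_mul, add_mul]
  exact (b1_mink (hΦ.pos φ hφ) _ _).trans (add_le_add (b1_le hΦ hφ x w) (b1_le hΦ hφ y w))

theorem b1_smul_le {Φ : Set (A →ₗ[ℂ] ℂ)} (hΦ : Adm Φ) (c : ℂ) (x : A) :
    cn Φ (c • x) ≤ ‖c‖ * cn Φ x := by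
  have h0 := b1_nonneg Φ x
  apply b1_cn_le hΦ _ _ (by positivity)
  intro φ hφ w
  rw [smul_mul_assoc, b1_q_smul, Real.sqrt_mul (by positivity), Real.sqrt_sq (norm_nonneg _),
    mul_assoc]
  gcongr
  exact b1_le hΦ hφ x w

theorem b1_smul {Φ : Set (A →ₗ[ℂ] ℂ)} (hΦ : Adm Φ) (c : ℂ) (x : A) :
    cn Φ (c • x) = ‖c‖ * cn Φ x := by
  apply le_antisymm (b1_smul_le hΦ c x)
  by_cases hc : c = 0
  · rw [hc, norm_zero, zero_mul]; exact b1_nonneg _ _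
  · have h1 := b1_smul_le hΦ c⁻¹ (c • x)
    rw [smul_smul, inv_mul_cancel₀ hc, one_smul, norm_inv] at h1
    have hc' : 0 < ‖c‖ := norm_pos_iff.2 hc
    calc ‖c‖ * cn Φ x ≤ ‖c‖ * (‖c‖⁻¹ * cn Φ (c • x)) := by gcongr
      _ = cn Φ (c • x) := by rw [← mul_assoc, mul_inv_cancel₀ hc'.ne', one_mul]

theorem b1_mul {Φ : Set (A →ₗ[ℂ] ℂ)} (hΦ : Adm Φ) (x y : A) :
    cn Φ (x * y) ≤ cn Φ x * cn Φ y := by
  have h0 := b1_nonneg Φ x
  apply b1_cn_le hΦ _ _ (mul_nonneg (b1_nonneg _ _) (b1_nonneg _ _))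
  intro φ hφ w
  rw [mul_assoc, mul_assoc]
  refine (b1_le hΦ hφ x (y * w)).trans ?_
  gcongr
  exact b1_le hΦ hφ y w

theorem b1_sq_le {Φ : Set (A →ₗ[ℂ] ℂ)} (hΦ : Adm Φ) (x : A) :
    cn Φ x ^ 2 ≤ cn Φ (star x * x) := by
  have h0 := b1_nonneg Φ (star x * x)
  have h1 : cn Φ x ≤ Real.sqrt (cn Φ (star x * x)) := by
    apply cn_le hΦ x _ (Real.sqrt_nonneg _)
    intro φ hφ w
    rw [Real.sq_sqrt h0, mul_assoc]
    refine (b1_cs (hΦ.pos φ hφ) w ((star x * x) * w)).trans ?_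
    have h2 := b1_le hΦ hφ (star x * x) w
    have h3 : b1q φ w = (φ (star w * w)).re := rfl
    calc Real.sqrt (b1q φ w) * Real.sqrt (b1q φ ((star x * x) * w))
        ≤ Real.sqrt (b1q φ w) * (cn Φ (star x * x) * Real.sqrt (b1q φ w)) := by gcongr
      _ = cn Φ (star x * x) * (Real.sqrt (b1q φ w)) ^ 2 := by ring
      _ = _ := by rw [Real.sq_sqrt (b1_re (hΦ.pos φ hφ) w), h3]
  calc cn Φ x ^ 2 ≤ (Real.sqrt (cn Φ (star x * x))) ^ 2 := by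
        have := b1_nonneg Φ x
        gcongr
    _ = _ := Real.sq_sqrt h0

theorem b1_le_star {Φ : Set (A →ₗ[ℂ] ℂ)} (hΦ : Adm Φ) (x : A) :
    cn Φ x ≤ cn Φ (star x) := by
  have h1 := (b1_sq_le hΦ x).trans (b1_mul hΦ (star x) x)
  rcases (b1_nonneg Φ x).eq_or_lt with h | h
  · rw [← h]; exact b1_nonneg _ _
  · rw [sq] at h1
    exact le_of_mul_le_mul_right h1 h

theorem b1_star {Φ : Set (A →ₗ[ℂ] ℂ)} (hΦ : Adm Φ) (x : A) :
    cn Φ (star x) = cn Φ x := by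
  apply le_antisymm _ (b1_le_star hΦ x)
  have := b1_le_star hΦ (star x)
  rwa [star_star] at this

theorem b1_cstar {Φ : Set (A →ₗ[ℂ] ℂ)} (hΦ : Adm Φ) (x : A) :
    cn Φ (star x * x) = cn Φ x ^ 2 := by
  apply le_antisymm _ (b1_sq_le hΦ x)
  refine (b1_mul hΦ (star x) x).trans ?_
  rw [b1_star hΦ, sq]

/-- TARGET 3 -/
theorem cn_isCStarNorm {Φ : Set (A →ₗ[ℂ] ℂ)} (hΦ : Adm Φ) (hne : Φ.Nonempty)
    (hsep : ∀ t, t ≠ 0 → ∃ φ ∈ Φ, ∃ w, (φ (star w * (star t * t) * w)) ≠ 0) :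
    IsCStarNorm (cn Φ) := by
  refine ⟨b1_nonneg Φ, ?_, b1_add hΦ, b1_smul hΦ, b1_mul hΦ, b1_star hΦ, b1_cstar hΦ⟩
  intro x hx
  by_contra hx0
  obtain ⟨φ, hφ, w, hw⟩ := hsep x hx0
  apply hw
  have h1 := le_cn hΦ hφ x w
  rw [hx] at h1
  have hp := hΦ.pos φ hφ
  have h2 : star w * (star x * x) * w = star (x * w) * (x * w) := by
    rw [star_mul]; simp only [mul_assoc]
  rw [h2] at h1 ⊢
  apply Complex.ext
  · have := b1_re hp (x * w)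
    unfold b1q at this
    rw [zero_pow two_ne_zero, zero_mul] at h1
    exact le_antisymm h1 this
  · rw [b1_im hp]; rfl

/-- TARGET 4: the same without separation, all the other axioms. -/
theorem cn_seminorm {Φ : Set (A →ₗ[ℂ] ℂ)} (hΦ : Adm Φ) (hne : Φ.Nonempty) :
    (∀ x, 0 ≤ cn Φ x) ∧ (∀ x y, cn Φ (x + y) ≤ cn Φ x + cn Φ y) ∧
    (∀ (c : ℂ) (x : A), cn Φ (c • x) = ‖c‖ * cn Φ x) ∧
    (∀ x y, cn Φ (x * y) ≤ cn Φ x * cn Φ y) ∧ (∀ x, cn Φ (star x) = cn Φ x) ∧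
    (∀ x, cn Φ (star x * x) = cn Φ x ^ 2) :=
  ⟨b1_nonneg Φ, b1_add hΦ, b1_smul hΦ, b1_mul hΦ, b1_star hΦ, b1_cstar hΦ⟩

end Pool.Agent.Helper965.CN
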