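import Mathlib
set_option autoImplicit false
open scoped ComplexOrder BigOperators InnerProductSpace
open Filter Topology

namespace Pool.Agent.Helper965.CN

variable {L H : Type} [NormedAddCommGroup L] [InnerProductSpace ℂ L] [CompleteSpace L]
  [NormedAddCommGroup H] [InnerProductSpace ℂ H] [CompleteSpace H]

/-- expansion of a sesquilinear expression -/
theorem apf_expand {E G : Type} [NormedAddCommGroup E] [InnerProductSpace ℂ E]
    (T : E →L[ℂ] E) (s : Finset G) (α β : G → ℂ) (e : G → E) :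
    (inner ℂ (∑ g ∈ s, α g • e g) (T (∑ h ∈ s, β h • e h)) : ℂ) =
      ∑ g ∈ s, ∑ h ∈ s, (starRingEnd ℂ (α g) * β h) * inner ℂ (e g) (T (e h)) := by
  rw [map_sum, sum_inner]
  apply Finset.sum_congr rfl
  intro g _
  rw [inner_sum]
  apply Finset.sum_congr rfl
  intro h _
  rw [map_smul, inner_smul_left, inner_smul_right, mul_assoc]

/-- expansion of the quadratic form at a sum -/
theorem apf_quad {n : ℕ} (a : Fin n → (H →L[ℂ] H)) (x : H →L[ℂ] H) (w : Fin n → H) :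
    (inner ℂ (∑ q, a q (w q)) (x (∑ q, a q (w q))) : ℂ) =
      ∑ p, ∑ q, inner ℂ (w p) ((star (a p) * x * a q) (w q)) := by
  rw [map_sum, sum_inner]
  apply Finset.sum_congr rfl
  intro p _
  rw [inner_sum]
  apply Finset.sum_congr rfl
  intro q _
  rw [ContinuousLinearMap.star_eq_adjoint]
  change _ = inner ℂ (w p) ((ContinuousLinearMap.adjoint (a p)) (x (a q (w q))))
  rw [ContinuousLinearMap.adjoint_inner_right]

/-- approximation of a family by finite combinations with a common finite set -/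
theorem apf_dense {G : Type} (v : G → L)
    (hv : (Submodule.span ℂ (Set.range v)).topologicalClosure = ⊤) {n : ℕ}
    (f : Fin n → Fin n → L) (e : ℝ) (he : 0 < e) :
    ∃ (s : Finset G) (c0 : Fin n → Fin n → G → ℂ),
      ∀ r q, ‖(∑ g ∈ s, c0 r q g • v g) - f r q‖ ≤ e := by
  classical
  have h1 : ∀ r q, ∃ l : G →₀ ℂ, ‖(l.sum fun g c => c • v g) - f r q‖ ≤ e := by
    intro r q
    have hmem : f r q ∈ (Submodule.span ℂ (Set.range v)).topologicalClosure := by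
      rw [hv]; exact Submodule.mem_top
    rw [← SetLike.mem_coe, Submodule.topologicalClosure_coe, Metric.mem_closure_iff] at hmem
    obtain ⟨y, hy, hd⟩ := hmem e he
    obtain ⟨l, hl⟩ := Finsupp.mem_span_range_iff_exists_finsupp.mp hy
    refine ⟨l, ?_⟩
    rw [hl, ← dist_eq_norm, dist_comm]
    exact hd.le
  choose l hl using h1
  refine ⟨Finset.univ.biUnion (fun r => Finset.univ.biUnion (fun q => (l r q).support)),
    fun r q g => l r q g, ?_⟩
  intro r q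
  have h2 : (∑ g ∈ Finset.univ.biUnion (fun r => Finset.univ.biUnion (fun q => (l r q).support)),
      l r q g • v g) = (l r q).sum fun g c => c • v g := by
    rw [Finsupp.sum]
    symm
    apply Finset.sum_subset
    · intro g hg
      exact Finset.mem_biUnion.mpr ⟨r, Finset.mem_univ _,
        Finset.mem_biUnion.mpr ⟨q, Finset.mem_univ _, hg⟩⟩
    · intro g _ hg
      rw [Finsupp.notMem_support_iff.mp hg, zero_smul]
  rw [h2]
  exact hl r q

/-- one term of the error -/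
theorem apf_err (Y : L →L[ℂ] L) (F F2 f f2 : L) (e B : ℝ) (he1 : e ≤ 1)
    (hF : ‖F - f‖ ≤ e) (hF2 : ‖F2 - f2‖ ≤ e) (hf : ‖f‖ ≤ B) (hf2 : ‖f2‖ + 1 ≤ B) :
    ‖(inner ℂ F (Y F2) : ℂ) - inner ℂ f (Y f2)‖ ≤ ‖Y‖ * (e * (B + B)) := by
  have he0 : 0 ≤ e := le_trans (norm_nonneg _) hF
  have h1 : (inner ℂ F (Y F2) : ℂ) - inner ℂ f (Y f2) =
      inner ℂ (F - f) (Y F2) + inner ℂ f (Y (F2 - f2)) := by
    rw [inner_sub_left, map_sub, inner_sub_right]; ring
  rw [h1]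
  have hn2 : ‖F2‖ ≤ B := by
    have : ‖F2‖ ≤ ‖F2 - f2‖ + ‖f2‖ := by
      have := norm_add_le (F2 - f2) f2
      rwa [sub_add_cancel] at this
    linarith
  calc ‖(inner ℂ (F - f) (Y F2) : ℂ) + inner ℂ f (Y (F2 - f2))‖
      ≤ ‖(inner ℂ (F - f) (Y F2) : ℂ)‖ + ‖(inner ℂ f (Y (F2 - f2)) : ℂ)‖ := norm_add_le _ _
    _ ≤ ‖F - f‖ * ‖Y F2‖ + ‖f‖ * ‖Y (F2 - f2)‖ := by
        gcongr
        · exact norm_inner_le_norm _ _
        · exact norm_inner_le_norm _ _
    _ ≤ e * (‖Y‖ * B) + B * (‖Y‖ * e) := by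
        have a1 : ‖Y F2‖ ≤ ‖Y‖ * B := (Y.le_opNorm F2).trans (by gcongr)
        have a2 : ‖Y (F2 - f2)‖ ≤ ‖Y‖ * e := (Y.le_opNorm _).trans (by gcongr)
        have hB0 : 0 ≤ B := le_trans (norm_nonneg _) hf
        gcongr
    _ = ‖Y‖ * (e * (B + B)) := by ring

/-- TARGET. -/
theorem approx_family {G : Type} (v : G → L)
    (hv : (Submodule.span ℂ (Set.range v)).topologicalClosure = ⊤)
    (U : Ultrafilter ℕ) (I : ℕ → Type) [∀ j, Fintype (I j)] (c : ∀ j, I j → G → H)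
    (N : ℕ → ℝ) (hN : ∀ j, 0 < N j)
    (hB : ∀ j g (u : H), ∑ t, ‖(inner ℂ u (c j t g) : ℂ)‖ ^ 2 ≤ ‖u‖ ^ 2 / N j)
    (Φ : (H →L[ℂ] H) →ₗ[ℂ] (L →L[ℂ] L))
    (hΦ : ∀ x g h, Tendsto (fun j => ∑ t, inner ℂ (c j t g) (x (c j t h))) (U : Filter ℕ)
        (𝓝 (inner ℂ (v g) (Φ x (v h)))))
    (hΦn : ∀ x, ‖Φ x‖ ≤ ‖x‖) {n : ℕ} (a : Fin n → (H →L[ℂ] H)) (f : Fin n → Fin n → L)
    (ε : ℝ) (hε : 0 < ε) :
    ∃ (C : ℝ) (ζ : ∀ j, Fin n → I j → H) (ψ : (H →L[ℂ] H) → ℂ),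
      (∀ x, Tendsto (fun j => ∑ r, ∑ t, inner ℂ (ζ j r t) (x (ζ j r t))) (U : Filter ℕ)
        (𝓝 (ψ x))) ∧
      (∀ x, ‖ψ x - ∑ r, ∑ p, ∑ q, inner ℂ (f r p) (Φ (star (a p) * x * a q) (f r q))‖
        ≤ ε * ‖x‖) ∧
      ∀ j (u : H), ∑ r, ∑ t, ‖(inner ℂ u (ζ j r t) : ℂ)‖ ^ 2 ≤ C * ‖u‖ ^ 2 / N j := by
  classical
  set B : ℝ := 1 + ∑ r, ∑ q, ‖f r q‖ with hBdef
  have hfB : ∀ r q, ‖f r q‖ + 1 ≤ B := by
    intro r q
    have h1 : ‖f r q‖ ≤ ∑ q, ‖f r q‖ :=
      Finset.single_le_sum (f := fun q => ‖f r q‖) (fun _ _ => norm_nonneg _) (Finset.mem_univ q)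
    have h2 : ∑ q, ‖f r q‖ ≤ ∑ r, ∑ q, ‖f r q‖ :=
      Finset.single_le_sum (f := fun r => ∑ q, ‖f r q‖)
        (fun _ _ => Finset.sum_nonneg fun _ _ => norm_nonneg _) (Finset.mem_univ r)
    rw [hBdef]; linarith
  have hB0 : 0 ≤ B := by
    rw [hBdef]
    have : 0 ≤ ∑ r, ∑ q, ‖f r q‖ :=
      Finset.sum_nonneg fun _ _ => Finset.sum_nonneg fun _ _ => norm_nonneg _
    linarith
  set K : ℝ := ∑ _r : Fin n, ∑ p, ∑ q, ‖a p‖ * ‖a q‖ * (B + B) with hK
  have hK0 : 0 ≤ K :=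
    Finset.sum_nonneg fun _ _ => Finset.sum_nonneg fun _ _ => Finset.sum_nonneg fun _ _ => by
      positivity
  set e : ℝ := min 1 (ε / (K + 1)) with hedef
  have he : 0 < e := lt_min one_pos (by positivity)
  have he1 : e ≤ 1 := min_le_left _ _
  have heK : e * K ≤ ε := by
    have h1 : e ≤ ε / (K + 1) := min_le_right _ _
    have h2 : e * (K + 1) ≤ ε := by
      rwa [le_div_iff₀ (by positivity)] at h1
    nlinarith [he.le]
  obtain ⟨s, c0, hF⟩ := apf_dense v hv f e he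
  let F : Fin n → Fin n → L := fun r q => ∑ g ∈ s, c0 r q g • v g
  let w : ∀ j, Fin n → I j → Fin n → H := fun j r t q => ∑ g ∈ s, c0 r q g • c j t g
  let ζ : ∀ j, Fin n → I j → H := fun j r t => ∑ q, a q (w j r t q)
  let ψ : (H →L[ℂ] H) → ℂ := fun x =>
    ∑ r, ∑ p, ∑ q, inner ℂ (F r p) (Φ (star (a p) * x * a q) (F r q))
  let C : ℝ := ∑ r, (((Finset.univ : Finset (Fin n)) ×ˢ s).card : ℝ) *
    ∑ z ∈ (Finset.univ : Finset (Fin n)) ×ˢ s, ‖c0 r z.1 z.2‖ ^ 2 * ‖a z.1‖ ^ 2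
  refine ⟨C, ζ, ψ, ?_, ?_, ?_⟩
  · intro x
    have hψ : ψ x = ∑ r, ∑ p, ∑ q, ∑ g ∈ s, ∑ h ∈ s,
        (starRingEnd ℂ (c0 r p g) * c0 r q h) *
          inner ℂ (v g) (Φ (star (a p) * x * a q) (v h)) := by
      apply Finset.sum_congr rfl; intro r _
      apply Finset.sum_congr rfl; intro p _
      apply Finset.sum_congr rfl; intro q _
      exact apf_expand _ s _ _ v
    have hζ : ∀ j, ∑ r, ∑ t, (inner ℂ (ζ j r t) (x (ζ j r t)) : ℂ) =
        ∑ r, ∑ p, ∑ q, ∑ g ∈ s, ∑ h ∈ s,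
        (starRingEnd ℂ (c0 r p g) * c0 r q h) *
          ∑ t, inner ℂ (c j t g) ((star (a p) * x * a q) (c j t h)) := by
      intro j
      apply Finset.sum_congr rfl; intro r _
      have h1 : ∀ t, (inner ℂ (ζ j r t) (x (ζ j r t)) : ℂ) =
          ∑ p, ∑ q, ∑ g ∈ s, ∑ h ∈ s, (starRingEnd ℂ (c0 r p g) * c0 r q h) *
            inner ℂ (c j t g) ((star (a p) * x * a q) (c j t h)) := by
        intro t
        rw [show (inner ℂ (ζ j r t) (x (ζ j r t)) : ℂ) = _ from apf_quad a x (w j r t)]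
        apply Finset.sum_congr rfl; intro p _
        apply Finset.sum_congr rfl; intro q _
        exact apf_expand _ s _ _ (c j t)
      simp_rw [h1]
      rw [Finset.sum_comm]
      apply Finset.sum_congr rfl; intro p _
      rw [Finset.sum_comm]
      apply Finset.sum_congr rfl; intro q _
      rw [Finset.sum_comm]
      apply Finset.sum_congr rfl; intro g _
      rw [Finset.sum_comm]
      apply Finset.sum_congr rfl; intro h _
      rw [Finset.mul_sum]
    rw [hψ]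
    simp_rw [hζ]
    refine tendsto_finsetSum _ fun r _ => tendsto_finsetSum _ fun p _ =>
      tendsto_finsetSum _ fun q _ => tendsto_finsetSum _ fun g _ =>
      tendsto_finsetSum _ fun h _ => ?_
    exact (hΦ _ g h).const_mul _
  · intro x
    have h1 : ψ x - ∑ r, ∑ p, ∑ q, inner ℂ (f r p) (Φ (star (a p) * x * a q) (f r q)) =
        ∑ r, ∑ p, ∑ q, (inner ℂ (F r p) (Φ (star (a p) * x * a q) (F r q)) -
          inner ℂ (f r p) (Φ (star (a p) * x * a q) (f r q))) := by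
      simp only [ψ, Finset.sum_sub_distrib]
    rw [h1]
    have h2 : ∀ r p q, ‖(inner ℂ (F r p) (Φ (star (a p) * x * a q) (F r q)) : ℂ) -
          inner ℂ (f r p) (Φ (star (a p) * x * a q) (f r q))‖ ≤
          (‖a p‖ * ‖a q‖ * (B + B)) * (e * ‖x‖) := by
      intro r p q
      have h3 := apf_err (Φ (star (a p) * x * a q)) (F r p) (F r q) (f r p) (f r q) e B he1
        (hF r p) (hF r q) (by linarith [hfB r p]) (hfB r q)
      have h4 : ‖Φ (star (a p) * x * a q)‖ ≤ ‖a p‖ * ‖x‖ * ‖a q‖ := by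
        refine (hΦn _).trans ?_
        refine (norm_mul_le _ _).trans ?_
        gcongr
        refine (norm_mul_le _ _).trans ?_
        rw [norm_star]
      calc _ ≤ _ := h3
        _ ≤ (‖a p‖ * ‖x‖ * ‖a q‖) * (e * (B + B)) := by gcongr
        _ = (‖a p‖ * ‖a q‖ * (B + B)) * (e * ‖x‖) := by ring
    calc _ ≤ ∑ r : Fin n, ∑ p, ∑ q, (‖a p‖ * ‖a q‖ * (B + B)) * (e * ‖x‖) := by
          refine (norm_sum_le _ _).trans (Finset.sum_le_sum fun r _ => ?_)
          refine (norm_sum_le _ _).trans (Finset.sum_le_sum fun p _ => ?_)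
          exact (norm_sum_le _ _).trans (Finset.sum_le_sum fun q _ => h2 r p q)
      _ = (e * K) * ‖x‖ := by
          rw [hK]
          simp only [← Finset.sum_mul]
          ring
      _ ≤ ε * ‖x‖ := by gcongr
  · intro j u
    have key : ∀ r t, ‖(inner ℂ u (ζ j r t) : ℂ)‖ ^ 2 ≤
        (((Finset.univ : Finset (Fin n)) ×ˢ s).card : ℝ) *
          ∑ z ∈ (Finset.univ : Finset (Fin n)) ×ˢ s, ‖c0 r z.1 z.2‖ ^ 2 *
            ‖(inner ℂ ((ContinuousLinearMap.adjoint (a z.1)) u) (c j t z.2) : ℂ)‖ ^ 2 := by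
      intro r t
      have h1 : (inner ℂ u (ζ j r t) : ℂ) = ∑ z ∈ (Finset.univ : Finset (Fin n)) ×ˢ s,
          c0 r z.1 z.2 * inner ℂ ((ContinuousLinearMap.adjoint (a z.1)) u) (c j t z.2) := by
        rw [Finset.sum_product]
        change (inner ℂ u (∑ q, a q (w j r t q)) : ℂ) = _
        rw [inner_sum]
        apply Finset.sum_congr rfl; intro q _
        rw [← ContinuousLinearMap.adjoint_inner_left]
        change (inner ℂ _ (∑ g ∈ s, c0 r q g • c j t g) : ℂ) = _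
        rw [inner_sum]
        apply Finset.sum_congr rfl; intro g _
        rw [inner_smul_right]
      rw [h1]
      calc ‖∑ z ∈ (Finset.univ : Finset (Fin n)) ×ˢ s,
            c0 r z.1 z.2 * inner ℂ ((ContinuousLinearMap.adjoint (a z.1)) u) (c j t z.2)‖ ^ 2
          ≤ (∑ z ∈ (Finset.univ : Finset (Fin n)) ×ˢ s, ‖c0 r z.1 z.2 *
            (inner ℂ ((ContinuousLinearMap.adjoint (a z.1)) u) (c j t z.2) : ℂ)‖) ^ 2 := by
              gcongr
              exact norm_sum_le _ _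
        _ ≤ (((Finset.univ : Finset (Fin n)) ×ˢ s).card : ℝ) *
          ∑ z ∈ (Finset.univ : Finset (Fin n)) ×ˢ s, ‖c0 r z.1 z.2 *
            (inner ℂ ((ContinuousLinearMap.adjoint (a z.1)) u) (c j t z.2) : ℂ)‖ ^ 2 :=
              sq_sum_le_card_mul_sum_sq
        _ = _ := by
              congr 1
              apply Finset.sum_congr rfl; intro z _
              rw [norm_mul, mul_pow]
    have h2 : ∀ r, ∑ t, ‖(inner ℂ u (ζ j r t) : ℂ)‖ ^ 2 ≤
        ((((Finset.univ : Finset (Fin n)) ×ˢ s).card : ℝ) *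
          ∑ z ∈ (Finset.univ : Finset (Fin n)) ×ˢ s, ‖c0 r z.1 z.2‖ ^ 2 * ‖a z.1‖ ^ 2) *
            (‖u‖ ^ 2 / N j) := by
      intro r
      calc ∑ t, ‖(inner ℂ u (ζ j r t) : ℂ)‖ ^ 2
          ≤ ∑ t, (((Finset.univ : Finset (Fin n)) ×ˢ s).card : ℝ) *
          ∑ z ∈ (Finset.univ : Finset (Fin n)) ×ˢ s, ‖c0 r z.1 z.2‖ ^ 2 *
            ‖(inner ℂ ((ContinuousLinearMap.adjoint (a z.1)) u) (c j t z.2) : ℂ)‖ ^ 2 :=
            Finset.sum_le_sum fun t _ => key r t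
        _ = (((Finset.univ : Finset (Fin n)) ×ˢ s).card : ℝ) *
          ∑ z ∈ (Finset.univ : Finset (Fin n)) ×ˢ s, ‖c0 r z.1 z.2‖ ^ 2 *
            ∑ t, ‖(inner ℂ ((ContinuousLinearMap.adjoint (a z.1)) u) (c j t z.2) : ℂ)‖ ^ 2 := by
            rw [← Finset.mul_sum, Finset.sum_comm]
            simp only [Finset.mul_sum]
        _ ≤ (((Finset.univ : Finset (Fin n)) ×ˢ s).card : ℝ) *
          ∑ z ∈ (Finset.univ : Finset (Fin n)) ×ˢ s, (‖c0 r z.1 z.2‖ ^ 2 * ‖a z.1‖ ^ 2) *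
            (‖u‖ ^ 2 / N j) := by
            refine mul_le_mul_of_nonneg_left (Finset.sum_le_sum fun z hz => ?_) (Nat.cast_nonneg _)
            rw [mul_assoc]
            refine mul_le_mul_of_nonneg_left ?_ (by positivity)
            refine (hB j z.2 _).trans ?_
            rw [← mul_div_assoc]
            have h5 : ‖(ContinuousLinearMap.adjoint (a z.1)) u‖ ≤ ‖a z.1‖ * ‖u‖ := by
              refine ((ContinuousLinearMap.adjoint (a z.1)).le_opNorm u).trans ?_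
              rw [LinearIsometryEquiv.norm_map]
            have h6 : ‖(ContinuousLinearMap.adjoint (a z.1)) u‖ ^ 2 ≤ ‖a z.1‖ ^ 2 * ‖u‖ ^ 2 := by
              rw [← mul_pow]
              gcongr
            have := hN j
            gcongr
        _ = _ := by
            rw [← Finset.sum_mul]
            ring
    calc ∑ r, ∑ t, ‖(inner ℂ u (ζ j r t) : ℂ)‖ ^ 2 ≤ _ := Finset.sum_le_sum fun r _ => h2 r
      _ = C * ‖u‖ ^ 2 / N j := by
          rw [← Finset.sum_mul]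
          ring

end Pool.Agent.Helper965.CN
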