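import Pool.Agent.Helper965.O2.Base
import Pool.Agent.Helper965.O2.PS
import Pool.Agent.Helper965.O2.Key

set_option autoImplicit false
open scoped TensorProduct ComplexOrder BigOperators Matrix InnerProductSpace

namespace Pool.Agent.Helper965.CN
open Pool.Agent.Helper965.O2 (hs w w_mem)

abbrev Bl (k : ℕ) : Type := ZMod (2 * k + 1)

/-- matrices which are contractions for the euclidean norm -/
def IsContr {n : Type} [Fintype n] (z : Matrix n n ℂ) : Prop :=
  ∀ v : n → ℂ, ∑ s, ‖(z.mulVec v) s‖ ^ 2 ≤ ∑ s, ‖v s‖ ^ 2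

/-- the fast growth condition -/
def Grow (k : ℕ → ℕ) : Prop :=
  ∀ m, 2 * (m + 1) * ∑ j ∈ Finset.range m, (2 * k j + 1) < 2 * k m + 1

abbrev G3 : Type := FreeGroup (Fin 3)

/-- the representation of the free group given by the three unitaries -/
noncomputable def sg (k : ℕ) : G3 →* Matrix.unitaryGroup (Bl k) ℂ :=
  FreeGroup.lift fun i => ⟨w (2 * k + 1) i, w_mem _ i⟩

end Pool.Agent.Helper965.CN
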