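import Pool.Agent.Helper965.CN.Base
set_option autoImplicit false
open scoped BigOperators Matrix InnerProductSpace

namespace Pool.Agent.Helper965.CN

/-- the coordinate formula of a block diagonal operator -/
noncomputable def bdFun {ι : ℕ → Type} [∀ j, Fintype (ι j)] (z : ∀ j, Matrix (ι j) (ι j) ℂ)
    (f : (Σ j, ι j) → ℂ) : (Σ j, ι j) → ℂ :=
  fun k => ∑ t, z k.1 k.2 t * f ⟨k.1, t⟩

theorem bd_bound {ι : ℕ → Type} [∀ j, Fintype (ι j)] (z : ∀ j, Matrix (ι j) (ι j) ℂ)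
    (hz : ∀ j, IsContr (z j)) (f : lp (fun _ : (Σ j, ι j) => ℂ) 2) (s : Finset (Σ j, ι j)) :
    ∑ k ∈ s, ‖bdFun z f k‖ ^ (2 : ENNReal).toReal ≤ ‖f‖ ^ (2 : ENNReal).toReal := by
  classical
  have h2 : (2 : ENNReal).toReal = ((2 : ℕ) : ℝ) := by norm_num
  set J : Finset ℕ := s.image Sigma.fst with hJ
  have hsub : s ⊆ J.sigma (fun j => (Finset.univ : Finset (ι j))) := by
    intro k hk
    rw [Finset.mem_sigma]
    exact ⟨Finset.mem_image_of_mem _ hk, Finset.mem_univ _⟩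
  calc ∑ k ∈ s, ‖bdFun z f k‖ ^ (2 : ENNReal).toReal
      ≤ ∑ k ∈ J.sigma (fun j => (Finset.univ : Finset (ι j))),
          ‖bdFun z f k‖ ^ (2 : ENNReal).toReal :=
        Finset.sum_le_sum_of_subset_of_nonneg hsub (fun k _ _ => by positivity)
    _ = ∑ j ∈ J, ∑ s : ι j, ‖bdFun z f ⟨j, s⟩‖ ^ (2 : ENNReal).toReal := Finset.sum_sigma _ _ _
    _ ≤ ∑ j ∈ J, ∑ s : ι j, ‖f ⟨j, s⟩‖ ^ (2 : ENNReal).toReal := by
        apply Finset.sum_le_sum
        intro j _
        have := hz j (fun t => f ⟨j, t⟩)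
        rw [h2]
        simp_rw [Real.rpow_natCast]
        exact this
    _ = ∑ k ∈ J.sigma (fun j => (Finset.univ : Finset (ι j))), ‖f k‖ ^ (2 : ENNReal).toReal :=
        (Finset.sum_sigma J (fun j => (Finset.univ : Finset (ι j)))
          (fun k => ‖f k‖ ^ (2 : ENNReal).toReal)).symm
    _ ≤ _ := lp.sum_rpow_le_norm_rpow (by norm_num) f _

/-- the block diagonal operator on `ℓ²` -/
noncomputable def bdLin {ι : ℕ → Type} [∀ j, Fintype (ι j)] (z : ∀ j, Matrix (ι j) (ι j) ℂ)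
    (hz : ∀ j, IsContr (z j)) :
    lp (fun _ : (Σ j, ι j) => ℂ) 2 →ₗ[ℂ] lp (fun _ : (Σ j, ι j) => ℂ) 2 where
  toFun f := ⟨bdFun z f, memℓp_gen' (bd_bound z hz f)⟩
  map_add' f g := by
    ext k
    change bdFun z (f + g) k = bdFun z f k + bdFun z g k
    unfold bdFun
    rw [← Finset.sum_add_distrib]
    apply Finset.sum_congr rfl
    intro t _
    change z k.1 k.2 t * (f ⟨k.1, t⟩ + g ⟨k.1, t⟩) = _
    ring
  map_smul' c f := by
    ext k
    change bdFun z (c • f) k = c * bdFun z f k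
    unfold bdFun
    rw [Finset.mul_sum]
    apply Finset.sum_congr rfl
    intro t _
    change z k.1 k.2 t * (c * f ⟨k.1, t⟩) = _
    ring

theorem bdLin_apply {ι : ℕ → Type} [∀ j, Fintype (ι j)] (z : ∀ j, Matrix (ι j) (ι j) ℂ)
    (hz : ∀ j, IsContr (z j)) (f : lp (fun _ : (Σ j, ι j) => ℂ) 2) (k : Σ j, ι j) :
    bdLin z hz f k = ∑ t, z k.1 k.2 t * f ⟨k.1, t⟩ := rfl

theorem bdLin_norm {ι : ℕ → Type} [∀ j, Fintype (ι j)] (z : ∀ j, Matrix (ι j) (ι j) ℂ)
    (hz : ∀ j, IsContr (z j)) (f : lp (fun _ : (Σ j, ι j) => ℂ) 2) :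
    ‖bdLin z hz f‖ ≤ 1 * ‖f‖ := by
  rw [one_mul]
  exact lp.norm_le_of_forall_sum_le (by norm_num) (norm_nonneg _) (bd_bound z hz f)

variable {H : Type} [NormedAddCommGroup H] [InnerProductSpace ℂ H] [CompleteSpace H]

/-- TARGET. Block diagonal operators. -/
theorem exists_bd {ι : ℕ → Type} [∀ j, Fintype (ι j)] (b : HilbertBasis (Σ j, ι j) ℂ H)
    (z : ∀ j, Matrix (ι j) (ι j) ℂ) (hz : ∀ j, IsContr (z j)) :
    ∃ T : H →L[ℂ] H, ‖T‖ ≤ 1 ∧ ∀ j t, T (b ⟨j, t⟩) = ∑ s, z j s t • b ⟨j, s⟩ := by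
  classical
  let D : lp (fun _ : (Σ j, ι j) => ℂ) 2 →L[ℂ] lp (fun _ : (Σ j, ι j) => ℂ) 2 :=
    (bdLin z hz).mkContinuous 1 (bdLin_norm z hz)
  let T : H →L[ℂ] H := (b.repr.symm.toContinuousLinearEquiv : _ →L[ℂ] H).comp
    (D.comp (b.repr.toContinuousLinearEquiv : H →L[ℂ] _))
  have hT : ∀ x, T x = b.repr.symm (bdLin z hz (b.repr x)) := fun x => rfl
  refine ⟨T, ?_, ?_⟩
  · apply ContinuousLinearMap.opNorm_le_bound _ zero_le_one
    intro x
    rw [hT, LinearIsometryEquiv.norm_map]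
    have := bdLin_norm z hz (b.repr x)
    rwa [LinearIsometryEquiv.norm_map] at this
  · intro j t
    rw [hT]
    apply b.repr.injective
    rw [LinearIsometryEquiv.apply_symm_apply, b.repr_self, map_sum]
    simp_rw [map_smul, b.repr_self]
    ext k
    rw [bdLin_apply, lp.coeFn_sum, Finset.sum_apply]
    simp_rw [lp.coeFn_smul, Pi.smul_apply, lp.single_apply, smul_eq_mul]
    obtain ⟨j', s'⟩ := k
    by_cases h : j' = j
    · subst h
      rw [Finset.sum_eq_single t, Finset.sum_eq_single s']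
      · simp
      · intro s _ hs
        rw [Pi.single_eq_of_ne, mul_zero]
        intro h
        apply hs
        exact (eq_of_heq (Sigma.mk.inj h).2).symm
      · intro h; exact absurd (Finset.mem_univ _) h
      · intro s _ hs
        rw [Pi.single_eq_of_ne, mul_zero]
        intro h
        apply hs
        exact (eq_of_heq (Sigma.mk.inj h).2)
      · intro h; exact absurd (Finset.mem_univ _) h
    · rw [Finset.sum_eq_zero, Finset.sum_eq_zero]
      · intro s _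
        rw [Pi.single_eq_of_ne, mul_zero]
        intro h'
        exact h (Sigma.mk.inj h').1
      · intro s _
        rw [Pi.single_eq_of_ne, mul_zero]
        intro h'
        exact h (Sigma.mk.inj h').1

end Pool.Agent.Helper965.CN
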