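import Pool.Agent.Helper965.O2.Base
import Pool.Agent.Helper965.O2.PS
import Pool.Agent.Helper965.CN.BdE
set_option autoImplicit false
set_option linter.unusedSectionVars false
open scoped TensorProduct ComplexOrder BigOperators Matrix InnerProductSpace
open Filter Topology

namespace Pool.Agent.Helper965.CN
open Pool.Agent.Helper965.O2 (hs w w_mem)

variable {H : Type} [NormedAddCommGroup H] [InnerProductSpace ℂ H] [CompleteSpace H]

variable {k : ℕ → ℕ} (b : HilbertBasis (Σ j, Bl (k j)) ℂ H)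

open Classical in
/-- the block diagonal operator with blocks `z j` -/
noncomputable def bd (z : ∀ j, Matrix (Bl (k j)) (Bl (k j)) ℂ) : H →L[ℂ] H :=
  if h : ∀ j, IsContr (z j) then (exists_bd b z h).choose else 0

/-- the projection on the blocks in `S` -/
noncomputable def PS (S : Set ℕ) : H →L[ℂ] H :=
  open Classical in bd b fun j => if j ∈ S then 1 else 0

noncomputable def XS (S : Set ℕ) (i : Fin 3) : H →L[ℂ] H :=
  open Classical in bd b fun j => if j ∈ S then w (2 * k j + 1) i else 0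

noncomputable def YT (T : Set ℕ) (i : Fin 3) : H →L[ℂ] H :=
  open Classical in bd b fun j => if j ∈ T then (w (2 * k j + 1) i).map star else 0

/-- TARGET 1 -/
theorem bd_apply (z : ∀ j, Matrix (Bl (k j)) (Bl (k j)) ℂ) (hz : ∀ j, IsContr (z j)) (j : ℕ)
    (t : Bl (k j)) : bd b z (b ⟨j, t⟩) = ∑ s, z j s t • b ⟨j, s⟩ := by
  unfold bd
  rw [dif_pos hz]
  exact (exists_bd b z hz).choose_spec.2 j t

/-- TARGET 2 -/
theorem norm_bd_le (z : ∀ j, Matrix (Bl (k j)) (Bl (k j)) ℂ) : ‖bd b z‖ ≤ 1 := by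
  unfold bd
  split_ifs with h
  · exact (exists_bd b z h).choose_spec.1
  · rw [norm_zero]
    exact zero_le_one

/-- TARGET 3 -/
theorem isContr_unitary {n : Type} [Fintype n] [DecidableEq n] {u : Matrix n n ℂ}
    (hu : u ∈ Matrix.unitaryGroup n ℂ) : IsContr u := by
  intro v
  have hu' : uᴴ * u = 1 := by
    have := Matrix.mem_unitaryGroup_iff'.mp hu
    rwa [Matrix.star_eq_conjTranspose] at this
  have key : ∀ x : n → ℂ, ((∑ s, ‖x s‖ ^ 2 : ℝ) : ℂ) = star x ⬝ᵥ x := by
    intro x
    push_cast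
    unfold dotProduct
    refine Finset.sum_congr rfl fun s _ => ?_
    rw [Pi.star_apply, Complex.star_def, ← Complex.normSq_eq_conj_mul_self,
      Complex.normSq_eq_norm_sq]
    push_cast
    rfl
  have h : ((∑ s, ‖(u.mulVec v) s‖ ^ 2 : ℝ) : ℂ) = ((∑ s, ‖v s‖ ^ 2 : ℝ) : ℂ) := by
    rw [key, key, Matrix.star_mulVec, Matrix.dotProduct_mulVec, Matrix.vecMul_vecMul, hu',
      Matrix.vecMul_one]
  exact le_of_eq (Complex.ofReal_injective h)

/-- TARGET 4 -/
theorem isContr_zero {n : Type} [Fintype n] : IsContr (0 : Matrix n n ℂ) := by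
  intro v
  simp only [Matrix.zero_mulVec, Pi.zero_apply, norm_zero]
  refine Finset.sum_le_sum fun s _ => ?_
  have := sq_nonneg ‖v s‖
  simp

/-- TARGET 5 -/
theorem map_star_mem {n : Type} [Fintype n] [DecidableEq n] {u : Matrix n n ℂ}
    (hu : u ∈ Matrix.unitaryGroup n ℂ) : u.map star ∈ Matrix.unitaryGroup n ℂ := by
  rw [Matrix.mem_unitaryGroup_iff] at hu ⊢
  ext s t
  have h := congrFun (congrFun hu s) t
  rw [Matrix.mul_apply] at h ⊢
  have h' := congrArg star h
  rw [star_sum] at h'
  simp only [Matrix.star_apply, Matrix.map_apply, star_mul', star_star] at h' ⊢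
  rw [h', Matrix.one_apply]
  split_ifs <;> simp

theorem isContr_ite (S : Set ℕ) [DecidablePred (· ∈ S)] (u : ∀ j, Matrix (Bl (k j)) (Bl (k j)) ℂ)
    (hu : ∀ j, u j ∈ Matrix.unitaryGroup (Bl (k j)) ℂ) (j : ℕ) :
    IsContr (if j ∈ S then u j else 0) := by
  split_ifs
  · exact isContr_unitary (hu j)
  · exact isContr_zero

/-- TARGET 6: the three families are given by contractions, so they act as expected. -/
theorem PS_apply (S : Set ℕ) (j : ℕ) (t : Bl (k j)) :
    (j ∈ S → PS b S (b ⟨j, t⟩) = b ⟨j, t⟩) ∧ (j ∉ S → PS b S (b ⟨j, t⟩) = 0) := by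
  classical
  unfold PS
  rw [bd_apply b _ (isContr_ite S _ (fun j => one_mem _))]
  constructor
  · intro h
    simp only [if_pos h]
    rw [Finset.sum_eq_single t]
    · rw [Matrix.one_apply_eq, one_smul]
    · intro s _ hs
      rw [Matrix.one_apply_ne hs, zero_smul]
    · intro h
      exact absurd (Finset.mem_univ t) h
  · intro h
    simp only [if_neg h, Matrix.zero_apply, zero_smul, Finset.sum_const_zero]

/-- TARGET 7 -/
theorem XS_apply (S : Set ℕ) (i : Fin 3) (j : ℕ) (t : Bl (k j)) :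
    (j ∈ S → XS b S i (b ⟨j, t⟩) = ∑ s, w (2 * k j + 1) i s t • b ⟨j, s⟩) ∧
    (j ∉ S → XS b S i (b ⟨j, t⟩) = 0) := by
  classical
  unfold XS
  rw [bd_apply b _ (isContr_ite S _ (fun j => w_mem _ i))]
  constructor
  · intro h
    simp only [if_pos h]
  · intro h
    simp only [if_neg h, Matrix.zero_apply, zero_smul, Finset.sum_const_zero]

/-- TARGET 8 -/
theorem YT_apply (S : Set ℕ) (i : Fin 3) (j : ℕ) (t : Bl (k j)) :
    (j ∈ S → YT b S i (b ⟨j, t⟩) = ∑ s, ((w (2 * k j + 1) i).map star) s t • b ⟨j, s⟩) ∧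
    (j ∉ S → YT b S i (b ⟨j, t⟩) = 0) := by
  classical
  unfold YT
  rw [bd_apply b _ (isContr_ite S _ (fun j => map_star_mem (w_mem _ i)))]
  constructor
  · intro h
    simp only [if_pos h]
  · intro h
    simp only [if_neg h, Matrix.zero_apply, zero_smul, Finset.sum_const_zero]

/-- TARGET 9 -/
theorem op_ext {x y : H →L[ℂ] H} (h : ∀ j t, x (b ⟨j, t⟩) = y (b ⟨j, t⟩)) : x = y := by
  apply ContinuousLinearMap.ext_on (s := Set.range b)
  · exact Submodule.dense_iff_topologicalClosure_eq_top.mpr b.dense_span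
  · rintro _ ⟨⟨j, t⟩, rfl⟩
    exact h j t

theorem vec_ext {x y : H} (h : ∀ j t, ⟪b ⟨j, t⟩, x⟫_ℂ = ⟪b ⟨j, t⟩, y⟫_ℂ) : x = y := by
  apply b.repr.injective
  ext ⟨j, t⟩
  rw [b.repr_apply_apply, b.repr_apply_apply]
  exact h j t

theorem bd_mul (z z' : ∀ j, Matrix (Bl (k j)) (Bl (k j)) ℂ) (hz : ∀ j, IsContr (z j))
    (hz' : ∀ j, IsContr (z' j)) (hzz : ∀ j, IsContr (z j * z' j)) :
    bd b z * bd b z' = bd b (fun j => z j * z' j) := by
  apply op_ext b
  intro j t
  rw [mul_apply_eq_comp, bd_apply b z' hz', bd_apply b _ hzz, map_sum]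
  simp only [map_smul, bd_apply b z hz, Matrix.mul_apply, Finset.smul_sum, Finset.sum_smul,
    smul_smul]
  rw [Finset.sum_comm]
  refine Finset.sum_congr rfl fun r _ => Finset.sum_congr rfl fun s _ => ?_
  rw [mul_comm]

theorem inner_b (i j : Σ j, Bl (k j)) : ⟪b i, b j⟫_ℂ = if i = j then 1 else 0 :=
  (orthonormal_iff_ite.mp b.orthonormal) i j

theorem bd_star (z : ∀ j, Matrix (Bl (k j)) (Bl (k j)) ℂ) (hz : ∀ j, IsContr (z j))
    (hz' : ∀ j, IsContr (z j)ᴴ) : star (bd b z) = bd b (fun j => (z j)ᴴ) := by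
  apply op_ext b
  intro j t
  apply vec_ext b
  intro l s
  rw [ContinuousLinearMap.star_eq_adjoint, ContinuousLinearMap.adjoint_inner_right,
    bd_apply b z hz, bd_apply b _ hz', sum_inner, inner_sum]
  simp only [inner_smul_left, inner_smul_right, inner_b]
  by_cases hlj : l = j
  · subst hlj
    rw [Finset.sum_eq_single t, Finset.sum_eq_single s]
    · simp [Matrix.conjTranspose_apply]
    · intro r _ hr
      rw [if_neg, mul_zero]
      intro h
      apply hr
      have := eq_of_heq (Sigma.mk.inj h).2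
      exact this.symm
    · intro h
      exact absurd (Finset.mem_univ _) h
    · intro r _ hr
      rw [if_neg, mul_zero]
      intro h
      apply hr
      exact eq_of_heq (Sigma.mk.inj h).2
    · intro h
      exact absurd (Finset.mem_univ _) h
  · rw [Finset.sum_eq_zero, Finset.sum_eq_zero]
    · intro r _
      rw [if_neg, mul_zero]
      intro h
      exact hlj (Sigma.mk.inj h).1
    · intro r _
      rw [if_neg, mul_zero]
      intro h
      exact hlj (Sigma.mk.inj h).1

theorem bdS_star (S : Set ℕ) [DecidablePred (· ∈ S)] (u : ∀ j, Matrix (Bl (k j)) (Bl (k j)) ℂ)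
    (hu : ∀ j, u j ∈ Matrix.unitaryGroup (Bl (k j)) ℂ) :
    star (bd b (fun j => if j ∈ S then u j else 0)) =
      bd b (fun j => if j ∈ S then (u j)ᴴ else 0) := by
  have e : (fun j => if j ∈ S then (u j)ᴴ else 0) = fun j => (if j ∈ S then u j else 0)ᴴ := by
    funext j
    split_ifs
    · rfl
    · rw [Matrix.conjTranspose_zero]
  rw [e]
  apply bd_star
  · exact isContr_ite S u hu
  · intro j
    rw [← congrFun e j]
    exact isContr_ite S (fun j => (u j)ᴴ) (fun j => by
      have := Unitary.star_mem (hu j)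
      rwa [Matrix.star_eq_conjTranspose] at this) j

theorem bdS_mul (S : Set ℕ) [DecidablePred (· ∈ S)] (u v : ∀ j, Matrix (Bl (k j)) (Bl (k j)) ℂ)
    (hu : ∀ j, u j ∈ Matrix.unitaryGroup (Bl (k j)) ℂ)
    (hv : ∀ j, v j ∈ Matrix.unitaryGroup (Bl (k j)) ℂ) :
    bd b (fun j => if j ∈ S then u j else 0) * bd b (fun j => if j ∈ S then v j else 0) =
      bd b (fun j => if j ∈ S then u j * v j else 0) := by
  have e : (fun j => if j ∈ S then u j * v j else 0) =
      fun j => (if j ∈ S then u j else 0) * (if j ∈ S then v j else 0) := by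
    funext j
    split_ifs
    · rfl
    · rw [mul_zero]
  rw [e]
  apply bd_mul
  · exact isContr_ite S u hu
  · exact isContr_ite S v hv
  · intro j
    rw [← congrFun e j]
    exact isContr_ite S (fun j => u j * v j) (fun j => mul_mem (hu j) (hv j)) j

/-- TARGET 10: algebraic relations -/
theorem XS_star_mul (S : Set ℕ) (i : Fin 3) : star (XS b S i) * XS b S i = PS b S := by
  classical
  unfold XS PS
  rw [bdS_star b S _ (fun j => w_mem _ i), bdS_mul b S _ _ _ (fun j => w_mem _ i)]
  · congr 1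
    funext j
    congr 1
    have := Matrix.mem_unitaryGroup_iff'.mp (w_mem (2 * k j + 1) i)
    rwa [Matrix.star_eq_conjTranspose] at this
  · intro j
    have := Unitary.star_mem (w_mem (2 * k j + 1) i)
    rwa [Matrix.star_eq_conjTranspose] at this
theorem YT_star_mul (S : Set ℕ) (i : Fin 3) : star (YT b S i) * YT b S i = PS b S := by
  classical
  unfold YT PS
  rw [bdS_star b S _ (fun j => map_star_mem (w_mem _ i)),
    bdS_mul b S _ _ _ (fun j => map_star_mem (w_mem _ i))]
  · congr 1
    funext j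
    congr 1
    have := Matrix.mem_unitaryGroup_iff'.mp (map_star_mem (w_mem (2 * k j + 1) i))
    rwa [Matrix.star_eq_conjTranspose] at this
  · intro j
    have := Unitary.star_mem (map_star_mem (w_mem (2 * k j + 1) i))
    rwa [Matrix.star_eq_conjTranspose] at this
theorem XS_mul_PS (S : Set ℕ) (i : Fin 3) : XS b S i * PS b S = XS b S i := by
  classical
  unfold XS PS
  rw [bdS_mul b S _ _ (fun j => w_mem _ i) (fun j => one_mem _)]
  simp only [mul_one]
theorem YT_mul_PS (S : Set ℕ) (i : Fin 3) : YT b S i * PS b S = YT b S i := by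
  classical
  unfold YT PS
  rw [bdS_mul b S _ _ (fun j => map_star_mem (w_mem _ i)) (fun j => one_mem _)]
  simp only [mul_one]
theorem PS_star (S : Set ℕ) : star (PS b S) = PS b S := by
  classical
  unfold PS
  rw [bdS_star b S _ (fun j => one_mem _)]
  simp only [Matrix.conjTranspose_one]
theorem PS_mul (S : Set ℕ) : PS b S * PS b S = PS b S := by
  classical
  unfold PS
  rw [bdS_mul b S _ _ (fun j => one_mem _) (fun j => one_mem _)]
  simp only [mul_one]

end Pool.Agent.Helper965.CN
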