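import Pool.Agent.Helper965.CN.Defs
set_option autoImplicit false
set_option linter.unusedSectionVars false
open scoped TensorProduct ComplexOrder BigOperators InnerProductSpace
open Filter Topology

namespace Pool.Agent.Helper965.CN



variable {H : Type} [NormedAddCommGroup H] [InnerProductSpace ℂ H] [CompleteSpace H]

/-- TARGET 1 -/
theorem calkinMk_eq_zero (x : H →L[ℂ] H) : calkinMk H x = 0 ↔ IsCompactOperator x := by
  have h : calkinMk H x = 0 ↔ (compactCon H) x 0 := by
    rw [← (compactCon H).eq]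
    rfl
  rw [h]
  show IsCompactOperator (x - 0 : H →L[ℂ] H) ↔ _
  rw [sub_zero]

/-- the quotient map as a linear map -/
noncomputable def calkinLin : (H →L[ℂ] H) →ₗ[ℂ] Calkin H where
  toFun := calkinMk H
  map_add' _ _ := rfl
  map_smul' _ _ := rfl

theorem calkinLin_apply (x : H →L[ℂ] H) : calkinLin x = calkinMk H x := rfl

/-- the quotient map on the second leg -/
noncomputable def Pi : (H →L[ℂ] H) ⊗[ℂ] (H →L[ℂ] H) →ₗ[ℂ] (H →L[ℂ] H) ⊗[ℂ] Calkin H :=
  TensorProduct.map LinearMap.id calkinLin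

/-- TARGET 2 -/
theorem calkinLin_surjective : Function.Surjective (calkinLin (H := H)) := by
  intro x
  induction x using Quotient.inductionOn' with
  | h x => exact ⟨x, rfl⟩

theorem Pi_surjective : Function.Surjective (Pi (H := H)) :=
  TensorProduct.map_surjective Function.surjective_id calkinLin_surjective

/-- TARGET 3 -/
theorem Pi_tmul (x y : H →L[ℂ] H) : Pi (x ⊗ₜ[ℂ] y) = x ⊗ₜ[ℂ] calkinMk H y := rfl

theorem calkinMk_mul (x y : H →L[ℂ] H) : calkinMk H (x * y) = calkinMk H x * calkinMk H y := rfl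

/-- the quotient map as an algebra homomorphism -/
noncomputable def calkinAlg : (H →L[ℂ] H) →ₐ[ℂ] Calkin H where
  toFun := calkinMk H
  map_one' := rfl
  map_mul' _ _ := rfl
  map_zero' := rfl
  map_add' _ _ := rfl
  commutes' _ := rfl

theorem Pi_mul (s t : (H →L[ℂ] H) ⊗[ℂ] (H →L[ℂ] H)) : Pi (s * t) = Pi s * Pi t :=
  map_mul (Algebra.TensorProduct.map (AlgHom.id ℂ (H →L[ℂ] H)) (calkinAlg (H := H))) s t

/-- TARGET 4 -/
theorem Pi_star (s : (H →L[ℂ] H) ⊗[ℂ] (H →L[ℂ] H)) : Pi (star s) = star (Pi s) := by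
  induction s using TensorProduct.induction_on with
  | zero =>
    rw [star_zero, map_zero]
    exact (star_zero ((H →L[ℂ] H) ⊗[ℂ] Calkin H)).symm
  | add a b ha hb =>
    rw [star_add, map_add, ha, hb, map_add]
    exact (star_add (Pi a) (Pi b)).symm
  | tmul x y =>
    rw [TensorProduct.star_tmul, Pi_tmul, Pi_tmul]
    exact (TensorProduct.star_tmul x (calkinMk H y)).symm

/-- TARGET 5 -/
theorem Pi_ker (φ : (H →L[ℂ] H) ⊗[ℂ] (H →L[ℂ] H) →ₗ[ℂ] ℂ)
    (hφ : ∀ x y : H →L[ℂ] H, IsCompactOperator y → φ (x ⊗ₜ y) = 0)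
    (s : (H →L[ℂ] H) ⊗[ℂ] (H →L[ℂ] H)) (hs : Pi s = 0) : φ s = 0 := by
  have hex : Function.Exact (LinearMap.ker (calkinLin (H := H))).subtype (calkinLin (H := H)) :=
    LinearMap.exact_subtype_ker_map _
  have h1 := lTensor_exact (H →L[ℂ] H) hex calkinLin_surjective
  have h2 : (LinearMap.lTensor (H →L[ℂ] H) (calkinLin (H := H))) s = 0 := hs
  obtain ⟨t, rfl⟩ := (h1 s).1 h2
  clear h2 hs
  induction t using TensorProduct.induction_on with
  | zero => simp
  | add a b ha hb => rw [map_add, map_add, ha, hb, add_zero]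
  | tmul x y =>
    rw [LinearMap.lTensor_tmul]
    refine hφ x _ ?_
    rw [← calkinMk_eq_zero]
    exact y.2

/-- TARGET 6: a C*-seminorm on `B(H) ⊗ B(H)` whose kernel is that of `Pi` descends to a C*-norm. -/
theorem descend (N : (H →L[ℂ] H) ⊗[ℂ] (H →L[ℂ] H) → ℝ)
    (h0 : (∀ x, 0 ≤ N x) ∧ (∀ x y, N (x + y) ≤ N x + N y) ∧
      (∀ (c : ℂ) (x : (H →L[ℂ] H) ⊗[ℂ] (H →L[ℂ] H)), N (c • x) = ‖c‖ * N x) ∧
      (∀ x y, N (x * y) ≤ N x * N y) ∧ (∀ x, N (star x) = N x) ∧
      (∀ x, N (star x * x) = N x ^ 2))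
    (hker : ∀ s, N s = 0 ↔ Pi s = 0) :
    ∃ N' : (H →L[ℂ] H) ⊗[ℂ] Calkin H → ℝ, IsCStarNorm N' ∧ ∀ s, N' (Pi s) = N s := by
  obtain ⟨hn, hadd, hsm, hmul, hstar, hcs⟩ := h0
  have hle : ∀ s t, Pi s = Pi t → N s ≤ N t := by
    intro s t h
    have h1 : N (s - t) = 0 := (hker _).2 (by rw [map_sub, h, sub_self])
    have h2 := hadd (s - t) t
    rw [sub_add_cancel, h1, zero_add] at h2
    exact h2
  have heq : ∀ s t, Pi s = Pi t → N s = N t := fun s t h => le_antisymm (hle s t h) (hle t s h.symm)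
  have key : ∀ s, N (Function.surjInv Pi_surjective (Pi s)) = N s := fun s =>
    heq _ _ (Function.surjInv_eq Pi_surjective (Pi s))
  refine ⟨fun x => N (Function.surjInv Pi_surjective x), ⟨?_, ?_, ?_, ?_, ?_, ?_, ?_⟩, key⟩
  · intro x; exact hn _
  · intro x hx
    obtain ⟨s, rfl⟩ := Pi_surjective x
    have hx' : N (Function.surjInv Pi_surjective (Pi s)) = 0 := hx
    rw [key] at hx'
    exact (hker s).1 hx'
  · intro x y
    obtain ⟨s, rfl⟩ := Pi_surjective x
    obtain ⟨t, rfl⟩ := Pi_surjective y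
    show N (Function.surjInv Pi_surjective (Pi s + Pi t)) ≤
      N (Function.surjInv Pi_surjective (Pi s)) + N (Function.surjInv Pi_surjective (Pi t))
    rw [← map_add, key, key, key]
    exact hadd s t
  · intro c x
    obtain ⟨s, rfl⟩ := Pi_surjective x
    show N (Function.surjInv Pi_surjective (c • Pi s)) =
      ‖c‖ * N (Function.surjInv Pi_surjective (Pi s))
    rw [← map_smul, key, key]
    exact hsm c s
  · intro x y
    obtain ⟨s, rfl⟩ := Pi_surjective x
    obtain ⟨t, rfl⟩ := Pi_surjective y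
    show N (Function.surjInv Pi_surjective (Pi s * Pi t)) ≤
      N (Function.surjInv Pi_surjective (Pi s)) * N (Function.surjInv Pi_surjective (Pi t))
    rw [← Pi_mul, key, key, key]
    exact hmul s t
  · intro x
    obtain ⟨s, rfl⟩ := Pi_surjective x
    show N (Function.surjInv Pi_surjective (star (Pi s))) =
      N (Function.surjInv Pi_surjective (Pi s))
    rw [← Pi_star, key, key]
    exact hstar s
  · intro x
    obtain ⟨s, rfl⟩ := Pi_surjective x
    show N (Function.surjInv Pi_surjective (star (Pi s) * Pi s)) =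
      N (Function.surjInv Pi_surjective (Pi s)) ^ 2
    rw [← Pi_star, ← Pi_mul, key, key]
    exact hcs s

end Pool.Agent.Helper965.CN
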