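import Mathlib
set_option autoImplicit false
open scoped TensorProduct Cardinal

namespace Pool.Agent.Helper965.CN

lemma mk_nat_fun_le (X : Type) (hX : #X ≤ 𝔠) : #(ℕ → X) ≤ 𝔠 := by
  rw [Cardinal.mk_arrow]
  simp only [Cardinal.lift_id, Cardinal.mk_nat]
  calc #X ^ ℵ₀ ≤ 𝔠 ^ ℵ₀ := Cardinal.power_le_power_right hX
    _ = 𝔠 := Cardinal.continuum_power_aleph0

lemma mk_sep_le (H : Type) [MetricSpace H] [Nonempty H]
    [TopologicalSpace.SeparableSpace H] : #H ≤ 𝔠 := by
  refine le_trans (Cardinal.mk_le_of_injective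
    (f := fun (x : H) (n : ℕ) => dist x (TopologicalSpace.denseSeq H n)) ?_)
    (mk_nat_fun_le ℝ Cardinal.mk_real.le)
  intro x y hxy
  have h1 : (fun z => dist x z) = fun z => dist y z := by
    apply DenseRange.equalizer (TopologicalSpace.denseRange_denseSeq H) (by fun_prop) (by fun_prop)
    funext n
    exact congrFun hxy n
  have h2 := congrFun h1 x
  simp only [dist_self] at h2
  exact (dist_eq_zero.1 h2.symm).symm

/-- TARGET 1. There are at most continuum many bounded operators on a separable Hilbert space. -/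
theorem mk_clm_le (H : Type) [NormedAddCommGroup H] [InnerProductSpace ℂ H] [CompleteSpace H]
    [TopologicalSpace.SeparableSpace H] : #(H →L[ℂ] H) ≤ 𝔠 := by
  refine le_trans (Cardinal.mk_le_of_injective
    (f := fun (T : H →L[ℂ] H) (n : ℕ) => T (TopologicalSpace.denseSeq H n)) ?_)
    (mk_nat_fun_le H (mk_sep_le H))
  intro S T hST
  have h1 : (S : H → H) = T := by
    apply DenseRange.equalizer (TopologicalSpace.denseRange_denseSeq H) S.continuous T.continuous
    funext n
    exact congrFun hST n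
  exact DFunLike.coe_injective h1

/-- TARGET 2. -/
theorem mk_tensor_le (A B : Type) [AddCommGroup A] [Module ℂ A] [AddCommGroup B] [Module ℂ B]
    (hA : #A ≤ 𝔠) (hB : #B ≤ 𝔠) : #(A ⊗[ℂ] B) ≤ 𝔠 := by
  have h1 : Function.Surjective (fun l : List (A × B) =>
      (l.map (fun q => q.1 ⊗ₜ[ℂ] q.2)).sum) := by
    intro x
    induction x using TensorProduct.induction_on with
    | zero => exact ⟨[], by simp⟩
    | tmul a b => exact ⟨[(a, b)], by simp⟩
    | add x y hx hy =>
      obtain ⟨l1, h1⟩ := hx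
      obtain ⟨l2, h2⟩ := hy
      refine ⟨l1 ++ l2, ?_⟩
      simp only at h1 h2 ⊢
      rw [List.map_append, List.sum_append, h1, h2]
  refine (Cardinal.mk_le_of_surjective h1).trans ((Cardinal.mk_list_le_max _).trans ?_)
  apply max_le Cardinal.aleph0_le_continuum
  rw [Cardinal.mk_prod, Cardinal.lift_id, Cardinal.lift_id]
  calc #A * #B ≤ 𝔠 * 𝔠 := mul_le_mul' hA hB
    _ = 𝔠 := Cardinal.continuum_mul_self

/-- TARGET 3. -/
theorem mk_fun_le (A : Type) (hA : #A ≤ 𝔠) : #(A → ℝ) ≤ 2 ^ 𝔠 := by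
  rw [Cardinal.mk_arrow, Cardinal.lift_id, Cardinal.lift_id, Cardinal.mk_real]
  calc 𝔠 ^ #A ≤ 𝔠 ^ 𝔠 := Cardinal.power_le_power_left Cardinal.continuum_ne_zero hA
    _ = 2 ^ 𝔠 := Cardinal.power_self_eq Cardinal.aleph0_le_continuum

end Pool.Agent.Helper965.CN
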