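import Mathlib
set_option autoImplicit false
open scoped ComplexOrder BigOperators InnerProductSpace

namespace Pool.Agent.Helper965.CN

variable {L : Type} [NormedAddCommGroup L] [InnerProductSpace ℂ L] [CompleteSpace L]

theorem comm_norm_le {K : Type} (v w : K → L)
    (hw : (Submodule.span ℂ (Set.range w)).topologicalClosure = ⊤)
    (hvw : ∀ k l, inner ℂ (w k) (w l) = inner ℂ (v l) (v k)) (P P' : L)
    (hP : ∀ k, inner ℂ (w k) P' = (starRingEnd ℂ) (inner ℂ (v k) P)) : ‖P'‖ ≤ ‖P‖ := by
  have key : ∀ x' ∈ Submodule.span ℂ (Set.range w), ‖inner ℂ x' P'‖ ≤ ‖x'‖ * ‖P‖ := by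
    intro x' hx'
    obtain ⟨a, rfl⟩ := Finsupp.mem_span_range_iff_exists_finsupp.mp hx'
    set x : L := ∑ k ∈ a.support, (starRingEnd ℂ) (a k) • v k with hx
    have e0 : a.sum (fun k c => c • w k) = ∑ k ∈ a.support, a k • w k := rfl
    rw [e0]
    have e1 : inner ℂ (∑ k ∈ a.support, a k • w k) P' = (starRingEnd ℂ) (inner ℂ x P) := by
      rw [hx, sum_inner, sum_inner, map_sum]
      apply Finset.sum_congr rfl
      intro k _
      rw [inner_smul_left, inner_smul_left, hP, map_mul, Complex.conj_conj]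
    have e2 : inner ℂ (∑ k ∈ a.support, a k • w k) (∑ k ∈ a.support, a k • w k) =
        (inner ℂ x x : ℂ) := by
      rw [hx, sum_inner, sum_inner]
      simp_rw [inner_sum]
      rw [Finset.sum_comm]
      apply Finset.sum_congr rfl
      intro l _
      apply Finset.sum_congr rfl
      intro k _
      rw [inner_smul_left, inner_smul_right, inner_smul_left, inner_smul_right, hvw,
        Complex.conj_conj]
      ring
    have e3 : ‖∑ k ∈ a.support, a k • w k‖ = ‖x‖ := by
      have h1 := inner_self_eq_norm_sq_to_K (𝕜 := ℂ) (∑ k ∈ a.support, a k • w k)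
      have h2 := inner_self_eq_norm_sq_to_K (𝕜 := ℂ) x
      rw [e2, h2] at h1
      have h3 : ‖x‖ ^ 2 = ‖∑ k ∈ a.support, a k • w k‖ ^ 2 := by exact_mod_cast h1
      exact ((pow_left_inj₀ (norm_nonneg _) (norm_nonneg _) two_ne_zero).mp h3).symm
    rw [e1, e3, RCLike.norm_conj]
    exact norm_inner_le_norm _ _
  have hcl : ∀ x' : L, ‖inner ℂ x' P'‖ ≤ ‖x'‖ * ‖P‖ := by
    have hclosed : IsClosed {x' : L | ‖inner ℂ x' P'‖ ≤ ‖x'‖ * ‖P‖} :=
      isClosed_le (by fun_prop) (by fun_prop)
    intro x'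
    have hmem : x' ∈ (Submodule.span ℂ (Set.range w)).topologicalClosure := by
      rw [hw]; trivial
    have h1 : x' ∈ closure ((Submodule.span ℂ (Set.range w) : Submodule ℂ L) : Set L) := hmem
    exact hclosed.closure_subset_iff.mpr (fun y hy => key y hy) h1
  have h2 := hcl P'
  have h3 : ‖(inner ℂ P' P' : ℂ)‖ = ‖P'‖ * ‖P'‖ := by
    rw [inner_self_eq_norm_sq_to_K]
    simp [pow_two]
  rw [h3] at h2
  rcases eq_or_lt_of_le (norm_nonneg P') with h4 | h4
  · rw [← h4]; exact norm_nonneg _
  · exact le_of_mul_le_mul_left h2 h4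

theorem comm_norm_eq {K : Type} (v w : K → L)
    (hv : (Submodule.span ℂ (Set.range v)).topologicalClosure = ⊤)
    (hw : (Submodule.span ℂ (Set.range w)).topologicalClosure = ⊤)
    (hvw : ∀ k l, inner ℂ (w k) (w l) = inner ℂ (v l) (v k)) (P P' : L)
    (hP : ∀ k, inner ℂ (w k) P' = (starRingEnd ℂ) (inner ℂ (v k) P)) : ‖P‖ = ‖P'‖ := by
  apply le_antisymm
  · exact comm_norm_le w v hv (fun k l => (hvw l k).symm) P' P
      (fun k => by rw [hP, Complex.conj_conj])
  · exact comm_norm_le v w hw hvw P P' hP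

theorem comm_inner {K : Type} (v w : K → L)
    (hv : (Submodule.span ℂ (Set.range v)).topologicalClosure = ⊤)
    (hw : (Submodule.span ℂ (Set.range w)).topologicalClosure = ⊤)
    (hvw : ∀ k l, inner ℂ (w k) (w l) = inner ℂ (v l) (v k)) (P P' Q Q' : L)
    (hP : ∀ k, inner ℂ (w k) P' = (starRingEnd ℂ) (inner ℂ (v k) P))
    (hQ : ∀ k, inner ℂ (w k) Q' = (starRingEnd ℂ) (inner ℂ (v k) Q)) :
    inner ℂ P Q = inner ℂ Q' P' := by
  have h1 : ∀ c : ℂ, ‖P + c • Q‖ = ‖P' + (starRingEnd ℂ) c • Q'‖ := by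
    intro c
    apply comm_norm_eq v w hv hw hvw
    intro k
    rw [inner_add_right, inner_add_right, inner_smul_right, inner_smul_right, hP, hQ, map_add,
      map_mul]
  have a1 := h1 1
  have a2 := h1 (-1)
  have a3 := h1 Complex.I
  have a4 := h1 (-Complex.I)
  simp only [map_one, one_smul, map_neg, neg_smul, Complex.conj_I, neg_neg, ← sub_eq_add_neg]
    at a1 a2 a3 a4
  rw [← inner_conj_symm Q' P', inner_eq_sum_norm_sq_div_four P Q,
    inner_eq_sum_norm_sq_div_four P' Q']
  have e : (RCLike.I : ℂ) = Complex.I := rfl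
  rw [e, a1, a2, a3, a4]
  simp only [map_div₀, map_add, map_sub, map_mul, map_pow]
  have c1 : ∀ r : ℝ, (starRingEnd ℂ) (RCLike.ofReal r : ℂ) = (RCLike.ofReal r : ℂ) := by
    intro r; exact Complex.conj_ofReal r
  simp only [c1, Complex.conj_I]
  have c2 : (starRingEnd ℂ) (4 : ℂ) = 4 := by
    have := Complex.conj_ofReal 4
    simpa using this
  rw [c2]
  ring

/-- TARGET. Elementary commutation theorem for a tracial kernel. -/
theorem comm_thm {G : Type} [Group G] (v : G → L)
    (hv : (Submodule.span ℂ (Set.range v)).topologicalClosure = ⊤)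
    (τ : G → ℂ) (hin : ∀ g h, inner ℂ (v g) (v h) = τ (g⁻¹ * h))
    (htr : ∀ g h, τ (g * h) = τ (h * g)) (T S : L →L[ℂ] L)
    (hT : ∀ g h k, inner ℂ (v (h * k)) (T (v (g * k))) = inner ℂ (v h) (T (v g)))
    (hS : ∀ g h k, inner ℂ (v (k * h)) (S (v (k * g))) = inner ℂ (v h) (S (v g))) :
    T * S = S * T := by
  have hmain : ∀ g h, inner ℂ (v h) (T (S (v g))) = inner ℂ (v h) (S (T (v g))) := by
    intro g h
    set w : G → L := fun k => v (h * k⁻¹ * g) with hw
    have hrange : Set.range w = Set.range v := by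
      ext x
      constructor
      · rintro ⟨k, rfl⟩; exact ⟨_, rfl⟩
      · rintro ⟨k, rfl⟩
        refine ⟨g * k⁻¹ * h, ?_⟩
        simp only [hw]
        congr 1
        group
    have hvw : ∀ k l, inner ℂ (w k) (w l) = inner ℂ (v l) (v k) := by
      intro k l
      simp only [hw]
      rw [hin, hin]
      have e1 : (h * k⁻¹ * g)⁻¹ * (h * l⁻¹ * g) = g⁻¹ * (k * l⁻¹ * g) := by group
      rw [e1, htr]
      have e2 : k * l⁻¹ * g * g⁻¹ = k * l⁻¹ := by group
      rw [e2, htr]
    have hP : ∀ k, inner ℂ (w k) (T (v g)) =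
        (starRingEnd ℂ) (inner ℂ (v k) (ContinuousLinearMap.adjoint T (v h))) := by
      intro k
      rw [ContinuousLinearMap.adjoint_inner_right, inner_conj_symm]
      have := hT k h (k⁻¹ * g)
      rw [← this]
      simp only [hw]
      have e1 : h * (k⁻¹ * g) = h * k⁻¹ * g := by group
      have e2 : k * (k⁻¹ * g) = g := by group
      rw [e1, e2]
    have hQ : ∀ k, inner ℂ (w k) (ContinuousLinearMap.adjoint S (v h)) =
        (starRingEnd ℂ) (inner ℂ (v k) (S (v g))) := by
      intro k
      rw [ContinuousLinearMap.adjoint_inner_right, ← inner_conj_symm]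
      congr 1
      have := hS g k (h * k⁻¹)
      rw [← this]
      simp only [hw]
      have e1 : h * k⁻¹ * k = h := by group
      rw [e1]
    have key := comm_inner v w hv (by rw [hrange]; exact hv) hvw
      (ContinuousLinearMap.adjoint T (v h)) (T (v g)) (S (v g))
      (ContinuousLinearMap.adjoint S (v h)) hP hQ
    rw [ContinuousLinearMap.adjoint_inner_left, ContinuousLinearMap.adjoint_inner_left] at key
    exact key
  have htot : ∀ y z : L, (∀ h, inner ℂ (v h) y = inner ℂ (v h) z) → y = z := by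
    intro y z hyz
    have h1 : y - z ∈ (Submodule.span ℂ (Set.range v))ᗮ := by
      rw [Submodule.mem_orthogonal]
      intro u hu
      induction hu using Submodule.span_induction with
      | mem x hx =>
        obtain ⟨h, rfl⟩ := hx
        rw [inner_sub_right, hyz h, sub_self]
      | zero => exact inner_zero_left _
      | add x y' _ _ hx hy => rw [inner_add_left, hx, hy, add_zero]
      | smul a x _ hx => rw [inner_smul_left, hx, mul_zero]
    rw [(Submodule.topologicalClosure_eq_top_iff).mp hv] at h1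
    exact sub_eq_zero.mp ((Submodule.mem_bot ℂ).mp h1)
  have hdense : Dense ((Submodule.span ℂ (Set.range v) : Submodule ℂ L) : Set L) :=
    Submodule.dense_iff_topologicalClosure_eq_top.mpr hv
  apply ContinuousLinearMap.ext_on hdense
  rintro _ ⟨g, rfl⟩
  exact htot _ _ (fun h => hmain g h)

end Pool.Agent.Helper965.CN
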