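import Mathlib
set_option autoImplicit false
set_option linter.unusedSectionVars false
open scoped ComplexOrder BigOperators InnerProductSpace
open Filter Topology

namespace Pool.Agent.Helper965.CN

variable {H : Type} [NormedAddCommGroup H] [InnerProductSpace ℂ H] [CompleteSpace H]

/-- a compact operator maps bounded weakly null families (along any filter) to norm null ones -/
theorem compact_weak_null_filter {ι : Type} {l : Filter ι} {y : H →L[ℂ] H}
    (hy : IsCompactOperator y) {η : ι → H} (hη : ∀ n, ‖η n‖ ≤ 1)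
    (hw : ∀ x : H, Tendsto (fun n => (inner ℂ x (η n) : ℂ)) l (𝓝 0)) :
    Tendsto (fun n => ‖y (η n)‖) l (𝓝 0) := by
  obtain ⟨K, hK, hKs⟩ := (isCompactOperator_iff_image_closedBall_subset_compact
    (y : H →ₗ[ℂ] H) (r := 1) one_pos).1 hy
  have hmem : ∀ n, y (η n) ∈ K := by
    intro n
    apply hKs
    exact ⟨η n, by simpa using hη n, rfl⟩
  have h0 : Tendsto (fun n => y (η n)) l (𝓝 0) := by
    apply hK.tendsto_nhds_of_unique_mapClusterPt (Eventually.of_forall hmem)
    intro z hz hcl
    have h1 : MapClusterPt (inner ℂ z z : ℂ) l (fun n => (inner ℂ z (y (η n)) : ℂ)) := by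
      have hc : ContinuousAt (fun w : H => (inner ℂ z w : ℂ)) z := by fun_prop
      exact hcl.continuousAt_comp hc
    have h2 : Tendsto (fun n => (inner ℂ z (y (η n)) : ℂ)) l (𝓝 0) := by
      have := hw (star y z)
      refine this.congr ?_
      intro n
      rw [ContinuousLinearMap.star_eq_adjoint, ContinuousLinearMap.adjoint_inner_left]
    have h3 : (inner ℂ z z : ℂ) = 0 := by
      have h4 : ClusterPt (inner ℂ z z : ℂ) (𝓝 0) := ClusterPt.mono h1 h2
      by_contra hne
      have hd : Disjoint (𝓝 (inner ℂ z z : ℂ)) (𝓝 0) := disjoint_nhds_nhds.2 hne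
      exact NeBot.ne h4 hd.eq_bot
    exact inner_self_eq_zero.1 h3
  simpa using h0.norm

/-- TARGET 4 -/
theorem compact_weak_null {y : H →L[ℂ] H} (hy : IsCompactOperator y) {η : ℕ → H}
    (hη : ∀ n, ‖η n‖ ≤ 1) (hw : ∀ x : H, Tendsto (fun n => (inner ℂ x (η n) : ℂ)) atTop (𝓝 0)) :
    Tendsto (fun n => ‖y (η n)‖) atTop (𝓝 0) :=
  compact_weak_null_filter hy hη hw

theorem orthonormal_weak_null {ι : Type} {v : ι → H} (hv : Orthonormal ℂ v) (x : H) :
    Tendsto (fun i => (inner ℂ x (v i) : ℂ)) cofinite (𝓝 0) := by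
  have h := (hv.inner_products_summable (x := x)).tendsto_cofinite_zero
  have h2 : Tendsto (fun i => Real.sqrt (‖(inner ℂ (v i) x : ℂ)‖ ^ 2)) cofinite (𝓝 (Real.sqrt 0)) :=
    (Real.continuous_sqrt.tendsto 0).comp h
  rw [Real.sqrt_zero] at h2
  rw [tendsto_zero_iff_norm_tendsto_zero]
  refine h2.congr ?_
  intro i
  rw [Real.sqrt_sq (norm_nonneg _), norm_inner_symm]

/-- TARGET 2 -/
theorem compact_basis {ι : Type} (b : HilbertBasis ι ℂ H) {y : H →L[ℂ] H}
    (hy : IsCompactOperator y) : Tendsto (fun i => ‖y (b i)‖) cofinite (𝓝 0) :=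
  compact_weak_null_filter hy (fun i => (b.orthonormal.1 i).le)
    (fun x => orthonormal_weak_null b.orthonormal x)

/-- TARGET 1 (Schauder for Hilbert spaces). -/
theorem isCompact_star {y : H →L[ℂ] H} (hy : IsCompactOperator y) :
    IsCompactOperator (star y : H →L[ℂ] H) := by
  have hyy : IsCompactOperator ((y * star y : H →L[ℂ] H)) := hy.comp_clm (star y)
  obtain ⟨K, hK, hKs⟩ := (isCompactOperator_iff_image_closedBall_subset_compact
    ((y * star y : H →L[ℂ] H) : H →ₗ[ℂ] H) (r := 1) one_pos).1 hyy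
  refine (isCompactOperator_iff_image_closedBall_subset_compact
    ((star y : H →L[ℂ] H) : H →ₗ[ℂ] H) (r := 1) one_pos).2
    ⟨closure ((star y : H →L[ℂ] H) '' Metric.closedBall 0 1), ?_, subset_closure⟩
  have htb : TotallyBounded ((y * star y : H →L[ℂ] H) '' Metric.closedBall 0 1) :=
    hK.totallyBounded.subset hKs
  refine TotallyBounded.isCompact_of_isClosed (TotallyBounded.closure ?_) isClosed_closure
  rw [Metric.totallyBounded_iff]
  intro ε hε
  have hδ : 0 < ε ^ 2 / 2 := by positivity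
  obtain ⟨t, htsub, htfin, htcov⟩ := htb.exists_subset
    (Metric.dist_mem_uniformity hδ)
  have htsub' : ∀ w ∈ t, ∃ u : H, u ∈ Metric.closedBall (0 : H) 1 ∧ (y * star y : H →L[ℂ] H) u = w :=
    fun w hw => htsub hw
  choose! g hg using htsub'
  refine ⟨(star y : H →L[ℂ] H) '' (g '' t), (htfin.image _).image _, ?_⟩
  rintro _ ⟨u, hu, rfl⟩
  have hu2 : (y * star y : H →L[ℂ] H) u ∈ (y * star y : H →L[ℂ] H) '' Metric.closedBall 0 1 :=
    ⟨u, hu, rfl⟩
  have h3 := htcov hu2
  simp only [Set.mem_iUnion, Set.mem_ofPred_eq] at h3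
  obtain ⟨w, hw, hdist⟩ := h3
  have hgw := hg w hw
  simp only [Set.mem_iUnion]
  refine ⟨(star y : H →L[ℂ] H) (g w), ⟨_, ⟨w, hw, rfl⟩, rfl⟩, ?_⟩
  rw [Metric.mem_ball, dist_eq_norm, ← map_sub]
  have h5 : ‖(star y : H →L[ℂ] H) (u - g w)‖ ^ 2 ≤ ‖(y * star y : H →L[ℂ] H) (u - g w)‖ * ‖u - g w‖ := by
    have h6 : (inner ℂ ((star y : H →L[ℂ] H) (u - g w)) ((star y : H →L[ℂ] H) (u - g w)) : ℂ)
        = inner ℂ ((y * star y : H →L[ℂ] H) (u - g w)) (u - g w) := by
      rw [ContinuousLinearMap.star_eq_adjoint, ContinuousLinearMap.adjoint_inner_right]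
      rfl
    have h7 : ‖(star y : H →L[ℂ] H) (u - g w)‖ ^ 2
        = ‖(inner ℂ ((star y : H →L[ℂ] H) (u - g w)) ((star y : H →L[ℂ] H) (u - g w)) : ℂ)‖ := by
      rw [inner_self_eq_norm_sq_to_K]
      simp
    rw [h7, h6]
    exact norm_inner_le_norm _ _
  have h8 : ‖u - g w‖ ≤ 2 := by
    have a1 : ‖u‖ ≤ 1 := by simpa using hu
    have a2 : ‖g w‖ ≤ 1 := by simpa using hgw.1
    calc ‖u - g w‖ ≤ ‖u‖ + ‖g w‖ := norm_sub_le _ _
      _ ≤ 2 := by linarith
  have h9 : ‖(y * star y : H →L[ℂ] H) (u - g w)‖ < ε ^ 2 / 2 := by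
    rw [map_sub, hgw.2, ← dist_eq_norm]
    exact hdist
  have h10 : ‖(star y : H →L[ℂ] H) (u - g w)‖ ^ 2 < ε ^ 2 := by
    rcases eq_or_lt_of_le (norm_nonneg (u - g w)) with h0 | h0
    · rw [← h0, mul_zero] at h5
      nlinarith [sq_nonneg ε]
    · calc ‖(star y : H →L[ℂ] H) (u - g w)‖ ^ 2 ≤ _ := h5
        _ < ε ^ 2 / 2 * ‖u - g w‖ := by
          apply mul_lt_mul_of_pos_right h9 h0
        _ ≤ ε ^ 2 / 2 * 2 := by gcongr
        _ = ε ^ 2 := by ring
  exact lt_of_pow_lt_pow_left₀ 2 hε.le h10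


/-- TARGET 3: a non compact operator is bounded below on some orthonormal sequence, more simply:
there are a bounded weakly null sequence and `c > 0` with `c ≤ ‖y (η n)‖`. -/
theorem exists_weak_null {y : H →L[ℂ] H} (hy : ¬ IsCompactOperator y) :
    ∃ (η : ℕ → H) (c : ℝ), 0 < c ∧ (∀ n, ‖η n‖ ≤ 1) ∧ (∀ n, c ≤ ‖y (η n)‖) ∧
      ∀ x : H, Tendsto (fun n => (inner ℂ x (η n) : ℂ)) atTop (𝓝 0) := by
  classical
  -- key claim
  have key : ∃ c : ℝ, 0 < c ∧ ∀ F : Submodule ℂ H, FiniteDimensional ℂ F →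
      ∃ v ∈ Fᗮ, ‖v‖ = 1 ∧ c ≤ ‖y v‖ := by
    by_contra hcon
    push Not at hcon
    apply hy
    -- y is a limit of finite rank operators
    have happ : ∀ n : ℕ, ∃ F : Submodule ℂ H, ∃ _ : FiniteDimensional ℂ F,
        ∀ v ∈ Fᗮ, ‖v‖ = 1 → ‖y v‖ < 1 / ((n : ℝ) + 1) := by
      intro n
      obtain ⟨F, hF, h⟩ := hcon (1 / ((n : ℝ) + 1)) (by positivity)
      exact ⟨F, hF, h⟩
    choose F hF hFv using happ
    have hcomp : ∀ n, IsCompactOperator ((y ∘L (F n).starProjection : H →L[ℂ] H)) := by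
      intro n
      have hfd := hF n
      have hps : ProperSpace (F n) := FiniteDimensional.proper ℂ (F n)
      have h1 : IsCompactOperator (fun x : H => (F n).orthogonalProjectionOnto x) :=
        isCompactOperator_of_locallyCompactSpace_dom (F n).orthogonalProjectionOnto
      have h2 := h1.continuous_comp (g := fun z : F n => y (z : H)) (by fun_prop)
      exact h2
    have hlim : Tendsto (fun n => (y ∘L (F n).starProjection : H →L[ℂ] H)) atTop (𝓝 y) := by
      rw [tendsto_iff_norm_sub_tendsto_zero]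
      refine squeeze_zero (fun n => norm_nonneg _) (g := fun n : ℕ => 1 / ((n : ℝ) + 1)) ?_
        tendsto_one_div_add_atTop_nhds_zero_nat
      intro n
      refine ContinuousLinearMap.opNorm_le_bound _ (by positivity) ?_
      intro x
      have hperp : x - (F n).starProjection x ∈ (F n)ᗮ :=
        Submodule.sub_starProjection_mem_orthogonal x
      have hnorm : ‖x - (F n).starProjection x‖ ≤ ‖x‖ := by
        have h3 : ‖x‖ ^ 2 = ‖(F n).starProjection x‖ ^ 2 + ‖x - (F n).starProjection x‖ ^ 2 := by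
          have h4 := Submodule.norm_sq_eq_add_norm_sq_starProjection x (F n)
          rw [h4, Submodule.starProjection_orthogonal_val]
        nlinarith [norm_nonneg x, norm_nonneg (x - (F n).starProjection x),
          sq_nonneg ‖(F n).starProjection x‖]
      have hval : ((y ∘L (F n).starProjection : H →L[ℂ] H) - y) x
          = - y (x - (F n).starProjection x) := by
        simp [map_sub]
      rw [hval, norm_neg]
      set w := x - (F n).starProjection x with hw
      rcases eq_or_ne w 0 with h0 | h0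
      · rw [h0, map_zero, norm_zero]
        positivity
      · have hwn : 0 < ‖w‖ := norm_pos_iff.2 h0
        have h5 : ‖((‖w‖⁻¹ : ℝ) : ℂ) • w‖ = 1 := by
          rw [norm_smul, Complex.norm_real, Real.norm_of_nonneg (by positivity),
            inv_mul_cancel₀ hwn.ne']
        have h6 := hFv n (((‖w‖⁻¹ : ℝ) : ℂ) • w) (Submodule.smul_mem _ _ hperp) h5
        rw [map_smul, norm_smul, Complex.norm_real, Real.norm_of_nonneg (by positivity)] at h6
        have h7 : ‖y w‖ ≤ 1 / ((n : ℝ) + 1) * ‖w‖ := by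
          have : ‖y w‖ = (‖w‖⁻¹ * ‖y w‖) * ‖w‖ := by
            field_simp
          rw [this]
          exact mul_le_mul_of_nonneg_right h6.le (norm_nonneg _)
        calc ‖y w‖ ≤ 1 / ((n : ℝ) + 1) * ‖w‖ := h7
          _ ≤ 1 / ((n : ℝ) + 1) * ‖x‖ := by gcongr
    exact isCompactOperator_of_tendsto hlim (Eventually.of_forall hcomp)
  obtain ⟨c, hc, hF⟩ := key
  obtain ⟨η, hP, hr⟩ := exists_seq_of_forall_finset_exists
    (fun v : H => ‖v‖ = 1 ∧ c ≤ ‖y v‖) (fun u v : H => (inner ℂ u v : ℂ) = 0) (by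
      intro s _
      obtain ⟨v, hv, hv1, hv2⟩ := hF (Submodule.span ℂ (s : Set H))
        (FiniteDimensional.span_finset ℂ s)
      refine ⟨v, ⟨hv1, hv2⟩, ?_⟩
      intro x hx
      exact (Submodule.mem_orthogonal _ v).1 hv x (Submodule.subset_span hx))
  have hon : Orthonormal ℂ η := by
    refine ⟨fun n => (hP n).1, ?_⟩
    intro i j hij
    rcases lt_or_gt_of_ne hij with h | h
    · exact hr i j h
    · rw [← inner_conj_symm, hr j i h, map_zero]
  refine ⟨η, c, hc, fun n => (hP n).1.le, fun n => (hP n).2, ?_⟩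
  intro x
  have := orthonormal_weak_null hon x
  rwa [Nat.cofinite_eq_atTop] at this

/-- TARGET 5 -/
theorem exists_basis (ι : Type) [Countable ι] [Infinite ι] [TopologicalSpace.SeparableSpace H]
    (hH : ¬ FiniteDimensional ℂ H) : Nonempty (HilbertBasis ι ℂ H) := by
  obtain ⟨w, b, hb⟩ := exists_hilbertBasis ℂ H
  have hon := b.orthonormal
  -- w is infinite
  have hinf : Infinite w := by
    by_contra hfin
    rw [not_infinite_iff_finite] at hfin
    have := Fintype.ofFinite w
    apply hH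
    exact (b.toOrthonormalBasis).toBasis.finiteDimensional_of_finite
  -- w is countable
  have hcount : Countable w := by
    have hdisj : (Set.univ : Set w).PairwiseDisjoint (fun i : w => Metric.ball (b i) (1/2)) := by
      intro i _ j _ hij
      refine Set.disjoint_left.2 ?_
      intro z hz1 hz2
      rw [Metric.mem_ball] at hz1 hz2
      have h1 : dist (b i) (b j) < 1 := by
        calc dist (b i) (b j) ≤ dist (b i) z + dist z (b j) := dist_triangle _ _ _
          _ = dist z (b i) + dist z (b j) := by rw [dist_comm (b i) z]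
          _ < 1 := by linarith
      have h2 : ‖b i - b j‖ ^ 2 = 2 := by
        have h3 := hon.2 hij
        have := @norm_sub_sq ℂ H _ _ _ (b i) (b j)
        rw [this, hon.1 i, hon.1 j, h3]
        simp
        norm_num
      rw [dist_eq_norm] at h1
      nlinarith [norm_nonneg (b i - b j)]
    have := hdisj.countable_of_isOpen (fun i _ => Metric.isOpen_ball)
      (fun i _ => ⟨b i, Metric.mem_ball_self (by norm_num)⟩)
    exact Set.countable_univ_iff.1 this
  obtain ⟨e⟩ : Nonempty (ι ≃ w) := by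
    have : Denumerable ι := Classical.choice (nonempty_denumerable ι)
    have : Denumerable w := Classical.choice (nonempty_denumerable w)
    exact ⟨Denumerable.equiv₂ ι w⟩
  refine ⟨HilbertBasis.mk (v := fun i => b (e i)) (hon.comp e e.injective) ?_⟩
  have hr : Set.range (fun i => b (e i)) = Set.range b := by
    ext z
    constructor
    · rintro ⟨i, rfl⟩
      exact ⟨_, rfl⟩
    · rintro ⟨i, rfl⟩
      exact ⟨e.symm i, by simp⟩
  rw [hr, b.dense_span]

end Pool.Agent.Helper965.CN
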