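import Pool.Agent.Helper965.CN.Cpt

set_option autoImplicit false

open scoped TensorProduct

namespace Pool.Agent.Helper965.CN

/-- `N` is a C*-norm on the complex *-algebra `A` (in the results below `A` is an algebraic tensor
product of two C*-algebras, with its usual *-algebra structure from Mathlib). -/
structure IsCStarNorm {A : Type} [Ring A] [StarRing A] [Algebra ℂ A] (N : A → ℝ) : Prop where
  nonneg : ∀ x, 0 ≤ N x
  eq_zero : ∀ x, N x = 0 → x = 0
  add_le : ∀ x y, N (x + y) ≤ N x + N y
  smul : ∀ (c : ℂ) (x : A), N (c • x) = ‖c‖ * N x
  mul_le : ∀ x y, N (x * y) ≤ N x * N y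
  norm_star : ∀ x, N (star x) = N x
  cstar : ∀ x, N (star x * x) = N x ^ 2

section calkin

variable (H : Type) [NormedAddCommGroup H] [InnerProductSpace ℂ H] [CompleteSpace H]

/-- The congruence on `B(H)`: `x` and `y` are identified if `x - y` is a compact operator. -/
def compactCon : RingCon (H →L[ℂ] H) where
  r x y := IsCompactOperator (x - y : H →L[ℂ] H)
  iseqv := by
    refine ⟨fun x => ?_, fun {x y} h => ?_, fun {x y z} h h' => ?_⟩
    · rw [sub_self]
      exact isCompactOperator_zero
    · have h2 := h.neg
      rw [← neg_sub]
      exact h2
    · have h2 := h.add h'
      rw [← sub_add_sub_cancel x y z]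
      exact h2
  add' := by
    intro x x' y y' h h'
    have h2 := h.add h'
    rw [add_sub_add_comm]
    exact h2
  mul' := by
    intro x x' y y' h h'
    have h2 := (h.comp_clm y).add (h'.clm_comp x')
    have e : x * y - x' * y' = (x - x') * y + x' * (y - y') := by noncomm_ring
    rw [e]
    exact h2

/-- The Calkin algebra `Q(H) = B(H) / K(H)`, as a *-algebra. -/
abbrev Calkin : Type := (compactCon H).Quotient

/-- The quotient map `B(H) → Q(H)`. -/
def calkinMk (x : H →L[ℂ] H) : Calkin H := (compactCon H).mk' x

lemma compactCon_star {x y : H →L[ℂ] H} (h : (compactCon H).r x y) :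
    (compactCon H).r (star x) (star y) := by
  show IsCompactOperator (star x - star y : H →L[ℂ] H)
  rw [← star_sub]
  exact isCompact_star h

/-- The quotient *-ring structure: `star [x] = [star x]`. -/
noncomputable instance instStarCalkin : StarRing (Calkin H) where
  star := Quotient.map' star fun _ _ h => compactCon_star H h
  star_involutive := by
    intro x
    induction x using Quotient.inductionOn' with
    | h x => exact congrArg (calkinMk H) (star_star x)
  star_mul := by
    intro x y
    induction x using Quotient.inductionOn' with
    | h x =>
      induction y using Quotient.inductionOn' with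
      | h y => exact congrArg (calkinMk H) (star_mul x y)
  star_add := by
    intro x y
    induction x using Quotient.inductionOn' with
    | h x =>
      induction y using Quotient.inductionOn' with
      | h y => exact congrArg (calkinMk H) (star_add x y)

instance instStarModCalkin : StarModule ℂ (Calkin H) where
  star_smul := by
    intro c x
    induction x using Quotient.inductionOn' with
    | h x => exact congrArg (calkinMk H) (star_smul c x)

end calkin

end Pool.Agent.Helper965.CN
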