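import Pool.Agent.Helper965.O2.Base
import Pool.Agent.Helper965.O2.Key
import Pool.Agent.Helper965.CN.Base
set_option autoImplicit false
open scoped BigOperators Matrix ComplexOrder

namespace Pool.Agent.Helper965.CN
open Pool.Agent.Helper965.O2 (hs w)

theorem mb_sqrt_hs {m n : Type} [Fintype m] [Fintype n] (A : Matrix m n ℂ) :
    Real.sqrt (hs A) = ‖(WithLp.toLp 2 (fun p : m × n => A p.1 p.2) : EuclideanSpace ℂ (m × n))‖ := by
  rw [EuclideanSpace.norm_eq]
  congr 1
  unfold hs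
  rw [Fintype.sum_prod_type]

theorem mb_tri {m n : Type} [Fintype m] [Fintype n] (A B : Matrix m n ℂ) :
    Real.sqrt (hs (A + B)) ≤ Real.sqrt (hs A) + Real.sqrt (hs B) := by
  rw [mb_sqrt_hs, mb_sqrt_hs, mb_sqrt_hs]
  refine le_trans (le_of_eq ?_) (norm_add_le _ _)
  congr 1

theorem mb_par {m n : Type} [Fintype m] [Fintype n] (A B : Matrix m n ℂ) :
    hs (A + B) + hs (A - B) = 2 * hs A + 2 * hs B := by
  unfold hs
  rw [Finset.mul_sum, Finset.mul_sum, ← Finset.sum_add_distrib, ← Finset.sum_add_distrib]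
  refine Finset.sum_congr rfl fun i _ => ?_
  rw [Finset.mul_sum, Finset.mul_sum, ← Finset.sum_add_distrib, ← Finset.sum_add_distrib]
  refine Finset.sum_congr rfl fun j _ => ?_
  have := parallelogram_law_with_norm ℝ (A i j) (B i j)
  simp only [Matrix.add_apply, Matrix.sub_apply]
  nlinarith [this]

theorem mb_conj {m n : Type} [Fintype m] [Fintype n] (A : Matrix m n ℂ) : hs Aᴴ = hs A := by
  unfold hs
  rw [Finset.sum_comm]
  simp [Matrix.conjTranspose_apply]

theorem mb_nonneg {m n : Type} [Fintype m] [Fintype n] (A : Matrix m n ℂ) : 0 ≤ hs A := by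
  unfold hs
  positivity

theorem mb_sub_comm {m n : Type} [Fintype m] [Fintype n] (A B : Matrix m n ℂ) :
    hs (A - B) = hs (B - A) := by
  unfold hs
  refine Finset.sum_congr rfl fun i _ => Finset.sum_congr rfl fun j _ => ?_
  simp only [Matrix.sub_apply]
  rw [norm_sub_rev]

/-- TARGET. Two quantum expanders of very different sizes are far from each other. -/
theorem min_block (k l : ℕ) (h : 2 * k + 1 ≤ l ∨ 2 * l + 1 ≤ k) (Z : Matrix (Bl k) (Bl l) ℂ) :
    hs (Z + ∑ i, w (2 * k + 1) i * Z * (w (2 * l + 1) i)ᴴ) ≤ (4 - 1 / 10 ^ 12) ^ 2 * hs Z := by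
  by_contra hcon
  push Not at hcon
  set S : Fin 3 → Matrix (Bl k) (Bl l) ℂ := fun i => w (2 * k + 1) i * Z * (w (2 * l + 1) i)ᴴ with hS
  have hu1 : ∀ i, w (2 * k + 1) i * (w (2 * k + 1) i)ᴴ = 1 := fun i =>
    Matrix.mem_unitaryGroup_iff.1 (Pool.Agent.Helper965.O2.w_mem (2 * k + 1) i)
  have hu2 : ∀ i, (w (2 * k + 1) i)ᴴ * w (2 * k + 1) i = 1 := fun i =>
    Matrix.mem_unitaryGroup_iff'.1 (Pool.Agent.Helper965.O2.w_mem (2 * k + 1) i)
  have hv1 : ∀ i, w (2 * l + 1) i * (w (2 * l + 1) i)ᴴ = 1 := fun i =>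
    Matrix.mem_unitaryGroup_iff.1 (Pool.Agent.Helper965.O2.w_mem (2 * l + 1) i)
  have hv2 : ∀ i, (w (2 * l + 1) i)ᴴ * w (2 * l + 1) i = 1 := fun i =>
    Matrix.mem_unitaryGroup_iff'.1 (Pool.Agent.Helper965.O2.w_mem (2 * l + 1) i)
  have hSi : ∀ i, hs (S i) = hs Z := by
    intro i
    rw [hS]
    simp only
    rw [Pool.Agent.Helper965.O2.hs_mul_right _ (U := (w (2 * l + 1) i)ᴴ)
      (by rw [Matrix.conjTranspose_conjTranspose]; exact hv2 i)]
    exact Pool.Agent.Helper965.O2.hs_mul_left _ (hu2 i)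
  set z := Real.sqrt (hs Z) with hz
  have hz0 : 0 ≤ z := Real.sqrt_nonneg _
  have hz2 : z ^ 2 = hs Z := Real.sq_sqrt (mb_nonneg Z)
  have hSn : ∀ i, Real.sqrt (hs (S i)) = z := fun i => by rw [hSi]
  set N := Real.sqrt (hs (Z + ∑ i, S i)) with hN
  have hN0 : 0 ≤ N := Real.sqrt_nonneg _
  have hN2 : N ^ 2 = hs (Z + ∑ i, S i) := Real.sq_sqrt (mb_nonneg _)
  have hNbig : (4 - 1 / 10 ^ 12) * z < N := by
    apply lt_of_pow_lt_pow_left₀ 2 hN0
    rw [mul_pow, hz2, hN2]
    exact hcon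
  have key : ∀ i, hs (Z - S i) ≤ (1 / 5000) ^ 2 * hs Z := by
    intro i
    have h1 : N ≤ Real.sqrt (hs (Z + S i)) + 2 * z := by
      fin_cases i
      · have e : Z + ∑ i, S i = ((Z + S 0) + S 1) + S 2 := by
          rw [Fin.sum_univ_three]; abel
        rw [hN, e]
        have t1 := mb_tri ((Z + S 0) + S 1) (S 2)
        have t2 := mb_tri (Z + S 0) (S 1)
        rw [hSn] at t1 t2
        show _ ≤ Real.sqrt (hs (Z + S 0)) + 2 * z
        linarith
      · have e : Z + ∑ i, S i = ((Z + S 1) + S 0) + S 2 := by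
          rw [Fin.sum_univ_three]; abel
        rw [hN, e]
        have t1 := mb_tri ((Z + S 1) + S 0) (S 2)
        have t2 := mb_tri (Z + S 1) (S 0)
        rw [hSn] at t1 t2
        show _ ≤ Real.sqrt (hs (Z + S 1)) + 2 * z
        linarith
      · have e : Z + ∑ i, S i = ((Z + S 2) + S 0) + S 1 := by
          rw [Fin.sum_univ_three]; abel
        rw [hN, e]
        have t1 := mb_tri ((Z + S 2) + S 0) (S 1)
        have t2 := mb_tri (Z + S 2) (S 0)
        rw [hSn] at t1 t2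
        show _ ≤ Real.sqrt (hs (Z + S 2)) + 2 * z
        linarith
    have h2 : (2 - 1 / 10 ^ 12) * z ≤ Real.sqrt (hs (Z + S i)) := by linarith
    have h3 : (2 - 1 / 10 ^ 12) ^ 2 * hs Z ≤ hs (Z + S i) := by
      rw [← hz2, ← mul_pow, ← Real.sq_sqrt (mb_nonneg (Z + S i))]
      apply pow_le_pow_left₀ _ h2
      apply mul_nonneg (by norm_num) hz0
    have h4 := mb_par Z (S i)
    rw [hSi i] at h4
    have h5 := mb_nonneg Z
    nlinarith [h3, h4, h5]
  have k1 : ∀ i, hs (w (2 * k + 1) i * Z - Z * w (2 * l + 1) i) ≤ (1 / 5000) ^ 2 * hs Z := by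
    intro i
    have e : w (2 * k + 1) i * Z - Z * w (2 * l + 1) i = (S i - Z) * w (2 * l + 1) i := by
      rw [Matrix.sub_mul, hS]
      simp only
      rw [Matrix.mul_assoc (w (2 * k + 1) i * Z), hv2 i, Matrix.mul_one]
    rw [e, Pool.Agent.Helper965.O2.hs_mul_right _ (hv1 i), mb_sub_comm]
    exact key i
  have k2 : ∀ i, hs ((w (2 * k + 1) i)ᴴ * Z - Z * (w (2 * l + 1) i)ᴴ) ≤ (1 / 5000) ^ 2 * hs Z := by
    intro i
    have e : (w (2 * k + 1) i)ᴴ * Z - Z * (w (2 * l + 1) i)ᴴ =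
        (w (2 * k + 1) i)ᴴ * (Z - S i) := by
      rw [Matrix.mul_sub, hS]
      simp only
      rw [← Matrix.mul_assoc, ← Matrix.mul_assoc, hu2 i, Matrix.one_mul]
    rw [e, Pool.Agent.Helper965.O2.hs_mul_left _ (U := (w (2 * k + 1) i)ᴴ)
      (by rw [Matrix.conjTranspose_conjTranspose]; exact hu1 i)]
    exact key i
  have hZ0 : hs Z = 0 := by
    rcases h with h | h
    · exact Pool.Agent.Helper965.O2.scalar_key l (by rw [ZMod.card]; exact h)
        (w (2 * k + 1)) Z k1 k2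
    · have h1 : hs Zᴴ = 0 := by
        apply Pool.Agent.Helper965.O2.scalar_key k (by rw [ZMod.card]; exact h)
          (w (2 * l + 1)) Zᴴ
        · intro i
          have e : w (2 * l + 1) i * Zᴴ - Zᴴ * w (2 * k + 1) i =
              (Z * (w (2 * l + 1) i)ᴴ - (w (2 * k + 1) i)ᴴ * Z)ᴴ := by
            simp [Matrix.conjTranspose_sub, Matrix.conjTranspose_mul]
          rw [e, mb_conj, mb_conj, mb_sub_comm]
          exact k2 i
        · intro i
          have e : (w (2 * l + 1) i)ᴴ * Zᴴ - Zᴴ * (w (2 * k + 1) i)ᴴ =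
              (Z * w (2 * l + 1) i - w (2 * k + 1) i * Z)ᴴ := by
            simp [Matrix.conjTranspose_sub, Matrix.conjTranspose_mul]
          rw [e, mb_conj, mb_conj, mb_sub_comm]
          exact k1 i
      rw [mb_conj] at h1
      exact h1
  have hz00 : z = 0 := by rw [hz, hZ0, Real.sqrt_zero]
  have hN4 : N ≤ 4 * z := by
    have e : Z + ∑ i, S i = ((Z + S 0) + S 1) + S 2 := by
      rw [Fin.sum_univ_three]; abel
    rw [hN, e]
    have t1 := mb_tri ((Z + S 0) + S 1) (S 2)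
    have t2 := mb_tri (Z + S 0) (S 1)
    have t3 := mb_tri Z (S 0)
    rw [hSn] at t1 t2 t3
    linarith
  rw [hz00] at hNbig hN4
  linarith

end Pool.Agent.Helper965.CN
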