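import Mathlib
set_option autoImplicit false
set_option linter.unusedSectionVars false
open scoped TensorProduct ComplexOrder BigOperators

namespace Pool.Agent.Helper965.CN

variable {H : Type} [NormedAddCommGroup H] [InnerProductSpace ℂ H] [CompleteSpace H]

/-- The representation of `B(H) ⊗ B(H)` on the algebraic tensor product `H ⊗ H`. -/
noncomputable def R : (H →L[ℂ] H) ⊗[ℂ] (H →L[ℂ] H) →ₗ[ℂ] (H ⊗[ℂ] H →ₗ[ℂ] H ⊗[ℂ] H) :=
  TensorProduct.lift
    { toFun := fun x =>
        { toFun := fun y => TensorProduct.map (x : H →ₗ[ℂ] H) (y : H →ₗ[ℂ] H)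
          map_add' := fun y y' => by
            rw [ContinuousLinearMap.toLinearMap_add, TensorProduct.map_add_right]
          map_smul' := fun c y => by
            rw [ContinuousLinearMap.toLinearMap_smul, TensorProduct.map_smul_right,
              RingHom.id_apply] }
      map_add' := fun x x' => by
        ext1 y
        simp only [LinearMap.coe_mk, AddHom.coe_mk, LinearMap.add_apply]
        rw [ContinuousLinearMap.toLinearMap_add, TensorProduct.map_add_left]
      map_smul' := fun c x => by
        ext1 y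
        simp only [LinearMap.coe_mk, AddHom.coe_mk, LinearMap.smul_apply, RingHom.id_apply]
        rw [ContinuousLinearMap.toLinearMap_smul, TensorProduct.map_smul_left] }

theorem R_tmul (x y : H →L[ℂ] H) :
    R (x ⊗ₜ[ℂ] y) = TensorProduct.map (x : H →ₗ[ℂ] H) (y : H →ₗ[ℂ] H) := by
  simp [R]

/-- TARGET 1 -/
theorem R_one : R (1 : (H →L[ℂ] H) ⊗[ℂ] (H →L[ℂ] H)) = LinearMap.id := by
  rw [Algebra.TensorProduct.one_def, R_tmul]
  apply TensorProduct.ext'
  intro a b
  simp

/-- TARGET 2 -/
theorem R_mul (s t : (H →L[ℂ] H) ⊗[ℂ] (H →L[ℂ] H)) (ζ : H ⊗[ℂ] H) :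
    R (s * t) ζ = R s (R t ζ) := by
  induction s using TensorProduct.induction_on with
  | zero => simp
  | add s s' hs hs' => rw [add_mul, map_add, map_add, LinearMap.add_apply, LinearMap.add_apply, hs, hs']
  | tmul x y =>
    induction t using TensorProduct.induction_on with
    | zero => simp
    | add t t' ht ht' => rw [mul_add, map_add, map_add, LinearMap.add_apply, LinearMap.add_apply, ht, ht', map_add]
    | tmul x' y' =>
      rw [Algebra.TensorProduct.tmul_mul_tmul, R_tmul, R_tmul, R_tmul]
      induction ζ using TensorProduct.induction_on with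
      | zero => simp
      | add ζ ζ' h h' => rw [map_add, map_add, map_add, h, h']
      | tmul a b => simp

/-- TARGET 3 -/
theorem R_star (t : (H →L[ℂ] H) ⊗[ℂ] (H →L[ℂ] H)) (ζ ζ' : H ⊗[ℂ] H) :
    inner ℂ (R t ζ) ζ' = inner ℂ ζ (R (star t) ζ') := by
  induction t using TensorProduct.induction_on with
  | zero => simp
  | add t t' ht ht' =>
    rw [star_add, map_add, map_add, LinearMap.add_apply, LinearMap.add_apply, inner_add_left,
      inner_add_right, ht, ht']
  | tmul x y =>
    rw [TensorProduct.star_tmul, R_tmul, R_tmul]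
    induction ζ using TensorProduct.induction_on with
    | zero => simp
    | add ζ₁ ζ₂ h₁ h₂ => rw [map_add, inner_add_left, inner_add_left, h₁, h₂]
    | tmul a b =>
      induction ζ' using TensorProduct.induction_on with
      | zero => simp
      | add ζ₁ ζ₂ h₁ h₂ => rw [map_add, inner_add_right, inner_add_right, h₁, h₂]
      | tmul c d =>
        simp only [TensorProduct.map_tmul, ContinuousLinearMap.coe_coe, TensorProduct.inner_tmul,
          ContinuousLinearMap.star_eq_adjoint, ContinuousLinearMap.adjoint_inner_right]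

/-- TARGET 4 -/
theorem R_injective (t : (H →L[ℂ] H) ⊗[ℂ] (H →L[ℂ] H)) (h : ∀ ζ, R t ζ = 0) : t = 0 := by
  classical
  obtain ⟨b, hb⟩ := TensorProduct.eq_repr_basis_right
    (Module.Basis.ofVectorSpace ℂ (H →L[ℂ] H)) t
  set c := Module.Basis.ofVectorSpace ℂ (H →L[ℂ] H) with hc
  have key : ∀ i ∈ b.support, ∀ ξ : H, b i ξ = 0 := by
    intro i hi ξ
    have h1 : ∀ ξ' : H, ∀ η : H, ∑ j ∈ b.support, inner ℂ η (b j ξ) • (c j) ξ' = 0 := by
      intro ξ' η
      have h2 := h (ξ ⊗ₜ[ℂ] ξ')
      rw [← hb, Finsupp.sum, map_sum, LinearMap.sum_apply] at h2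
      have h3 := congrArg (fun z => TensorProduct.lid ℂ H
        (TensorProduct.map (innerSL ℂ η : H →L[ℂ] ℂ).toLinearMap LinearMap.id z)) h2
      simpa [R_tmul] using h3
    have h4 : ∀ η : H, ∑ j ∈ b.support, inner ℂ η (b j ξ) • (c j) = 0 := by
      intro η
      ext ξ'
      have := h1 ξ' η
      simpa using this
    have h5 := linearIndependent_iff'.1 c.linearIndependent b.support _ (h4 (b i ξ)) i hi
    simpa using h5
  have hb0 : b = 0 := by
    ext1 i
    by_cases hi : i ∈ b.support
    · ext1 ξ
      simpa using key i hi ξ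
    · simpa using hi
  rw [← hb, hb0]
  simp

end Pool.Agent.Helper965.CN
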