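import Pool.Agent.Helper965.O2.Base
import Pool.Agent.Helper965.O2.PS
import Pool.Agent.Helper965.CN.MinB
import Pool.Agent.Helper965.CN.Rep
set_option autoImplicit false
set_option linter.unusedSectionVars false
open scoped TensorProduct ComplexOrder BigOperators Matrix InnerProductSpace

namespace Pool.Agent.Helper965.CN
open Pool.Agent.Helper965.O2 (hs w w_mem)

variable {H : Type} [NormedAddCommGroup H] [InnerProductSpace ℂ H] [CompleteSpace H]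


theorem hasSum_prod_aux {ι : Type} (f g : ι → ℂ) (a c : ℂ) (hf : HasSum f a) (hg : HasSum g c) :
    HasSum (fun p : ι × ι => f p.1 * g p.2) (a * c) :=
  hf.mul hg (summable_mul_of_summable_norm hf.summable.norm hg.summable.norm)

theorem parseval_elem {ι : Type} (b : HilbertBasis ι ℂ H) (x x' y y' : H) :
    HasSum (fun p : ι × ι => (inner ℂ (x ⊗ₜ[ℂ] y) (b p.1 ⊗ₜ[ℂ] b p.2) : ℂ) *
      (inner ℂ (b p.1 ⊗ₜ[ℂ] b p.2) (x' ⊗ₜ[ℂ] y') : ℂ)) (inner ℂ (x ⊗ₜ[ℂ] y) (x' ⊗ₜ[ℂ] y')) := by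
  have h3 := hasSum_prod_aux _ _ _ _ (b.hasSum_inner_mul_inner x x') (b.hasSum_inner_mul_inner y y')
  have e3 : (inner ℂ (x ⊗ₜ[ℂ] y) (x' ⊗ₜ[ℂ] y') : ℂ) = inner ℂ x x' * inner ℂ y y' :=
    TensorProduct.inner_tmul ℂ _ _ _ _
  rw [e3]
  have e4 : (fun p : ι × ι => (inner ℂ (x ⊗ₜ[ℂ] y) (b p.1 ⊗ₜ[ℂ] b p.2) : ℂ) *
      (inner ℂ (b p.1 ⊗ₜ[ℂ] b p.2) (x' ⊗ₜ[ℂ] y') : ℂ)) =
      fun p : ι × ι => ((inner ℂ x (b p.1) : ℂ) * inner ℂ (b p.1) x') *
          ((inner ℂ y (b p.2) : ℂ) * inner ℂ (b p.2) y') := by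
    funext p
    have e5 : (inner ℂ (x ⊗ₜ[ℂ] y) (b p.1 ⊗ₜ[ℂ] b p.2) : ℂ) =
      inner ℂ x (b p.1) * inner ℂ y (b p.2) := TensorProduct.inner_tmul ℂ _ _ _ _
    have e6 : (inner ℂ (b p.1 ⊗ₜ[ℂ] b p.2) (x' ⊗ₜ[ℂ] y') : ℂ) =
      inner ℂ (b p.1) x' * inner ℂ (b p.2) y' := TensorProduct.inner_tmul ℂ _ _ _ _
    rw [e5, e6]
    ring
  rw [e4]
  exact h3

/-- sesquilinear Parseval -/
theorem parseval_sesq {ι : Type} (b : HilbertBasis ι ℂ H) (ζ ζ' : H ⊗[ℂ] H) :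
    HasSum (fun p : ι × ι => (inner ℂ ζ (b p.1 ⊗ₜ[ℂ] b p.2) : ℂ) *
      (inner ℂ (b p.1 ⊗ₜ[ℂ] b p.2) ζ' : ℂ)) (inner ℂ ζ ζ') := by
  induction ζ using TensorProduct.induction_on with
  | zero => simpa [inner_zero_left] using (hasSum_zero (α := ℂ) (β := ι × ι))
  | add x y hx hy =>
    have := hx.add hy
    simp only [inner_add_left, add_mul]
    exact this
  | tmul x y =>
    induction ζ' using TensorProduct.induction_on with
    | zero => simpa [inner_zero_right] using (hasSum_zero (α := ℂ) (β := ι × ι))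
    | add x' y' hx hy =>
      have := hx.add hy
      simp only [inner_add_right, mul_add]
      exact this
    | tmul x' y' =>
      exact parseval_elem b x x' y y'

/-- TARGET 1. Parseval on the algebraic tensor product. -/
theorem parseval_tensor {ι : Type} (b : HilbertBasis ι ℂ H) (ζ : H ⊗[ℂ] H) :
    HasSum (fun p : ι × ι => ‖(inner ℂ (b p.1 ⊗ₜ[ℂ] b p.2) ζ : ℂ)‖ ^ 2) (‖ζ‖ ^ 2) := by
  have h := parseval_sesq b ζ ζ
  rw [← Complex.hasSum_ofReal]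
  have e1 : ((‖ζ‖ ^ 2 : ℝ) : ℂ) = inner ℂ ζ ζ := by
    have := inner_self_eq_norm_sq_to_K (𝕜 := ℂ) ζ
    rw [this]
    simp
  rw [e1]
  convert h using 1
  funext p
  rw [← inner_conj_symm ζ (b p.1 ⊗ₜ[ℂ] b p.2), ← Complex.normSq_eq_conj_mul_self,
    Complex.normSq_eq_norm_sq]

/-- the block matrix of coefficients -/
noncomputable def Mb {k : ℕ → ℕ} (b : HilbertBasis (Σ j, Bl (k j)) ℂ H) (m l : ℕ)
    (ζ : H ⊗[ℂ] H) : Matrix (Bl (k m)) (Bl (k l)) ℂ :=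
  fun s t => inner ℂ (b ⟨m, s⟩ ⊗ₜ[ℂ] b ⟨l, t⟩) ζ

theorem blk_inner {k : ℕ → ℕ} (b : HilbertBasis (Σ j, Bl (k j)) ℂ H)
    (A : ∀ j, Matrix (Bl (k j)) (Bl (k j)) ℂ) (X : H →L[ℂ] H)
    (hX : ∀ j t, X (b ⟨j, t⟩) = ∑ s, A j s t • b ⟨j, s⟩) (ξ : H) (m : ℕ) (s : Bl (k m)) :
    (inner ℂ (b ⟨m, s⟩) (X ξ) : ℂ) = ∑ t, A m s t * inner ℂ (b ⟨m, t⟩) ξ := by
  classical
  have key : (innerSL ℂ (b ⟨m, s⟩)).comp X = ∑ t, A m s t • innerSL ℂ (b ⟨m, t⟩) := by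
    have hd : Dense ((Submodule.span ℂ (Set.range b) : Submodule ℂ H) : Set H) := by
      rw [Submodule.dense_iff_topologicalClosure_eq_top]
      exact b.dense_span
    refine ContinuousLinearMap.ext_on hd ?_
    rintro _ ⟨⟨j, t⟩, rfl⟩
    rw [ContinuousLinearMap.comp_apply, hX]
    simp only [map_sum, map_smul, innerSL_apply_apply, ContinuousLinearMap.sum_apply,
      ContinuousLinearMap.smul_apply, smul_eq_mul]
    by_cases hmj : m = j
    · subst hmj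
      have ho := b.orthonormal
      have e : ∀ x y : Bl (k m), (inner ℂ (b ⟨m, x⟩) (b ⟨m, y⟩) : ℂ) = if x = y then 1 else 0 := by
        intro x y
        rw [orthonormal_iff_ite.1 ho]
        by_cases hxy : x = y
        · subst hxy; simp
        · have : (⟨m, x⟩ : Σ j, Bl (k j)) ≠ ⟨m, y⟩ := by
            intro h; apply hxy; simpa using h
          simp [hxy]
      simp [e]
    · have e : ∀ (x : Bl (k m)) (y : Bl (k j)), (inner ℂ (b ⟨m, x⟩) (b ⟨j, y⟩) : ℂ) = 0 := by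
        intro x y
        apply b.orthonormal.2
        intro h
        apply hmj
        exact congrArg Sigma.fst h
      simp [e]
  have := congrArg (fun f => f ξ) key
  simpa using this

theorem Mb_map {k : ℕ → ℕ} (b : HilbertBasis (Σ j, Bl (k j)) ℂ H)
    (A B : ∀ j, Matrix (Bl (k j)) (Bl (k j)) ℂ) (X Y : H →L[ℂ] H)
    (hX : ∀ j t, X (b ⟨j, t⟩) = ∑ s, A j s t • b ⟨j, s⟩)
    (hY : ∀ j t, Y (b ⟨j, t⟩) = ∑ s, B j s t • b ⟨j, s⟩) (m l : ℕ) (ζ : H ⊗[ℂ] H) :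
    Mb b m l (TensorProduct.map (X : H →ₗ[ℂ] H) (Y : H →ₗ[ℂ] H) ζ) =
      A m * Mb b m l ζ * (B l)ᵀ := by
  ext s t
  induction ζ using TensorProduct.induction_on with
  | zero => simp [Mb, Matrix.mul_apply]
  | add x y hx hy =>
    have e : Mb b m l (x + y) = Mb b m l x + Mb b m l y := by
      ext s t
      simp [Mb, inner_add_right]
    rw [e, Matrix.mul_add, Matrix.add_mul, Matrix.add_apply, ← hx, ← hy]
    simp [Mb, inner_add_right]
  | tmul x y =>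
    simp only [Mb, TensorProduct.map_tmul, TensorProduct.inner_tmul, Matrix.mul_apply,
      Matrix.transpose_apply, ContinuousLinearMap.coe_coe]
    rw [blk_inner b A X hX, blk_inner b B Y hY, Finset.sum_mul_sum, Finset.sum_comm]
    refine Finset.sum_congr rfl fun t' _ => ?_
    rw [Finset.sum_mul]
    refine Finset.sum_congr rfl fun s' _ => ?_
    ring

/-- Regrouping the index set. -/
def regr (F : ℕ → Type) : (Σ q : ℕ × ℕ, F q.1 × F q.2) ≃ (Σ j, F j) × (Σ j, F j) where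
  toFun x := (⟨x.1.1, x.2.1⟩, ⟨x.1.2, x.2.2⟩)
  invFun y := ⟨(y.1.1, y.2.1), (y.1.2, y.2.2)⟩
  left_inv x := rfl
  right_inv y := rfl

theorem parseval_blocks {k : ℕ → ℕ} (b : HilbertBasis (Σ j, Bl (k j)) ℂ H) (ζ : H ⊗[ℂ] H) :
    HasSum (fun q : ℕ × ℕ => hs (Mb b q.1 q.2 ζ)) (‖ζ‖ ^ 2) := by
  have h := parseval_tensor b ζ
  rw [← (regr fun j => Bl (k j)).hasSum_iff] at h
  have h2 := h.sigma (g := fun q : ℕ × ℕ => hs (Mb b q.1 q.2 ζ)) (by
    intro q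
    have := hasSum_fintype (fun x : Bl (k q.1) × Bl (k q.2) =>
      ((fun p : (Σ j, Bl (k j)) × (Σ j, Bl (k j)) =>
        ‖(inner ℂ (b p.1 ⊗ₜ[ℂ] b p.2) ζ : ℂ)‖ ^ 2) ∘ (regr fun j => Bl (k j))) ⟨q, x⟩)
    convert this using 1
    rw [Fintype.sum_prod_type]
    rfl)
  exact h2

/-- TARGET 2. The bound for the spatial norm of the test element. -/
theorem min_bound {k : ℕ → ℕ} (b : HilbertBasis (Σ j, Bl (k j)) ℂ H) (hk : Grow k)
    (S T : Set ℕ) (hST : Disjoint S T) (P Q : H →L[ℂ] H) (X Y : Fin 3 → (H →L[ℂ] H))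
    (hP : ∀ j t, (j ∈ S → P (b ⟨j, t⟩) = b ⟨j, t⟩) ∧ (j ∉ S → P (b ⟨j, t⟩) = 0))
    (hQ : ∀ j t, (j ∈ T → Q (b ⟨j, t⟩) = b ⟨j, t⟩) ∧ (j ∉ T → Q (b ⟨j, t⟩) = 0))
    (hX : ∀ i j t, (j ∈ S → X i (b ⟨j, t⟩) = ∑ s, w (2 * k j + 1) i s t • b ⟨j, s⟩) ∧
      (j ∉ S → X i (b ⟨j, t⟩) = 0))
    (hY : ∀ i j t, (j ∈ T → Y i (b ⟨j, t⟩) =
        ∑ s, ((w (2 * k j + 1) i).map star) s t • b ⟨j, s⟩) ∧ (j ∉ T → Y i (b ⟨j, t⟩) = 0))
    (ζ : H ⊗[ℂ] H) :
    ‖R (P ⊗ₜ[ℂ] Q + ∑ i, X i ⊗ₜ[ℂ] Y i) ζ‖ ≤ (4 - 1 / 10 ^ 12) * ‖ζ‖ := by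
  classical
  have hP' : ∀ j t, P (b ⟨j, t⟩) =
      ∑ s, (if j ∈ S then (1 : Matrix (Bl (k j)) (Bl (k j)) ℂ) else 0) s t • b ⟨j, s⟩ := by
    intro j t
    by_cases hj : j ∈ S
    · rw [(hP j t).1 hj]
      simp [hj, Matrix.one_apply]
    · rw [(hP j t).2 hj]
      simp [hj]
  have hQ' : ∀ j t, Q (b ⟨j, t⟩) =
      ∑ s, (if j ∈ T then (1 : Matrix (Bl (k j)) (Bl (k j)) ℂ) else 0) s t • b ⟨j, s⟩ := by
    intro j t
    by_cases hj : j ∈ T
    · rw [(hQ j t).1 hj]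
      simp [hj, Matrix.one_apply]
    · rw [(hQ j t).2 hj]
      simp [hj]
  have hX' : ∀ i j t, X i (b ⟨j, t⟩) =
      ∑ s, (if j ∈ S then w (2 * k j + 1) i else 0) s t • b ⟨j, s⟩ := by
    intro i j t
    by_cases hj : j ∈ S
    · rw [(hX i j t).1 hj]
      simp [hj]
    · rw [(hX i j t).2 hj]
      simp [hj]
  have hY' : ∀ i j t, Y i (b ⟨j, t⟩) =
      ∑ s, (if j ∈ T then (w (2 * k j + 1) i).map star else 0) s t • b ⟨j, s⟩ := by
    intro i j t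
    by_cases hj : j ∈ T
    · rw [(hY i j t).1 hj]
      simp [hj]
    · rw [(hY i j t).2 hj]
      simp [hj]
  have hMadd : ∀ m l (x y : H ⊗[ℂ] H), Mb b m l (x + y) = Mb b m l x + Mb b m l y := by
    intro m l x y
    ext s t
    simp [Mb, inner_add_right]
  have hMsum : ∀ m l (x : Fin 3 → H ⊗[ℂ] H), Mb b m l (∑ i, x i) = ∑ i, Mb b m l (x i) := by
    intro m l x
    simp only [Fin.sum_univ_three, hMadd]
  set V := R (P ⊗ₜ[ℂ] Q + ∑ i, X i ⊗ₜ[ℂ] Y i) ζ with hV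
  have hVexp : V = TensorProduct.map (P : H →ₗ[ℂ] H) (Q : H →ₗ[ℂ] H) ζ +
      ∑ i, TensorProduct.map (X i : H →ₗ[ℂ] H) (Y i : H →ₗ[ℂ] H) ζ := by
    rw [hV, map_add, map_sum, LinearMap.add_apply, LinearMap.sum_apply, R_tmul]
    simp only [R_tmul]
  have hblock : ∀ m l, hs (Mb b m l V) ≤ (4 - 1 / 10 ^ 12) ^ 2 * hs (Mb b m l ζ) := by
    intro m l
    rw [hVexp, hMadd, hMsum, Mb_map b _ _ P Q hP' hQ']
    simp only [fun i => Mb_map b _ _ (X i) (Y i) (hX' i) (hY' i)]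
    by_cases hm : m ∈ S
    · by_cases hl : l ∈ T
      · have hml : m ≠ l := by
          rintro rfl
          exact Set.disjoint_left.1 hST hm hl
        have hgrow : ∀ a c : ℕ, a < c → 2 * k a + 1 ≤ k c := by
          intro a c hac
          have h1 := hk c
          have h2 : 2 * k a + 1 ≤ ∑ j ∈ Finset.range c, (2 * k j + 1) :=
            Finset.single_le_sum (f := fun j => 2 * k j + 1) (fun _ _ => Nat.zero_le _)
              (Finset.mem_range.2 hac)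
          have h3 : 4 * (2 * k a + 1) ≤ 2 * (c + 1) * ∑ j ∈ Finset.range c, (2 * k j + 1) :=
            Nat.mul_le_mul (by omega) h2
          omega
        have := min_block (k m) (k l) (by
          rcases lt_or_gt_of_ne hml with h | h
          · exact Or.inl (hgrow _ _ h)
          · exact Or.inr (hgrow _ _ h)) (Mb b m l ζ)
        have e : ∀ i, (((w (2 * k l + 1) i).map star)ᵀ) = (w (2 * k l + 1) i)ᴴ := fun i => rfl
        simp only [hm, hl, if_true, e, Matrix.one_mul, Matrix.transpose_one, Matrix.mul_one]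
        exact this
      · have h0 : (0 : ℝ) ≤ hs (Mb b m l ζ) := by
          unfold hs; positivity
        simp only [hl, if_false, Matrix.transpose_zero, Matrix.mul_zero, Finset.sum_const_zero,
          add_zero]
        have : hs (0 : Matrix (Bl (k m)) (Bl (k l)) ℂ) = 0 := by simp [hs]
        rw [this]
        positivity
    · have h0 : (0 : ℝ) ≤ hs (Mb b m l ζ) := by
        unfold hs; positivity
      simp only [hm, if_false, Matrix.zero_mul, Finset.sum_const_zero, add_zero]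
      have : hs (0 : Matrix (Bl (k m)) (Bl (k l)) ℂ) = 0 := by simp [hs]
      rw [this]
      positivity
  have hle : ‖V‖ ^ 2 ≤ (4 - 1 / 10 ^ 12) ^ 2 * ‖ζ‖ ^ 2 :=
    hasSum_le (fun q : ℕ × ℕ => hblock q.1 q.2) (parseval_blocks b V)
      ((parseval_blocks b ζ).mul_left _)
  rw [← mul_pow] at hle
  have hc : (0 : ℝ) ≤ (4 - 1 / 10 ^ 12) * ‖ζ‖ := by
    apply mul_nonneg _ (norm_nonneg _)
    norm_num
  exact (sq_le_sq₀ (norm_nonneg _) hc).1 hle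

end Pool.Agent.Helper965.CN
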