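import Pool.Agent.Helper965.O2.Base
import Pool.Agent.Helper965.O2.PS
import Pool.Agent.Helper965.CN.Base
set_option autoImplicit false
set_option linter.unusedSectionVars false
open scoped TensorProduct ComplexOrder BigOperators Matrix InnerProductSpace
open Filter Topology

namespace Pool.Agent.Helper965.CN
open Pool.Agent.Helper965.O2 (hs w w_mem)

variable {H : Type} [NormedAddCommGroup H] [InnerProductSpace ℂ H] [CompleteSpace H]

variable {k : ℕ → ℕ} (b : HilbertBasis (Σ j, Bl (k j)) ℂ H)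

/-- column vectors -/
noncomputable def cv (j : ℕ) (t : Bl (k j)) (g : G3) : H :=
  ((Real.sqrt (2 * k j + 1 : ℝ))⁻¹ : ℂ) •
    ∑ s, (sg (k j) g : Matrix (Bl (k j)) (Bl (k j)) ℂ) s t • b ⟨j, s⟩

/-- row vectors -/
noncomputable def rv (j : ℕ) (t : Bl (k j)) (g : G3) : H :=
  ((Real.sqrt (2 * k j + 1 : ℝ))⁻¹ : ℂ) •
    ∑ s, (sg (k j) g : Matrix (Bl (k j)) (Bl (k j)) ℂ) t s • b ⟨j, s⟩

/-- normalised trace -/
noncomputable def ntr (k : ℕ) (g : G3) : ℂ :=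
  (sg k g : Matrix (Bl k) (Bl k) ℂ).trace / (2 * k + 1)

theorem sg_mul_val (k : ℕ) (g h : G3) : (sg k (g * h) : Matrix (Bl k) (Bl k) ℂ) =
    (sg k g : Matrix (Bl k) (Bl k) ℂ) * (sg k h : Matrix (Bl k) (Bl k) ℂ) := by
  rw [map_mul]; rfl

theorem sg_inv_val (k : ℕ) (g : G3) : (sg k g⁻¹ : Matrix (Bl k) (Bl k) ℂ) =
    (sg k g : Matrix (Bl k) (Bl k) ℂ)ᴴ := by
  rw [map_inv]; rfl

theorem sg_conj_mul (k : ℕ) (g : G3) :
    (sg k g : Matrix (Bl k) (Bl k) ℂ)ᴴ * (sg k g : Matrix (Bl k) (Bl k) ℂ) = 1 :=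
  Matrix.mem_unitaryGroup_iff'.1 (sg k g).2

theorem sg_mul_conj (k : ℕ) (g : G3) :
    (sg k g : Matrix (Bl k) (Bl k) ℂ) * (sg k g : Matrix (Bl k) (Bl k) ℂ)ᴴ = 1 :=
  Matrix.mem_unitaryGroup_iff.1 (sg k g).2

theorem sg_of_val (k : ℕ) (i : Fin 3) :
    (sg k (FreeGroup.of i) : Matrix (Bl k) (Bl k) ℂ) = w (2 * k + 1) i := by
  rw [sg, FreeGroup.lift_apply_of]

theorem mixing {n : Type} [Fintype n] [DecidableEq n] {E : Type} [NormedAddCommGroup E]
    [InnerProductSpace ℂ E] (U : Matrix n n ℂ)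
    (hU : ∀ r r2, ∑ t, star (U r t) * U r2 t = if r = r2 then 1 else 0)
    (a c : n → E) (x : E →L[ℂ] E) :
    ∑ t, inner ℂ (∑ r, U r t • a r) (x (∑ r, U r t • c r)) = ∑ r, inner ℂ (a r) (x (c r)) := by
  have h1 : ∀ t, inner ℂ (∑ r, U r t • a r) (x (∑ r, U r t • c r)) =
      ∑ r, ∑ r2, (star (U r t) * U r2 t) * inner ℂ (a r) (x (c r2)) := by
    intro t
    rw [map_sum, sum_inner]
    apply Finset.sum_congr rfl
    intro r _
    rw [inner_sum]
    apply Finset.sum_congr rfl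
    intro r2 _
    rw [map_smul, inner_smul_left, inner_smul_right]
    simp only [starRingEnd_apply]
    ring
  rw [Finset.sum_congr rfl (fun t _ => h1 t), Finset.sum_comm]
  apply Finset.sum_congr rfl
  intro r _
  rw [Finset.sum_comm]
  have h2 : ∀ r2, ∑ t, (star (U r t) * U r2 t) * inner ℂ (a r) (x (c r2)) =
      (if r = r2 then 1 else 0) * inner ℂ (a r) (x (c r2)) := by
    intro r2
    rw [← Finset.sum_mul, hU]
  rw [Finset.sum_congr rfl (fun r2 _ => h2 r2)]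
  simp

theorem mixU (k : ℕ) (l : G3) (r r2 : Bl k) :
    ∑ t, star ((sg k l : Matrix (Bl k) (Bl k) ℂ) r t) * (sg k l : Matrix (Bl k) (Bl k) ℂ) r2 t
      = if r = r2 then 1 else 0 := by
  have h := congrFun (congrFun (sg_mul_conj k l) r2) r
  rw [Matrix.mul_apply, Matrix.one_apply] at h
  simp only [Matrix.conjTranspose_apply] at h
  rw [← if_congr (@eq_comm _ r2 r) rfl rfl, ← h]
  exact Finset.sum_congr rfl (fun t _ => mul_comm _ _)

theorem mixUT (k : ℕ) (l : G3) (r r2 : Bl k) :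
    ∑ t, star ((sg k l : Matrix (Bl k) (Bl k) ℂ)ᵀ r t) *
      (sg k l : Matrix (Bl k) (Bl k) ℂ)ᵀ r2 t = if r = r2 then 1 else 0 := by
  have h := congrFun (congrFun (sg_conj_mul k l) r) r2
  rw [Matrix.mul_apply, Matrix.one_apply] at h
  simp only [Matrix.conjTranspose_apply] at h
  simp only [Matrix.transpose_apply]
  exact h

theorem inner_bv (j : ℕ) (a c : Bl (k j) → ℂ) :
    inner ℂ (∑ s, a s • b ⟨j, s⟩) (∑ s, c s • b ⟨j, s⟩) = ∑ s, star (a s) * c s := by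
  have h := b.orthonormal.comp (fun s : Bl (k j) => (⟨j, s⟩ : Σ j, Bl (k j)))
    (fun s s' hs => by cases hs; rfl)
  exact h.inner_sum a c Finset.univ

theorem cc (m : ℕ) : (starRingEnd ℂ) ((Real.sqrt (2 * m + 1 : ℝ))⁻¹ : ℂ) *
    ((Real.sqrt (2 * m + 1 : ℝ))⁻¹ : ℂ) = ((2 * m + 1 : ℂ))⁻¹ := by
  rw [map_inv₀, Complex.conj_ofReal, ← mul_inv, ← Complex.ofReal_mul,
    Real.mul_self_sqrt (by positivity)]
  push_cast
  rfl

/-- TARGET 0 -/
theorem norm_ntr_le (k : ℕ) (g : G3) : ‖ntr k g‖ ≤ 1 := by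
  unfold ntr
  have h1 : ‖(sg k g : Matrix (Bl k) (Bl k) ℂ).trace‖ ≤ 2 * k + 1 := by
    rw [Matrix.trace]
    refine (norm_sum_le _ _).trans ?_
    refine (Finset.sum_le_sum (fun i _ => entry_norm_bound_of_unitary (sg k g).2 i i)).trans ?_
    simp
  have h2 : ‖(2 * k + 1 : ℂ)‖ = 2 * k + 1 := by
    have : (2 * k + 1 : ℂ) = ((2 * k + 1 : ℝ) : ℂ) := by push_cast; rfl
    rw [this, Complex.norm_real, Real.norm_of_nonneg (by positivity)]
  rw [norm_div, h2, div_le_one (by positivity)]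
  exact h1

/-- TARGET 00 -/
theorem ntr_comm (k : ℕ) (g h : G3) : ntr k (g * h) = ntr k (h * g) := by
  unfold ntr
  rw [sg_mul_val, sg_mul_val, Matrix.trace_mul_comm]

/-- TARGET 000 -/
theorem ntr_one (k : ℕ) : ntr k 1 = 1 := by
  unfold ntr
  have h : (sg k 1 : Matrix (Bl k) (Bl k) ℂ) = 1 := by rw [map_one]; rfl
  rw [h, Matrix.trace_one]
  have h2 : (2 * k + 1 : ℂ) ≠ 0 := by
    have : (2 * k + 1 : ℂ) = ((2 * k + 1 : ℕ) : ℂ) := by push_cast; rfl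
    rw [this]
    exact Nat.cast_ne_zero.2 (Nat.succ_ne_zero _)
  rw [ZMod.card]
  push_cast
  exact div_self h2

/-- TARGET 1 -/
theorem sum_cv (j : ℕ) (g h : G3) :
    ∑ t, inner ℂ (cv b j t g) (cv b j t h) = ntr (k j) (g⁻¹ * h) := by
  have h1 : ∀ t, inner ℂ (cv b j t g) (cv b j t h) = (2 * (k j : ℂ) + 1)⁻¹ *
      ((sg (k j) g : Matrix (Bl (k j)) (Bl (k j)) ℂ)ᴴ *
        (sg (k j) h : Matrix (Bl (k j)) (Bl (k j)) ℂ)) t t := by
    intro t
    unfold cv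
    rw [inner_smul_left, inner_smul_right, inner_bv, ← mul_assoc, cc, Matrix.mul_apply]
    simp only [Matrix.conjTranspose_apply]
  rw [Finset.sum_congr rfl (fun t _ => h1 t), ← Finset.mul_sum]
  unfold ntr
  rw [sg_mul_val, sg_inv_val, Matrix.trace, div_eq_mul_inv, mul_comm]
  rfl

/-- TARGET 2 -/
theorem sum_rv (j : ℕ) (g h : G3) :
    ∑ t, inner ℂ (rv b j t g) (rv b j t h) = ntr (k j) (g⁻¹ * h) := by
  have h1 : ∀ t, inner ℂ (rv b j t g) (rv b j t h) = (2 * (k j : ℂ) + 1)⁻¹ *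
      ((sg (k j) h : Matrix (Bl (k j)) (Bl (k j)) ℂ) *
        (sg (k j) g : Matrix (Bl (k j)) (Bl (k j)) ℂ)ᴴ) t t := by
    intro t
    unfold rv
    rw [inner_smul_left, inner_smul_right, inner_bv, ← mul_assoc, cc, Matrix.mul_apply]
    simp only [Matrix.conjTranspose_apply]
    congr 1
    exact Finset.sum_congr rfl (fun s _ => mul_comm _ _)
  rw [Finset.sum_congr rfl (fun t _ => h1 t), ← Finset.mul_sum]
  rw [ntr_comm]
  unfold ntr
  rw [sg_mul_val, sg_inv_val, Matrix.trace, div_eq_mul_inv, mul_comm]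
  rfl

theorem cv_mul (j : ℕ) (t : Bl (k j)) (g l : G3) : cv b j t (g * l) =
    ∑ r, (sg (k j) l : Matrix (Bl (k j)) (Bl (k j)) ℂ) r t • cv b j r g := by
  unfold cv
  rw [sg_mul_val]
  simp only [Matrix.mul_apply, Finset.sum_smul, Finset.smul_sum]
  rw [Finset.sum_comm]
  apply Finset.sum_congr rfl
  intro r _
  apply Finset.sum_congr rfl
  intro s _
  rw [smul_smul, smul_smul, smul_smul]
  congr 1
  ring

theorem rv_mul (j : ℕ) (t : Bl (k j)) (g l : G3) : rv b j t (l * g) =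
    ∑ r, (sg (k j) l : Matrix (Bl (k j)) (Bl (k j)) ℂ) t r • rv b j r g := by
  unfold rv
  rw [sg_mul_val]
  simp only [Matrix.mul_apply, Finset.sum_smul, Finset.smul_sum]
  rw [Finset.sum_comm]
  apply Finset.sum_congr rfl
  intro r _
  apply Finset.sum_congr rfl
  intro s _
  rw [smul_smul, smul_smul, smul_smul]
  congr 1
  ring

/-- TARGET 3 -/
theorem cv_inv (j : ℕ) (g h l : G3) (x : H →L[ℂ] H) :
    ∑ t, inner ℂ (cv b j t (g * l)) (x (cv b j t (h * l))) =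
      ∑ t, inner ℂ (cv b j t g) (x (cv b j t h)) := by
  have h1 : ∀ t, inner ℂ (cv b j t (g * l)) (x (cv b j t (h * l))) =
      inner ℂ (∑ r, (sg (k j) l : Matrix (Bl (k j)) (Bl (k j)) ℂ) r t • cv b j r g)
        (x (∑ r, (sg (k j) l : Matrix (Bl (k j)) (Bl (k j)) ℂ) r t • cv b j r h)) := by
    intro t
    rw [cv_mul b j t g l, cv_mul b j t h l]
  rw [Finset.sum_congr rfl (fun t _ => h1 t)]
  exact mixing _ (mixU (k j) l) _ _ x

/-- TARGET 4 -/
theorem rv_inv (j : ℕ) (g h l : G3) (x : H →L[ℂ] H) :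
    ∑ t, inner ℂ (rv b j t (l * g)) (x (rv b j t (l * h))) =
      ∑ t, inner ℂ (rv b j t g) (x (rv b j t h)) := by
  have h1 : ∀ t, inner ℂ (rv b j t (l * g)) (x (rv b j t (l * h))) =
      inner ℂ (∑ r, (sg (k j) l : Matrix (Bl (k j)) (Bl (k j)) ℂ)ᵀ r t • rv b j r g)
        (x (∑ r, (sg (k j) l : Matrix (Bl (k j)) (Bl (k j)) ℂ)ᵀ r t • rv b j r h)) := by
    intro t
    rw [rv_mul b j t g l, rv_mul b j t h l]
    rfl
  rw [Finset.sum_congr rfl (fun t _ => h1 t)]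
  exact mixing _ (mixUT (k j) l) _ _ x

/-- TARGET 5 -/
theorem cv_bessel (j : ℕ) (g : G3) (u : H) :
    ∑ t, ‖(inner ℂ u (cv b j t g) : ℂ)‖ ^ 2 ≤ ‖u‖ ^ 2 / (2 * k j + 1) := by
  have h1 : ∀ t, ‖(inner ℂ u (cv b j t g) : ℂ)‖ ^ 2 = (2 * (k j : ℝ) + 1)⁻¹ *
      ‖∑ r, (sg (k j) g : Matrix (Bl (k j)) (Bl (k j)) ℂ) r t • (inner ℂ u (b ⟨j, r⟩) : ℂ)‖ ^ 2 := by
    intro t
    unfold cv
    rw [inner_smul_right, inner_sum, norm_mul, mul_pow]
    congr 1
    · rw [norm_inv, Complex.norm_real, Real.norm_of_nonneg (Real.sqrt_nonneg _), inv_pow,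
        Real.sq_sqrt (by positivity)]
    · congr 2
      apply Finset.sum_congr rfl
      intro r _
      rw [inner_smul_right, smul_eq_mul]
  have h2 := mixing (E := ℂ) _ (mixU (k j) g) (fun r => (inner ℂ u (b ⟨j, r⟩) : ℂ))
    (fun r => (inner ℂ u (b ⟨j, r⟩) : ℂ)) (ContinuousLinearMap.id ℂ ℂ)
  simp only [ContinuousLinearMap.id_apply] at h2
  have h3 : ∑ t, ‖∑ r, (sg (k j) g : Matrix (Bl (k j)) (Bl (k j)) ℂ) r t •
      (inner ℂ u (b ⟨j, r⟩) : ℂ)‖ ^ 2 = ∑ r, ‖(inner ℂ u (b ⟨j, r⟩) : ℂ)‖ ^ 2 := by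
    have h4 := h2
    simp only [inner_self_eq_norm_sq_to_K] at h4
    exact_mod_cast h4
  rw [Finset.sum_congr rfl (fun t _ => h1 t), ← Finset.mul_sum, h3, div_eq_inv_mul]
  apply mul_le_mul_of_nonneg_left _ (by positivity)
  have h := b.orthonormal.comp (fun s : Bl (k j) => (⟨j, s⟩ : Σ j, Bl (k j)))
    (fun s s' hs => by cases hs; rfl)
  have h5 := h.sum_inner_products_le (x := u) (s := Finset.univ)
  refine le_trans (le_of_eq ?_) h5
  apply Finset.sum_congr rfl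
  intro r _
  rw [norm_inner_symm]
  rfl

/-- TARGET 6: an operator acting as the block matrix `w` on block `j` moves the column vectors. -/
theorem op_cv (x : H →L[ℂ] H) (i : Fin 3) (j : ℕ)
    (hx : ∀ t, x (b ⟨j, t⟩) = ∑ s, w (2 * k j + 1) i s t • b ⟨j, s⟩) (t : Bl (k j)) (g : G3) :
    x (cv b j t g) = cv b j t (FreeGroup.of i * g) := by
  unfold cv
  rw [map_smul, map_sum, sg_mul_val, sg_of_val]
  congr 1
  have h1 : ∀ s, x ((sg (k j) g : Matrix (Bl (k j)) (Bl (k j)) ℂ) s t • b ⟨j, s⟩) =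
      ∑ r, (w (2 * k j + 1) i r s * (sg (k j) g : Matrix (Bl (k j)) (Bl (k j)) ℂ) s t) •
        b ⟨j, r⟩ := by
    intro s
    rw [map_smul, hx, Finset.smul_sum]
    apply Finset.sum_congr rfl
    intro r _
    rw [smul_smul, mul_comm]
  rw [Finset.sum_congr rfl (fun s _ => h1 s), Finset.sum_comm]
  apply Finset.sum_congr rfl
  intro r _
  rw [← Finset.sum_smul, Matrix.mul_apply]

/-- TARGET 7 -/
theorem op_rv (x : H →L[ℂ] H) (i : Fin 3) (j : ℕ)
    (hx : ∀ t, x (b ⟨j, t⟩) = ∑ s, ((w (2 * k j + 1) i).map star) s t • b ⟨j, s⟩)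
    (t : Bl (k j)) (g : G3) :
    x (rv b j t g) = rv b j t (g * (FreeGroup.of i)⁻¹) := by
  unfold rv
  rw [map_smul, map_sum, sg_mul_val, sg_inv_val, sg_of_val]
  congr 1
  have h1 : ∀ s, x ((sg (k j) g : Matrix (Bl (k j)) (Bl (k j)) ℂ) t s • b ⟨j, s⟩) =
      ∑ r, ((sg (k j) g : Matrix (Bl (k j)) (Bl (k j)) ℂ) t s *
        (w (2 * k j + 1) i)ᴴ s r) • b ⟨j, r⟩ := by
    intro s
    rw [map_smul, hx, Finset.smul_sum]
    apply Finset.sum_congr rfl
    intro r _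
    rw [smul_smul]
    rfl
  rw [Finset.sum_congr rfl (fun s _ => h1 s), Finset.sum_comm]
  apply Finset.sum_congr rfl
  intro r _
  rw [← Finset.sum_smul, Matrix.mul_apply]

/-- TARGET 8 -/
theorem id_cv_rv (x : H →L[ℂ] H) (j : ℕ) (hx : ∀ t, x (b ⟨j, t⟩) = b ⟨j, t⟩) (t : Bl (k j))
    (g : G3) : x (cv b j t g) = cv b j t g ∧ x (rv b j t g) = rv b j t g := by
  unfold cv rv
  constructor
  · rw [map_smul, map_sum]
    congr 1
    apply Finset.sum_congr rfl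
    intro s _
    rw [map_smul, hx]
  · rw [map_smul, map_sum]
    congr 1
    apply Finset.sum_congr rfl
    intro s _
    rw [map_smul, hx]

end Pool.Agent.Helper965.CN
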