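import Pool.Agent.Helper965.O2.Base
import Pool.Agent.Helper965.O2.PS
import Pool.Agent.Helper965.CN.Vec
import Pool.Agent.Helper965.CN.Cpt
set_option autoImplicit false
set_option linter.unusedSectionVars false
open scoped TensorProduct ComplexOrder BigOperators Matrix InnerProductSpace
open Filter Topology

namespace Pool.Agent.Helper965.CN
open Pool.Agent.Helper965.O2 (hs w w_mem)

variable {H : Type} [NormedAddCommGroup H] [InnerProductSpace ℂ H] [CompleteSpace H]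

variable {k : ℕ → ℕ} (b : HilbertBasis (Σ j, Bl (k j)) ℂ H)


theorem unitary_sum {n : Type} [Fintype n] [DecidableEq n] (V : Matrix n n ℂ)
    (hV : star V * V = 1) (x : n → H) :
    ∑ t, ‖∑ s, V t s • x s‖ ^ 2 = ∑ s, ‖x s‖ ^ 2 := by
  have e : ∀ v : H, (((‖v‖ : ℝ)) : ℂ) ^ 2 = inner ℂ v v := fun v =>
    (inner_self_eq_norm_sq_to_K (𝕜 := ℂ) v).symm
  have hmain : ((∑ t, ‖∑ s, V t s • x s‖ ^ 2 : ℝ) : ℂ) = ((∑ s, ‖x s‖ ^ 2 : ℝ) : ℂ) := by
    push_cast
    simp only [e]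
    have h1 : ∀ t : n, inner ℂ (∑ s, V t s • x s) (∑ s, V t s • x s) =
        ∑ s, ∑ r, (star (V t s) * V t r) * inner ℂ (x s) (x r) := by
      intro t
      rw [sum_inner]
      refine Finset.sum_congr rfl fun s _ => ?_
      rw [inner_sum]
      refine Finset.sum_congr rfl fun r _ => ?_
      rw [inner_smul_left, inner_smul_right, mul_assoc]
      rfl
    simp only [h1]
    rw [Finset.sum_comm]
    refine Finset.sum_congr rfl fun s _ => ?_
    rw [Finset.sum_comm]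
    have h2 : ∀ r : n, ∑ t, (star (V t s) * V t r) * inner ℂ (x s) (x r) =
        (if s = r then (1 : ℂ) else 0) * inner ℂ (x s) (x r) := by
      intro r
      rw [← Finset.sum_mul]
      congr 1
      have := congrFun (congrFun hV s) r
      rw [Matrix.mul_apply, Matrix.one_apply] at this
      rw [← this]
      rfl
    simp only [h2]
    simp
  exact_mod_cast hmain

theorem rv_norm_sum (y : H →L[ℂ] H) (j : ℕ) (g : G3) :
    ∑ t, ‖y (rv b j t g)‖ ^ 2 = (2 * (k j : ℝ) + 1)⁻¹ * ∑ s : Bl (k j), ‖y (b ⟨j, s⟩)‖ ^ 2 := by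
  have hM : (0 : ℝ) < 2 * (k j : ℝ) + 1 := by positivity
  rw [← unitary_sum (sg (k j) g : Matrix (Bl (k j)) (Bl (k j)) ℂ)
    (Matrix.mem_unitaryGroup_iff'.mp (sg (k j) g).2) (fun s => y (b ⟨j, s⟩)), Finset.mul_sum]
  refine Finset.sum_congr rfl fun t _ => ?_
  unfold rv
  rw [map_smul, map_sum, norm_smul, mul_pow]
  congr 1
  · rw [norm_inv, Complex.norm_real, Real.norm_eq_abs, abs_of_nonneg (Real.sqrt_nonneg _), inv_pow,
      Real.sq_sqrt hM.le]
  · congr 2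
    refine Finset.sum_congr rfl fun s _ => ?_
    rw [map_smul]

/-- TARGET -/
theorem rv_compact {y : H →L[ℂ] H} (hy : IsCompactOperator y) (g h : G3) :
    Tendsto (fun j => ∑ t, inner ℂ (rv b j t g) (y (rv b j t h))) atTop (𝓝 0) := by
  rw [tendsto_zero_iff_norm_tendsto_zero]
  rw [Metric.tendsto_atTop]
  intro ε hε
  have hc := compact_basis b hy
  have hfin : {i : Σ j, Bl (k j) | ¬ ‖y (b i)‖ < ε / 2}.Finite := by
    have := (hc.eventually (gt_mem_nhds (half_pos hε)))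
    exact Filter.eventually_cofinite.mp this
  obtain ⟨N, hN⟩ := (hfin.image Sigma.fst).bddAbove
  refine ⟨N + 1, fun j hj => ?_⟩
  have hsmall : ∀ s : Bl (k j), ‖y (b ⟨j, s⟩)‖ < ε / 2 := by
    intro s
    by_contra hcon
    have : j ≤ N := hN ⟨⟨j, s⟩, hcon, rfl⟩
    omega
  have hM : (0 : ℝ) < 2 * (k j : ℝ) + 1 := by positivity
  have hcard : ((Finset.univ : Finset (Bl (k j))).card : ℝ) = 2 * (k j : ℝ) + 1 := by
    rw [Finset.card_univ, ZMod.card]; push_cast; ring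
  have hone : ∑ t, ‖rv b j t g‖ ^ 2 = 1 := by
    have h1 := rv_norm_sum b (ContinuousLinearMap.id ℂ H) j g
    simp only [ContinuousLinearMap.id_apply] at h1
    rw [h1]
    have h2 : ∀ s : Bl (k j), ‖b ⟨j, s⟩‖ ^ 2 = (1 : ℝ) := by
      intro s
      rw [b.orthonormal.1]; norm_num
    simp only [h2]
    rw [Finset.sum_const, nsmul_eq_mul, mul_one, hcard]
    exact inv_mul_cancel₀ hM.ne'
  have hy2 : ∑ t, ‖y (rv b j t h)‖ ^ 2 ≤ (ε / 2) ^ 2 := by
    rw [rv_norm_sum b y j h]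
    rw [inv_mul_le_iff₀ hM]
    calc ∑ s : Bl (k j), ‖y (b ⟨j, s⟩)‖ ^ 2 ≤ ∑ _s : Bl (k j), (ε / 2) ^ 2 := by
          refine Finset.sum_le_sum fun s _ => ?_
          exact pow_le_pow_left₀ (norm_nonneg _) (hsmall s).le 2
      _ = (2 * (k j : ℝ) + 1) * (ε / 2) ^ 2 := by
          rw [Finset.sum_const, nsmul_eq_mul, hcard]
  rw [Real.dist_eq, sub_zero, abs_of_nonneg (norm_nonneg _)]
  have hb1 : ‖∑ t, inner ℂ (rv b j t g) (y (rv b j t h))‖ ≤
      ∑ t, ‖rv b j t g‖ * ‖y (rv b j t h)‖ :=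
    (norm_sum_le _ _).trans (Finset.sum_le_sum fun t _ => norm_inner_le_norm _ _)
  have hb2 : (∑ t, ‖rv b j t g‖ * ‖y (rv b j t h)‖) ^ 2 ≤
      (∑ t, ‖rv b j t g‖ ^ 2) * ∑ t, ‖y (rv b j t h)‖ ^ 2 :=
    Finset.sum_mul_sq_le_sq_mul_sq _ _ _
  rw [hone, one_mul] at hb2
  have hb3 : (∑ t, ‖rv b j t g‖ * ‖y (rv b j t h)‖) ^ 2 ≤ (ε / 2) ^ 2 := hb2.trans hy2
  have hb4 : ∑ t, ‖rv b j t g‖ * ‖y (rv b j t h)‖ ≤ ε / 2 :=
    abs_le_of_sq_le_sq' hb3 (by positivity) |>.2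
  linarith

end Pool.Agent.Helper965.CN
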