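import Mathlib
set_option autoImplicit false
open scoped BigOperators
open Filter Topology

namespace Pool.Agent.Helper965.CN

/-- recursion state -/
def esSt (φ : ℕ → ℕ) : ℕ → ℕ × ℕ
  | 0 => (0, 0)
  | m + 1 => ((esSt φ m).1 + 1 + (m + 2) * ((esSt φ m).2 + (2 * φ (esSt φ m).1 + 1)),
      (esSt φ m).2 + (2 * φ (esSt φ m).1 + 1))

theorem esSt_sum (φ : ℕ → ℕ) (m : ℕ) :
    (esSt φ m).2 = ∑ j ∈ Finset.range m, (2 * φ (esSt φ j).1 + 1) := by
  induction m with
  | zero => rfl
  | succ m ih => rw [Finset.sum_range_succ, ← ih]; rfl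

/-- TARGET 1. A fast growing sequence along which countably many bounded sequences converge. -/
theorem exists_scales {G : Type} [Countable G] (f : ℕ → G → ℂ) (hf : ∀ n g, ‖f n g‖ ≤ 1) :
    ∃ (k : ℕ → ℕ) (τ : G → ℂ),
      (∀ m, 2 * (m + 1) * ∑ j ∈ Finset.range m, (2 * k j + 1) < 2 * k m + 1) ∧
      ∀ g, Tendsto (fun j => f (k j) g) atTop (𝓝 (τ g)) := by
  have hcomp : IsCompact (Set.pi Set.univ (fun _ : G => Metric.closedBall (0:ℂ) 1)) :=
    isCompact_univ_pi (fun _ => isCompact_closedBall 0 1)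
  have hmem : ∀ n, f n ∈ Set.pi Set.univ (fun _ : G => Metric.closedBall (0:ℂ) 1) := by
    intro n g _
    simpa using hf n g
  obtain ⟨τ, -, φ, hφ, hτ⟩ := hcomp.tendsto_subseq hmem
  have hmono : StrictMono (fun m => (esSt φ m).1) := by
    apply strictMono_nat_of_lt_succ
    intro m
    change (esSt φ m).1 < (esSt φ m).1 + 1 + (m + 2) * ((esSt φ m).2 + (2 * φ (esSt φ m).1 + 1))
    omega
  refine ⟨fun m => φ (esSt φ m).1, τ, ?_, ?_⟩
  · intro m
    rw [← esSt_sum]
    cases m with
    | zero =>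
      change 2 * (0 + 1) * 0 < _
      omega
    | succ m =>
      have h1 := hφ.id_le (esSt φ (m+1)).1
      have h2 : (m + 2) * (esSt φ (m+1)).2 ≤ (esSt φ (m+1)).1 := by
        change (m + 2) * (esSt φ (m+1)).2 ≤ (esSt φ m).1 + 1 + (m + 2) * (esSt φ (m+1)).2
        omega
      have h3 : (m + 2) * (esSt φ (m+1)).2 ≤ φ (esSt φ (m+1)).1 := h2.trans h1
      have h4 : 2 * (m + 1 + 1) * (esSt φ (m+1)).2 = 2 * ((m + 2) * (esSt φ (m+1)).2) := by ring
      rw [h4]
      change 2 * ((m + 2) * (esSt φ (m+1)).2) < 2 * φ (esSt φ (m+1)).1 + 1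
      omega
  · intro g
    rw [tendsto_pi_nhds] at hτ
    exact (hτ g).comp hmono.tendsto_atTop

/-- TARGET 2. An almost disjoint family of the size of the continuum, made of even numbers. -/
theorem exists_ad : ∃ S : (ℕ → Bool) → Set ℕ, (∀ a, (S a).Infinite) ∧ (∀ a, ∀ n ∈ S a, Even n) ∧
    ∀ a b, a ≠ b → (S a ∩ S b).Finite := by
  let w : (ℕ → Bool) → ℕ → ℕ := fun a n => 2 * Encodable.encode ((List.range n).map a)
  have hw : ∀ a b n m, w a n = w b m → n = m ∧ ∀ i < n, a i = b i := by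
    intro a b n m h
    have h1 : Encodable.encode ((List.range n).map a) = Encodable.encode ((List.range m).map b) := by
      simp only [w] at h
      omega
    have h2 := Encodable.encode_injective h1
    have h3 : n = m := by
      have := congrArg List.length h2
      simpa using this
    subst h3
    refine ⟨rfl, ?_⟩
    intro i hi
    exact List.map_inj_left.1 h2 i (List.mem_range.2 hi)
  refine ⟨fun a => Set.range (w a), ?_, ?_, ?_⟩
  · intro a
    apply Set.infinite_range_of_injective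
    intro n m h
    exact (hw a a n m h).1
  · rintro a n ⟨k, rfl⟩
    exact even_two_mul _
  · intro a b hab
    obtain ⟨m, hm⟩ := Function.ne_iff.1 hab
    apply (((Set.finite_Iic m).image (w a))).subset
    rintro x ⟨⟨n, rfl⟩, ⟨n', h⟩⟩
    refine ⟨n, ?_, rfl⟩
    rw [Set.mem_Iic]
    by_contra hcon
    exact hm ((hw a b n n' h.symm).2 m (by omega))

end Pool.Agent.Helper965.CN
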