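import Pool.Agent.Helper965.CN.Upper2
import Pool.Agent.Helper965.CN.RvC
import Pool.Agent.Helper965.CN.MinBound
import Pool.Agent.Helper965.CN.Scale
import Pool.Agent.Helper965.CN.Card

set_option autoImplicit false
set_option linter.unusedSectionVars false
open scoped TensorProduct ComplexOrder BigOperators Matrix InnerProductSpace Cardinal
open Filter Topology

namespace Pool.Agent.Helper965.CN
open Pool.Agent.Helper965.O2 (hs w w_mem)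

variable {H : Type} [NormedAddCommGroup H] [InnerProductSpace ℂ H] [CompleteSpace H]

/-- a nonprincipal ultrafilter containing a given infinite set -/
theorem exists_ultra (S : Set ℕ) (hS : S.Infinite) :
    ∃ U : Ultrafilter ℕ, (U : Filter ℕ) ≤ atTop ∧ S ∈ U := by
  have h : (atTop ⊓ 𝓟 S : Filter ℕ).NeBot := by
    rw [← frequently_mem_iff_neBot, Nat.frequently_atTop_iff_infinite]
    exact hS
  refine ⟨Ultrafilter.of (atTop ⊓ 𝓟 S), (Ultrafilter.of_le _).trans inf_le_left, ?_⟩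
  have h1 : S ∈ (atTop ⊓ 𝓟 S : Filter ℕ) := mem_inf_of_right (mem_principal_self S)
  exact Ultrafilter.of_le _ h1

/-- The family of test elements and states. -/
theorem exists_family [TopologicalSpace.SeparableSpace H] (hH : ¬ FiniteDimensional ℂ H) :
    ∃ (t : (ℕ → Bool) → (H →L[ℂ] H) ⊗[ℂ] (H →L[ℂ] H))
      (φ : (ℕ → Bool) → ((H →L[ℂ] H) ⊗[ℂ] (H →L[ℂ] H) →ₗ[ℂ] ℂ)),
      (∀ a (ζ : H ⊗[ℂ] H), ‖R (t a) ζ‖ ≤ (4 - 1 / 10 ^ 12) * ‖ζ‖) ∧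
      (∀ a s, 0 ≤ φ a (star s * s)) ∧ (∀ a, φ a 1 = 1 ∧ φ a (t a) = 4) ∧
      (∀ a c, a ≠ c → ∀ w, nf (φ a) (t c * w) ≤ (4 - 1 / 10 ^ 12) * nf (φ a) w) ∧
      (∀ a (x y : H →L[ℂ] H), IsCompactOperator y → φ a (x ⊗ₜ y) = 0) := by
  obtain ⟨k, τ, hk, hτ⟩ := exists_scales (fun n g => ntr n g) norm_ntr_le
  obtain ⟨S, hSinf, hSeven, hSad⟩ := exists_ad
  have : Infinite (Σ j, Bl (k j)) := by
    refine Infinite.of_injective (fun n : ℕ => (⟨n, 0⟩ : Σ j, Bl (k j))) ?_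
    intro n m h
    exact congrArg Sigma.fst h
  obtain ⟨b⟩ := exists_basis (Σ j, Bl (k j)) hH
  let T : Set ℕ := {n | Odd n}
  have hTinf : T.Infinite := by
    refine Set.infinite_of_injective_forall_mem (f := fun n : ℕ => 2 * n + 1) ?_ ?_
    · intro n m h
      simpa using h
    · intro n
      exact ⟨n, rfl⟩
  obtain ⟨V, hV, hTV⟩ := exists_ultra T hTinf
  choose U hU hSU using fun a => exists_ultra (S a) (hSinf a)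
  choose φ h1 h2 h3 h4 h5 using fun a => exists_state b τ hτ (U a) V (hU a) hV
  refine ⟨fun a => tST b (S a) T, φ, ?_, h1, ?_, ?_, ?_⟩
  · intro a ζ
    refine min_bound b hk (S a) T ?_ _ _ _ _ (fun j t => PS_apply b (S a) j t)
      (fun j t => PS_apply b T j t) (fun i j t => XS_apply b (S a) i j t)
      (fun i j t => YT_apply b T i j t) ζ
    rw [Set.disjoint_left]
    intro n hn hn'
    exact (Nat.not_odd_iff_even.2 (hSeven a n hn)) hn'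
  · intro a
    refine ⟨h2 a, ?_⟩
    obtain ⟨h6, h7⟩ := h3 a (S a) (hSU a) T hTV
    unfold tST
    rw [map_add, map_sum, h6]
    simp only [h7]
    norm_num
  · intro a c hac w
    refine upper b hk (U a) (hU a) (φ a) (h1 a) (h4 a) (S c) T ?_ w
    intro hc
    have h6 : S a ∩ S c ∈ U a := Filter.inter_mem (hSU a) hc
    have h7 : (S a ∩ S c)ᶜ ∈ (U a : Filter ℕ) := by
      apply hU a
      have := (hSad a c hac).compl_mem_cofinite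
      rwa [Nat.cofinite_eq_atTop] at this
    exact (Ultrafilter.compl_mem_iff_notMem.1 h7) h6
  · intro a x y hy
    exact h5 a x y fun g h => rv_compact b hy g h

theorem b1_convT (φ : (H →L[ℂ] H) ⊗[ℂ] (H →L[ℂ] H) →ₗ[ℂ] ℂ)
    (t w : (H →L[ℂ] H) ⊗[ℂ] (H →L[ℂ] H)) :
    (φ (star w * (star t * t) * w)).re = b1q φ (t * w) := b1_conv φ t w

/-- base set and some of the states -/
def famS (Φ₀ : Set ((H →L[ℂ] H) ⊗[ℂ] (H →L[ℂ] H) →ₗ[ℂ] ℂ))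
    (φ : (ℕ → Bool) → ((H →L[ℂ] H) ⊗[ℂ] (H →L[ℂ] H) →ₗ[ℂ] ℂ)) (𝒢 : Set (ℕ → Bool)) :
    Set ((H →L[ℂ] H) ⊗[ℂ] (H →L[ℂ] H) →ₗ[ℂ] ℂ) :=
  Φ₀ ∪ φ '' 𝒢

/-- Adding different sets of the states to a base set gives different norms. -/
theorem cn_injective {Φ₀ : Set ((H →L[ℂ] H) ⊗[ℂ] (H →L[ℂ] H) →ₗ[ℂ] ℂ)}
    (hpos₀ : ∀ φ ∈ Φ₀, ∀ s, 0 ≤ φ (star s * s))
    (t : (ℕ → Bool) → (H →L[ℂ] H) ⊗[ℂ] (H →L[ℂ] H))
    (φ : (ℕ → Bool) → ((H →L[ℂ] H) ⊗[ℂ] (H →L[ℂ] H) →ₗ[ℂ] ℂ))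
    (h₀ : ∀ ψ ∈ Φ₀, ∀ a w, nf ψ (t a * w) ≤ (4 - 1 / 10 ^ 12) * nf ψ w)
    (h1 : ∀ a s, 0 ≤ φ a (star s * s)) (h2 : ∀ a, φ a 1 = 1 ∧ φ a (t a) = 4)
    (h3 : ∀ a c, a ≠ c → ∀ w, nf (φ a) (t c * w) ≤ (4 - 1 / 10 ^ 12) * nf (φ a) w) :
    (∀ 𝒢 : Set (ℕ → Bool), Adm (A := (H →L[ℂ] H) ⊗[ℂ] (H →L[ℂ] H)) (famS Φ₀ φ 𝒢)) ∧
    Function.Injective fun 𝒢 : Set (ℕ → Bool) => cn (A := (H →L[ℂ] H) ⊗[ℂ] (H →L[ℂ] H)) (famS Φ₀ φ 𝒢) := by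
  have hadm : ∀ 𝒢 : Set (ℕ → Bool), Adm (A := (H →L[ℂ] H) ⊗[ℂ] (H →L[ℂ] H)) (famS Φ₀ φ 𝒢) := by
    intro 𝒢
    have hp : ∀ ψ ∈ famS Φ₀ φ 𝒢, ∀ s, 0 ≤ ψ (star s * s) := by
      rintro ψ (hψ | ⟨a, _, rfl⟩) s
      · exact hpos₀ ψ hψ s
      · exact h1 a s
    refine ⟨hp, fun s => ?_⟩
    obtain ⟨C, hC⟩ := tensor_bdd s
    exact ⟨C, fun ψ hψ w => hC ψ (hp ψ hψ) w⟩
  refine ⟨hadm, ?_⟩
  have hlow : ∀ (𝒢 : Set (ℕ → Bool)) a, a ∈ 𝒢 → 4 ≤ cn (A := (H →L[ℂ] H) ⊗[ℂ] (H →L[ℂ] H)) (famS Φ₀ φ 𝒢) (t a) := by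
    intro 𝒢 a ha
    have h4 := le_cn (hadm 𝒢) (φ := φ a) (Or.inr ⟨a, ha, rfl⟩) (t a) 1
    rw [b1_convT, mul_one] at h4
    have h5 := nf_cs (h1 a) 1 (t a)
    have h6 : nf (φ a) (1 : (H →L[ℂ] H) ⊗[ℂ] (H →L[ℂ] H)) = 1 := by
      unfold nf b1q
      rw [star_one, mul_one, (h2 a).1]
      simp
    rw [h6, star_one, one_mul, one_mul, (h2 a).2] at h5
    have h7 : (4 : ℝ) ≤ nf (φ a) (t a) := by simpa using h5
    have h8 : (φ a (star (1 : (H →L[ℂ] H) ⊗[ℂ] (H →L[ℂ] H)) * 1)).re = 1 := by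
      rw [star_one, mul_one, (h2 a).1]; simp
    rw [h8, mul_one, ← nf_sq (h1 a)] at h4
    have h9 := b1_nonneg (A := (H →L[ℂ] H) ⊗[ℂ] (H →L[ℂ] H)) (famS Φ₀ φ 𝒢) (t a)
    have h10 := nf_nonneg (φ := φ a) (t a)
    nlinarith
  have hup : ∀ (𝒢 : Set (ℕ → Bool)) c, c ∉ 𝒢 → cn (A := (H →L[ℂ] H) ⊗[ℂ] (H →L[ℂ] H)) (famS Φ₀ φ 𝒢) (t c) ≤ 4 - 1 / 10 ^ 12 := by
    intro 𝒢 c hc
    refine cn_le (hadm 𝒢) (t c) _ (by norm_num) ?_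
    intro ψ hψ w
    have hp := (hadm 𝒢).pos ψ hψ
    have h4 : nf ψ (t c * w) ≤ (4 - 1 / 10 ^ 12) * nf ψ w := by
      rcases hψ with hψ | ⟨a, ha, rfl⟩
      · exact h₀ ψ hψ c w
      · exact h3 a c (fun h => hc (h ▸ ha)) w
    rw [b1_convT, ← nf_sq hp]
    have h5 : (ψ (star w * w)).re = nf ψ w ^ 2 := (nf_sq hp w).symm
    rw [h5, ← mul_pow]
    exact pow_le_pow_left₀ (nf_nonneg _) h4 2
  intro 𝒢 𝒢' h
  simp only at h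
  ext a
  constructor
  · intro ha
    by_contra ha'
    have h4 := hlow 𝒢 a ha
    have h5 := hup 𝒢' a ha'
    rw [h] at h4
    norm_num at h4 h5
    linarith
  · intro ha
    by_contra ha'
    have h4 := hlow 𝒢' a ha
    have h5 := hup 𝒢 a ha'
    rw [h] at h5
    norm_num at h4 h5
    linarith

end Pool.Agent.Helper965.CN
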