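import Mathlib
set_option autoImplicit false
open scoped ComplexOrder BigOperators InnerProductSpace

namespace Pool.Agent.Helper965.CN

lemma herm_of_pos {G : Type} (K : G → G → ℂ)
    (hK : ∀ (s : Finset G) (c : G → ℂ), 0 ≤ ∑ g ∈ s, ∑ h ∈ s, star (c g) * c h * K g h)
    (g h : G) : star (K h g) = K g h := by
  classical
  have hdiag : ∀ g, (K g g).im = 0 := by
    intro g
    have h1 := hK {g} (fun _ => 1)
    simp only [Finset.sum_singleton, star_one, one_mul] at h1
    exact ((Complex.nonneg_iff.mp h1).2).symm
  by_cases hgh : g = h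
  · subst hgh
    apply Complex.ext
    · simp
    · simp [hdiag g]
  · have e1 := hK {g, h} (fun _ => 1)
    have e2 := hK {g, h} (fun x => if x = g then 1 else Complex.I)
    have hne : ¬ h = g := fun e => hgh e.symm
    simp only [Finset.sum_pair hgh, star_one, one_mul] at e1
    simp only [Finset.sum_pair hgh, if_true, if_neg hne, star_one, one_mul] at e2
    have i1 := (Complex.nonneg_iff.mp e1).2
    have i2 := (Complex.nonneg_iff.mp e2).2
    have d1 := hdiag g
    have d2 := hdiag h
    simp [Complex.add_im, Complex.mul_im] at i1 i2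
    apply Complex.ext
    · simp
      linarith
    · simp
      linarith

/-- TARGET. Kolmogorov / GNS: every positive definite kernel comes from vectors in a Hilbert space. -/
theorem exists_gns {G : Type} (K : G → G → ℂ)
    (hK : ∀ (s : Finset G) (c : G → ℂ), 0 ≤ ∑ g ∈ s, ∑ h ∈ s, star (c g) * c h * K g h) :
    ∃ (L : Type) (_ : NormedAddCommGroup L) (_ : InnerProductSpace ℂ L) (_ : CompleteSpace L)
      (v : G → L), (∀ g h, inner ℂ (v g) (v h) = K g h) ∧
      (Submodule.span ℂ (Set.range v)).topologicalClosure = ⊤ := by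
  classical
  have hherm := herm_of_pos K hK
  let K' : Matrix G G (ℂ →L[ℂ] ℂ) := Matrix.of fun g h => K g h • (1 : ℂ →L[ℂ] ℂ)
  have hK'h : K'.IsHermitian := by
    ext g h
    simp only [Matrix.conjTranspose_apply, K', Matrix.of_apply, star_smul, star_one, hherm g h]
  have hpos : K'.PosSemidef := by
    have hT := (RKHS.posSemidef_tfae (K := K')).out 0 2
    rw [hT]
    refine And.intro hK'h (fun vv => ?_)
    have := hK vv.support (fun x => vv x)
    have h2 := (Complex.nonneg_iff.mp this).1
    refine le_trans h2 (le_of_eq ?_)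
    simp only [Finsupp.sum, K', Matrix.of_apply]
    congr 1
    refine Finset.sum_congr rfl fun x _ => Finset.sum_congr rfl fun y _ => ?_
    rw [← hherm x y]
    simp [RCLike.inner_apply]
    ring
  have : Fact K'.PosSemidef := ⟨hpos⟩
  refine ⟨RKHS.OfKernel K', inferInstance, inferInstance, inferInstance,
    fun g => RKHS.kerFun (RKHS.OfKernel K') g (1 : ℂ), ?_, ?_⟩
  · intro g h
    rw [← RKHS.kernel_inner, RKHS.OfKernel.kernel_ofKernel]
    simp only [K', Matrix.of_apply]
    rw [← hherm g h]
    simp
  · have hd := RKHS.kerFun_dense (RKHS.OfKernel K')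
    rw [eq_top_iff, ← hd]
    apply Submodule.topologicalClosure_mono
    rw [Submodule.span_le]
    rintro _ ⟨x, w, rfl⟩
    have : RKHS.kerFun (RKHS.OfKernel K') x w = w • RKHS.kerFun (RKHS.OfKernel K') x (1 : ℂ) := by
      rw [← map_smul]; simp
    rw [this]
    exact Submodule.smul_mem _ _ (Submodule.subset_span ⟨x, rfl⟩)

end Pool.Agent.Helper965.CN
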