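import Pool.Agent.Helper965.CN.MainA
set_option autoImplicit false
set_option linter.unusedSectionVars false
open scoped TensorProduct ComplexOrder BigOperators InnerProductSpace
open Filter Topology

namespace Pool.Agent.Helper965.CN

variable {H : Type} [NormedAddCommGroup H] [InnerProductSpace ℂ H] [CompleteSpace H]



theorem cn_R_one (ζ : H ⊗[ℂ] H) : R ((1 : H →L[ℂ] H) ⊗ₜ[ℂ] (1 : H →L[ℂ] H)) ζ = ζ := by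
  rw [R_tmul]
  have h1 : ((1 : H →L[ℂ] H) : H →ₗ[ℂ] H) = LinearMap.id := rfl
  rw [h1, TensorProduct.map_id]
  rfl

theorem cn_norm_sq (T : (H →L[ℂ] H) ⊗[ℂ] (H →L[ℂ] H)) (ζ : H ⊗[ℂ] H) :
    ‖R T ζ‖ ^ 2 = (inner ℂ ζ (R (star T * T) ζ)).re := by
  rw [R_mul, ← R_star, ← inner_self_eq_norm_sq (𝕜 := ℂ)]
  rfl

theorem cn_exists_s (x : H →L[ℂ] H) :
    ∃ s : H →L[ℂ] H, star x * x + star s * s = ((‖x‖ ^ 2 : ℝ) : ℂ) • (1 : H →L[ℂ] H) := by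
  have h1 : star x * x ≤ algebraMap ℝ (H →L[ℂ] H) (‖x‖ ^ 2) :=
    CStarAlgebra.star_mul_le_algebraMap_norm_sq
  have h2 : 0 ≤ algebraMap ℝ (H →L[ℂ] H) (‖x‖ ^ 2) - star x * x := sub_nonneg.mpr h1
  obtain ⟨s, hs⟩ := CStarAlgebra.nonneg_iff_eq_star_mul_self.mp h2
  refine ⟨s, ?_⟩
  rw [← hs, add_sub_cancel, Algebra.algebraMap_eq_smul_one]
  ext v
  show (‖x‖ ^ 2 : ℝ) • v = ((‖x‖ ^ 2 : ℝ) : ℂ) • v
  exact (Complex.coe_smul _ _).symm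

theorem cn_left (x : H →L[ℂ] H) (ζ : H ⊗[ℂ] H) :
    ‖R (x ⊗ₜ[ℂ] (1 : H →L[ℂ] H)) ζ‖ ≤ ‖x‖ * ‖ζ‖ := by
  obtain ⟨s, hs⟩ := cn_exists_s x
  have h1 := cn_norm_sq (x ⊗ₜ[ℂ] (1 : H →L[ℂ] H)) ζ
  have h2 := cn_norm_sq (s ⊗ₜ[ℂ] (1 : H →L[ℂ] H)) ζ
  rw [TensorProduct.star_tmul, Algebra.TensorProduct.tmul_mul_tmul, star_one, one_mul] at h1 h2
  have h3 : ‖R (x ⊗ₜ[ℂ] (1 : H →L[ℂ] H)) ζ‖ ^ 2 + ‖R (s ⊗ₜ[ℂ] (1 : H →L[ℂ] H)) ζ‖ ^ 2 =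
      (‖x‖ * ‖ζ‖) ^ 2 := by
    have e1 : (inner ℂ ζ (R ((star x * x) ⊗ₜ[ℂ] (1 : H →L[ℂ] H)) ζ) : ℂ) +
        inner ℂ ζ (R ((star s * s) ⊗ₜ[ℂ] (1 : H →L[ℂ] H)) ζ) =
        ((‖x‖ ^ 2 : ℝ) : ℂ) * ((‖ζ‖ ^ 2 : ℝ) : ℂ) := by
      refine (inner_add_right (𝕜 := ℂ) ζ _ _).symm.trans ?_
      rw [← LinearMap.add_apply, ← map_add, ← TensorProduct.add_tmul, hs, ← TensorProduct.smul_tmul', map_smul, LinearMap.smul_apply,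
        cn_R_one, inner_smul_right, inner_self_eq_norm_sq_to_K]
      push_cast
      rfl
    rw [h1, h2, ← Complex.add_re, e1, ← Complex.ofReal_mul, Complex.ofReal_re]
    ring
  have h4 : ‖R (x ⊗ₜ[ℂ] (1 : H →L[ℂ] H)) ζ‖ ^ 2 ≤ (‖x‖ * ‖ζ‖) ^ 2 := by
    rw [← h3]; nlinarith [sq_nonneg ‖R (s ⊗ₜ[ℂ] (1 : H →L[ℂ] H)) ζ‖]
  exact abs_le_of_sq_le_sq' h4 (by positivity) |>.2

theorem cn_right (y : H →L[ℂ] H) (ζ : H ⊗[ℂ] H) :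
    ‖R ((1 : H →L[ℂ] H) ⊗ₜ[ℂ] y) ζ‖ ≤ ‖y‖ * ‖ζ‖ := by
  obtain ⟨s, hs⟩ := cn_exists_s y
  have h1 := cn_norm_sq ((1 : H →L[ℂ] H) ⊗ₜ[ℂ] y) ζ
  have h2 := cn_norm_sq ((1 : H →L[ℂ] H) ⊗ₜ[ℂ] s) ζ
  rw [TensorProduct.star_tmul, Algebra.TensorProduct.tmul_mul_tmul, star_one, one_mul] at h1 h2
  have h3 : ‖R ((1 : H →L[ℂ] H) ⊗ₜ[ℂ] y) ζ‖ ^ 2 + ‖R ((1 : H →L[ℂ] H) ⊗ₜ[ℂ] s) ζ‖ ^ 2 =
      (‖y‖ * ‖ζ‖) ^ 2 := by
    have e1 : (inner ℂ ζ (R ((1 : H →L[ℂ] H) ⊗ₜ[ℂ] (star y * y)) ζ) : ℂ) +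
        inner ℂ ζ (R ((1 : H →L[ℂ] H) ⊗ₜ[ℂ] (star s * s)) ζ) =
        ((‖y‖ ^ 2 : ℝ) : ℂ) * ((‖ζ‖ ^ 2 : ℝ) : ℂ) := by
      refine (inner_add_right (𝕜 := ℂ) ζ _ _).symm.trans ?_
      rw [← LinearMap.add_apply, ← map_add, ← TensorProduct.tmul_add, hs, TensorProduct.tmul_smul, map_smul, LinearMap.smul_apply,
        cn_R_one, inner_smul_right, inner_self_eq_norm_sq_to_K]
      push_cast
      rfl
    rw [h1, h2, ← Complex.add_re, e1, ← Complex.ofReal_mul, Complex.ofReal_re]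
    ring
  have h4 : ‖R ((1 : H →L[ℂ] H) ⊗ₜ[ℂ] y) ζ‖ ^ 2 ≤ (‖y‖ * ‖ζ‖) ^ 2 := by
    rw [← h3]; nlinarith [sq_nonneg ‖R ((1 : H →L[ℂ] H) ⊗ₜ[ℂ] s) ζ‖]
  exact abs_le_of_sq_le_sq' h4 (by positivity) |>.2

/-- TARGET 1: the operators `R t` are bounded -/
theorem R_bdd (t : (H →L[ℂ] H) ⊗[ℂ] (H →L[ℂ] H)) : ∃ C : ℝ, 0 ≤ C ∧ ∀ ζ, ‖R t ζ‖ ≤ C * ‖ζ‖ := by
  induction t using TensorProduct.induction_on with
  | zero => exact ⟨0, le_rfl, fun ζ => by simp⟩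
  | tmul x y =>
    refine ⟨‖x‖ * ‖y‖, by positivity, fun ζ => ?_⟩
    have h1 : x ⊗ₜ[ℂ] y = (x ⊗ₜ[ℂ] (1 : H →L[ℂ] H)) * ((1 : H →L[ℂ] H) ⊗ₜ[ℂ] y) := by
      rw [Algebra.TensorProduct.tmul_mul_tmul, mul_one, one_mul]
    rw [h1, R_mul]
    calc ‖R (x ⊗ₜ[ℂ] (1 : H →L[ℂ] H)) (R ((1 : H →L[ℂ] H) ⊗ₜ[ℂ] y) ζ)‖
        ≤ ‖x‖ * ‖R ((1 : H →L[ℂ] H) ⊗ₜ[ℂ] y) ζ‖ := cn_left x _
      _ ≤ ‖x‖ * (‖y‖ * ‖ζ‖) := mul_le_mul_of_nonneg_left (cn_right y ζ) (norm_nonneg _)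
      _ = ‖x‖ * ‖y‖ * ‖ζ‖ := by ring
  | add a b ha hb =>
    obtain ⟨C1, h1, h1'⟩ := ha
    obtain ⟨C2, h2, h2'⟩ := hb
    refine ⟨C1 + C2, by positivity, fun ζ => ?_⟩
    rw [map_add, LinearMap.add_apply, add_mul]
    exact (norm_add_le _ _).trans (add_le_add (h1' ζ) (h2' ζ))

theorem cn_ultra_lim (V : Ultrafilter ℕ) (a : ℕ → ℂ) (B : ℝ) (ha : ∀ n, ‖a n‖ ≤ B) :
    ∃ z, Tendsto a (V : Filter ℕ) (𝓝 z) := by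
  have hc : IsCompact (Metric.closedBall (0 : ℂ) B) := isCompact_closedBall 0 B
  have h1 : ((V.map a : Ultrafilter ℂ) : Filter ℂ) ≤ 𝓟 (Metric.closedBall (0 : ℂ) B) := by
    rw [Filter.le_principal_iff]
    show a ⁻¹' _ ∈ (V : Filter ℕ)
    exact Filter.univ_mem' fun n => by simpa using ha n
  obtain ⟨z, _, hz⟩ := hc.ultrafilter_le_nhds (V.map a) h1
  exact ⟨z, hz⟩

/-- TARGET 2: ultralimits of vector functionals exist -/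
theorem exists_lim (V : Ultrafilter ℕ) (ζ : ℕ → H ⊗[ℂ] H) (C : ℝ) (hζ : ∀ n, ‖ζ n‖ ≤ C) :
    ∃ φ : (H →L[ℂ] H) ⊗[ℂ] (H →L[ℂ] H) →ₗ[ℂ] ℂ,
      ∀ t, Tendsto (fun n => vf (ζ n) t) (V : Filter ℕ) (𝓝 (φ t)) := by
  have h : ∀ t, ∃ z, Tendsto (fun n => vf (ζ n) t) (V : Filter ℕ) (𝓝 z) := by
    intro t
    obtain ⟨K, hK, hK'⟩ := R_bdd t
    refine cn_ultra_lim V _ (C * (K * C)) fun n => ?_
    have hC : 0 ≤ C := (norm_nonneg _).trans (hζ n)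
    calc ‖vf (ζ n) t‖ ≤ ‖ζ n‖ * ‖R t (ζ n)‖ := norm_inner_le_norm (𝕜 := ℂ) (ζ n) (R t (ζ n))
      _ ≤ C * (K * C) := mul_le_mul (hζ n)
          ((hK' _).trans (mul_le_mul_of_nonneg_left (hζ n) hK)) (norm_nonneg _) hC
  choose φ hφ using h
  refine ⟨{ toFun := φ, map_add' := fun s t => ?_, map_smul' := fun c t => ?_ }, hφ⟩
  · refine tendsto_nhds_unique (hφ (s + t)) ?_
    have := (hφ s).add (hφ t)
    simpa only [map_add] using this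
  · refine tendsto_nhds_unique (hφ (c • t)) ?_
    have := (hφ t).const_smul c
    simpa only [map_smul, RingHom.id_apply] using this

/-- TARGET 3: separation -/
theorem sep_lim (V : Ultrafilter ℕ) (hV : (V : Filter ℕ) ≤ atTop)
    (s : (H →L[ℂ] H) ⊗[ℂ] (H →L[ℂ] H))
    (hs : s ∉ Submodule.span ℂ {t : (H →L[ℂ] H) ⊗[ℂ] (H →L[ℂ] H) |
      ∃ x y : H →L[ℂ] H, IsCompactOperator y ∧ t = x ⊗ₜ y}) :
    ∃ (ξ : H) (η : ℕ → H), (∀ n, ‖η n‖ ≤ 1) ∧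
      (∀ x : H, Tendsto (fun n => (inner ℂ x (η n) : ℂ)) atTop (𝓝 0)) ∧
      ¬ Tendsto (fun n => ‖R s (ξ ⊗ₜ[ℂ] η n)‖) (V : Filter ℕ) (𝓝 0) := by
  classical
  let e := Module.Basis.ofVectorSpace ℂ (H →L[ℂ] H)
  obtain ⟨c, hc⟩ := TensorProduct.eq_repr_basis_left e s
  have hex : ∃ i ∈ c.support, ¬ IsCompactOperator (c i) := by
    by_contra hcon
    push Not at hcon
    apply hs
    rw [← hc]
    exact Submodule.sum_mem _ fun i hi => Submodule.subset_span ⟨e i, c i, hcon i hi, rfl⟩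
  obtain ⟨i0, hi0, hnc⟩ := hex
  obtain ⟨η, δ, hδ, hη1, hη2, hη3⟩ := exists_weak_null hnc
  by_contra hcon
  push Not at hcon
  have H0 : ∀ ξ : H, Tendsto (fun n => ‖R s (ξ ⊗ₜ[ℂ] η n)‖) (V : Filter ℕ) (𝓝 0) :=
    fun ξ => hcon ξ η hη1 hη3
  have hu : ∀ n, ‖c i0 (η n)‖ ≤ ‖c i0‖ := fun n =>
    ((c i0).le_opNorm _).trans (by nlinarith [norm_nonneg (c i0), hη1 n])
  have hm : ∀ i, ∃ m, Tendsto (fun n => (inner ℂ (c i0 (η n)) (c i (η n)) : ℂ)) (V : Filter ℕ)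
      (𝓝 m) := by
    intro i
    refine cn_ultra_lim V _ (‖c i0‖ * ‖c i‖) fun n => ?_
    refine (norm_inner_le_norm (𝕜 := ℂ) _ _).trans ?_
    have h1 : ‖c i (η n)‖ ≤ ‖c i‖ := ((c i).le_opNorm _).trans (by nlinarith [norm_nonneg (c i), hη1 n])
    exact mul_le_mul (hu n) h1 (norm_nonneg _) (norm_nonneg _)
  choose m hm using hm
  have hsum : ∀ ξ ξ1 : H, ∑ i ∈ c.support, m i * inner ℂ ξ1 (e i ξ) = 0 := by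
    intro ξ ξ1
    have hA : Tendsto (fun n => (inner ℂ (ξ1 ⊗ₜ[ℂ] c i0 (η n)) (R s (ξ ⊗ₜ[ℂ] η n)) : ℂ))
        (V : Filter ℕ) (𝓝 0) := by
      rw [tendsto_zero_iff_norm_tendsto_zero]
      have h2 : Tendsto (fun n => (‖ξ1‖ * ‖c i0‖) * ‖R s (ξ ⊗ₜ[ℂ] η n)‖) (V : Filter ℕ) (𝓝 0) := by
        simpa using (H0 ξ).const_mul (‖ξ1‖ * ‖c i0‖)
      refine squeeze_zero (fun n => norm_nonneg _) (fun n => ?_) h2
      refine (norm_inner_le_norm (𝕜 := ℂ) (ξ1 ⊗ₜ[ℂ] c i0 (η n)) (R s (ξ ⊗ₜ[ℂ] η n))).trans ?_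
      rw [TensorProduct.norm_tmul]
      exact mul_le_mul_of_nonneg_right (mul_le_mul_of_nonneg_left (hu n) (norm_nonneg _))
        (norm_nonneg _)
    have hB : Tendsto (fun n => (inner ℂ (ξ1 ⊗ₜ[ℂ] c i0 (η n)) (R s (ξ ⊗ₜ[ℂ] η n)) : ℂ))
        (V : Filter ℕ) (𝓝 (∑ i ∈ c.support, inner ℂ ξ1 (e i ξ) * m i)) := by
      have h3 : ∀ n, (inner ℂ (ξ1 ⊗ₜ[ℂ] c i0 (η n)) (R s (ξ ⊗ₜ[ℂ] η n)) : ℂ) =
          ∑ i ∈ c.support, inner ℂ ξ1 (e i ξ) * inner ℂ (c i0 (η n)) (c i (η n)) := by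
        intro n
        rw [← hc, Finsupp.sum, map_sum, LinearMap.sum_apply, inner_sum]
        refine Finset.sum_congr rfl fun i _ => ?_
        rw [R_tmul, TensorProduct.map_tmul, TensorProduct.inner_tmul]
        rfl
      simp only [h3]
      exact tendsto_finsetSum _ fun i _ => (hm i).const_mul _
    have h4 := tendsto_nhds_unique hB hA
    rw [← h4]
    exact Finset.sum_congr rfl fun i _ => mul_comm _ _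
  have hzero : ∑ i ∈ c.support, m i • e i = 0 := by
    ext ξ
    refine ext_inner_left ℂ fun ξ1 => ?_
    rw [_root_.sum_apply, inner_sum]
    simp only [_root_.smul_apply, inner_smul_right, _root_.zero_apply,
      inner_zero_right]
    exact hsum ξ ξ1
  have hm0 : m i0 = 0 := linearIndependent_iff'.mp e.linearIndependent c.support m hzero i0 hi0
  have h5 : Tendsto (fun n => (inner ℂ (c i0 (η n)) (c i0 (η n)) : ℂ).re) (V : Filter ℕ) (𝓝 0) := by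
    have h6 := (Complex.continuous_re.tendsto _).comp (hm i0)
    rw [hm0, Complex.zero_re] at h6
    exact h6
  have h7 : δ ^ 2 ≤ 0 := by
    refine ge_of_tendsto h5 (Filter.Eventually.of_forall fun n => ?_)
    have h8 : (inner ℂ (c i0 (η n)) (c i0 (η n)) : ℂ).re = ‖c i0 (η n)‖ ^ 2 :=
      inner_self_eq_norm_sq (𝕜 := ℂ) _
    rw [h8]
    have := hη2 n
    nlinarith
  nlinarith

end Pool.Agent.Helper965.CN
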