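import Pool.Agent.Helper965.O2.Base
import Pool.Agent.Helper965.O2.PS
import Pool.Agent.Helper965.O2.QE
import Pool.Agent.Helper965.CN.Base
set_option autoImplicit false
open scoped BigOperators Matrix ComplexOrder

namespace Pool.Agent.Helper965.CN
open Pool.Agent.Helper965.O2 (hs w)

open Pool.Agent.Helper965.O2 (hs_mul_right hs_mul_left hs_neg hs_nonneg exists_diag hs_hermitian
  trace_le_card exists_sqrt qe w_mem)

theorem sum_unitary {n : Type} [Fintype n] [DecidableEq n] {U : Matrix n n ℂ} (hU : Uᴴ * U = 1)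
    (v : n → ℂ) : ∑ s, ‖(U.mulVec v) s‖ ^ 2 = ∑ s, ‖v s‖ ^ 2 := by
  have h := hs_mul_left (Matrix.of fun (i : n) (_ : Unit) => v i) hU
  unfold hs at h
  simp only [Finset.univ_unique, Finset.sum_singleton, Matrix.of_apply] at h
  rw [← h]
  apply Finset.sum_congr rfl
  intro s _
  rw [Matrix.mul_apply]
  rfl

theorem isContr_zero_low {n : Type} [Fintype n] : IsContr (0 : Matrix n n ℂ) := by
  intro v
  simp only [Matrix.zero_mulVec, Pi.zero_apply, norm_zero]
  refine le_trans (le_of_eq ?_) (Finset.sum_nonneg fun s _ => sq_nonneg ‖v s‖)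
  simp

theorem isContr_sign {n : Type} [Fintype n] [DecidableEq n] {U : Matrix n n ℂ} (hU1 : Uᴴ * U = 1)
    (hU2 : U * Uᴴ = 1) (c : n → ℂ) (hc : ∀ j, ‖c j‖ ≤ 1) :
    IsContr (U * Matrix.diagonal c * Uᴴ) := by
  intro v
  have h1 : (U * Matrix.diagonal c * Uᴴ).mulVec v =
      U.mulVec ((Matrix.diagonal c).mulVec (Uᴴ.mulVec v)) := by
    rw [Matrix.mulVec_mulVec, Matrix.mulVec_mulVec, Matrix.mul_assoc]
  rw [h1, sum_unitary hU1]
  have hU3 : (Uᴴ)ᴴ * Uᴴ = 1 := by rw [Matrix.conjTranspose_conjTranspose]; exact hU2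
  rw [← sum_unitary hU3 v]
  apply Finset.sum_le_sum
  intro s _
  rw [Matrix.mulVec_diagonal, norm_mul]
  have := hc s
  have h2 : ‖c s‖ * ‖(Uᴴ.mulVec v) s‖ ≤ 1 * ‖(Uᴴ.mulVec v) s‖ := by gcongr
  rw [one_mul] at h2
  gcongr

theorem sign_lemma {n : Type} [Fintype n] [DecidableEq n] (a b : Matrix n n ℂ)
    (ha : a.PosSemidef) (hb : b.PosSemidef) :
    ∃ z : Matrix n n ℂ, IsContr z ∧ hs (b - a) ≤ (((b * b - a * a) * z).trace).re := by
  have hH : (b - a).IsHermitian := hb.1.sub ha.1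
  obtain ⟨U, hU1, hU2, hU3⟩ := exists_diag hH
  let c : n → ℂ := fun j => if hH.eigenvalues j < 0 then -1 else 1
  refine ⟨U * Matrix.diagonal c * Uᴴ, isContr_sign hU1 hU2 c ?_, ?_⟩
  · intro j
    simp only [c]
    split_ifs <;> simp
  have htr : ((b * b - a * a) * (U * Matrix.diagonal c * Uᴴ)).trace =
      ∑ j, (Uᴴ * (b * b - a * a) * U) j j * c j := by
    have e1 : ((b * b - a * a) * (U * Matrix.diagonal c * Uᴴ)).trace =
        ((Uᴴ * (b * b - a * a) * U) * Matrix.diagonal c).trace := by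
      rw [← Matrix.mul_assoc, Matrix.trace_mul_comm, ← Matrix.mul_assoc, ← Matrix.mul_assoc]
    rw [e1, Matrix.trace]
    apply Finset.sum_congr rfl
    intro j _
    rw [Matrix.diag_apply, Matrix.mul_diagonal]
  rw [htr, Complex.re_sum, hs_hermitian hH]
  apply Finset.sum_le_sum
  intro j _
  have hb' : (Uᴴ * b * U).PosSemidef := hb.conjTranspose_mul_mul_same U
  have ha' : (Uᴴ * a * U).PosSemidef := ha.conjTranspose_mul_mul_same U
  have hbj := hb'.diag_nonneg (i := j)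
  have haj := ha'.diag_nonneg (i := j)
  have hD : Uᴴ * b * U - Uᴴ * a * U =
      Matrix.diagonal (fun i => ((hH.eigenvalues i : ℝ) : ℂ)) := by
    rw [← hU3, Matrix.mul_sub, Matrix.sub_mul]
  have hprod : Uᴴ * (b * b - a * a) * U = (Uᴴ * b * U) *
      Matrix.diagonal (fun i => ((hH.eigenvalues i : ℝ) : ℂ)) +
      Matrix.diagonal (fun i => ((hH.eigenvalues i : ℝ) : ℂ)) * (Uᴴ * a * U) := by
    have e3 : ∀ c c' : Matrix n n ℂ, (Uᴴ * c * U) * (Uᴴ * c' * U) = Uᴴ * (c * c') * U := by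
      intro c c'
      have : (Uᴴ * c * U) * (Uᴴ * c' * U) = Uᴴ * c * (U * Uᴴ) * c' * U := by
        simp only [Matrix.mul_assoc]
      rw [this, hU2, Matrix.mul_one]
      simp only [Matrix.mul_assoc]
    rw [← hD, Matrix.mul_sub (Uᴴ * b * U), Matrix.sub_mul (Uᴴ * b * U) _ (Uᴴ * a * U), e3, e3, e3,
      Matrix.mul_sub, Matrix.sub_mul]
    abel
  have hDj := congrFun (congrFun hD j) j
  rw [Matrix.sub_apply, Matrix.diagonal_apply_eq] at hDj
  rw [hprod, Matrix.add_apply, Matrix.mul_diagonal, Matrix.diagonal_mul]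
  simp only [c]
  obtain ⟨β, hβ⟩ : ∃ β, β = (Uᴴ * b * U) j j := ⟨_, rfl⟩
  obtain ⟨γ, hγ⟩ : ∃ γ, γ = (Uᴴ * a * U) j j := ⟨_, rfl⟩
  obtain ⟨l, hl⟩ : ∃ l, l = hH.eigenvalues j := ⟨_, rfl⟩
  rw [← hβ, ← hγ, ← hl] at hDj
  rw [← hβ] at hbj
  rw [← hγ] at haj
  rw [← hβ, ← hγ, ← hl]
  obtain ⟨hβ1, hβ2⟩ := Complex.le_def.1 hbj
  obtain ⟨hγ1, hγ2⟩ := Complex.le_def.1 haj
  simp only [Complex.zero_re, Complex.zero_im] at hβ1 hβ2 hγ1 hγ2
  have hβr : β = (β.re : ℂ) := Complex.ext (by simp) (by simp [← hβ2])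
  have hγr : γ = (γ.re : ℂ) := Complex.ext (by simp) (by simp [← hγ2])
  have hlr : l = β.re - γ.re := by
    have := congrArg Complex.re hDj
    simpa using this.symm
  have e4 : β * (l : ℂ) + (l : ℂ) * γ = ((l * (β.re + γ.re) : ℝ) : ℂ) := by
    rw [hβr, hγr]; push_cast; simp; ring
  rw [e4]
  split_ifs with hneg
  · have e5 : (((l * (β.re + γ.re) : ℝ) : ℂ) * (-1)).re = -(l * (β.re + γ.re)) := by
      rw [mul_neg_one, Complex.neg_re, Complex.ofReal_re]
    rw [e5]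
    nlinarith
  · have e5 : (((l * (β.re + γ.re) : ℝ) : ℂ) * 1).re = l * (β.re + γ.re) := by
      rw [mul_one, Complex.ofReal_re]
    rw [e5]
    push Not at hneg
    nlinarith

/-- TARGET. A low rank positive matrix `yᴴ * y` is moved by one of the three unitaries, with a
witness contraction. -/
theorem low_rank (k : ℕ) {κ : Type} [Fintype κ] [DecidableEq κ]
    (hκ : 2 * Fintype.card κ < 2 * k + 1) (y : Matrix κ (Bl k) ℂ) :
    ∃ z : Fin 3 → Matrix (Bl k) (Bl k) ℂ, (∀ i, IsContr (z i)) ∧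
      hs y / 2500 ≤
        ∑ i, ((y * ((w (2 * k + 1) i)ᴴ * z i * w (2 * k + 1) i - z i) * yᴴ).trace).re := by
  obtain ⟨a, ha, hay, hsa⟩ := exists_sqrt y
  rcases (hs_nonneg y).eq_or_lt with h0 | hpos
  · refine ⟨fun _ => 0, fun _ => isContr_zero_low, ?_⟩
    rw [← h0]
    simp
  have hex : ∃ i : Fin 3, hs y / 2500 < hs ((w (2 * k + 1) i)ᴴ * a * w (2 * k + 1) i - a) := by
    by_contra hcon
    push Not at hcon
    have hle : ∀ i : Fin 3, hs ((w (2 * k + 1) i)ᴴ * a * w (2 * k + 1) i - a) ≤ (1 / 2500) * hs a := by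
      intro i
      rw [hsa]
      have := hcon i
      linarith
    have h1 := qe (2 * k + 1) ⟨k, rfl⟩ a (hle 0) (hle 1) (hle 2)
    have h2 := trace_le_card a y ha hay
    have h3 : (2 * (Fintype.card κ : ℝ)) < ((2 * k + 1 : ℕ) : ℝ) := by exact_mod_cast hκ
    rw [hsa] at h1 h2
    nlinarith
  obtain ⟨i, hi⟩ := hex
  obtain ⟨W, hW⟩ : ∃ W, W = w (2 * k + 1) i := ⟨_, rfl⟩
  rw [← hW] at hi
  have hWm : W ∈ Matrix.unitaryGroup (Bl k) ℂ := by rw [hW]; exact w_mem _ i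
  have hw1 : W * Wᴴ = 1 := (Matrix.mem_unitaryGroup_iff).1 hWm
  have hw2 : Wᴴ * W = 1 := (Matrix.mem_unitaryGroup_iff').1 hWm
  have hb : (W * a * Wᴴ).PosSemidef := ha.mul_mul_conjTranspose_same W
  obtain ⟨z, hz1, hz2⟩ := sign_lemma a (W * a * Wᴴ) ha hb
  have hhs : hs (W * a * Wᴴ - a) = hs (Wᴴ * a * W - a) := by
    have e1 : Wᴴ * a * W - a = Wᴴ * (a * W - W * a) := by
      rw [Matrix.mul_sub, ← Matrix.mul_assoc, ← Matrix.mul_assoc, hw2, Matrix.one_mul]
    have e2 : W * a * Wᴴ - a = (W * a - a * W) * Wᴴ := by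
      rw [Matrix.sub_mul, Matrix.mul_assoc a W, hw1, Matrix.mul_one]
    rw [e1, e2, hs_mul_right _ (U := Wᴴ) (by rw [Matrix.conjTranspose_conjTranspose]; exact hw2),
      hs_mul_left _ (U := Wᴴ) (by rw [Matrix.conjTranspose_conjTranspose]; exact hw1), ← hs_neg]
    congr 1
    abel
  refine ⟨fun j => if j = i then z else 0, ?_, ?_⟩
  · intro j
    dsimp only
    split_ifs
    · exact hz1
    · exact isContr_zero_low
  · rw [Finset.sum_eq_single i]
    · dsimp only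
      rw [if_pos rfl, ← hW]
      have htr : (y * (Wᴴ * z * W - z) * yᴴ).trace =
          (((W * a * Wᴴ) * (W * a * Wᴴ) - a * a) * z).trace := by
        have e1 : (y * (Wᴴ * z * W - z) * yᴴ).trace = ((yᴴ * y) * (Wᴴ * z * W - z)).trace := by
          rw [Matrix.trace_mul_comm, ← Matrix.mul_assoc]
        have e2 : (W * a * Wᴴ) * (W * a * Wᴴ) = W * (a * a) * Wᴴ := by
          have : (W * a * Wᴴ) * (W * a * Wᴴ) = W * a * (Wᴴ * W) * a * Wᴴ := by
            simp only [Matrix.mul_assoc]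
          rw [this, hw2, Matrix.mul_one]
          simp only [Matrix.mul_assoc]
        rw [e1, e2, ← hay, Matrix.mul_sub, Matrix.sub_mul, Matrix.trace_sub, Matrix.trace_sub]
        congr 1
        rw [← Matrix.mul_assoc, Matrix.trace_mul_comm]
        congr 1
        simp only [Matrix.mul_assoc]
      rw [htr]
      rw [hhs] at hz2
      linarith
    · intro j _ hj
      dsimp only
      rw [if_neg hj]
      simp
    · intro h; exact absurd (Finset.mem_univ i) h

end Pool.Agent.Helper965.CN
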