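import Mathlib
set_option autoImplicit false
open scoped BigOperators
open Filter Topology

namespace Pool.Agent.Helper965.CN

theorem exists_common_fin {E : Type} [AddCommGroup E] [Module ℝ E] [TopologicalSpace E]
    [IsTopologicalAddGroup E] [ContinuousSMul ℝ E] (Z : Set E) (hZc : IsCompact Z)
    (hZ : Convex ℝ Z) (hne : Z.Nonempty) {J : Type} (f : J → E → ℝ)
    (hf : ∀ j, ContinuousOn (f j) Z) (hcv : ∀ j, ConcaveOn ℝ Z (f j)) (κ : ℝ)
    (h : ∀ (F : Finset J) (c : J → ℝ), (∀ j, 0 ≤ c j) → ∑ j ∈ F, c j = 1 →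
      ∃ z ∈ Z, κ ≤ ∑ j ∈ F, c j * f j z) (F : Finset J) (hF : F.Nonempty) :
    ∃ z ∈ Z, ∀ j ∈ F, κ ≤ f j z := by
  classical
  have hFn : Nonempty F := hF.coe_sort
  have hXne : (stdSimplex ℝ F).Nonempty := ⟨_, single_mem_stdSimplex ℝ (Classical.arbitrary F)⟩
  have key := Sion.exists_isSaddlePointOn (E := F → ℝ) (F := E) (X := stdSimplex ℝ F) (Y := Z)
    (f := fun c z => ∑ j : F, c j * f j z) hXne (convex_stdSimplex ℝ F) (isCompact_stdSimplex ℝ F)
    (fun z _ => by
      apply ContinuousOn.lowerSemicontinuousOn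
      apply Continuous.continuousOn
      fun_prop)
    (fun z _ => by
      apply ConvexOn.quasiconvexOn
      refine ⟨convex_stdSimplex ℝ F, fun x _ y _ a b _ _ _ => ?_⟩
      apply le_of_eq
      simp only [Pi.add_apply, Pi.smul_apply, smul_eq_mul, Finset.mul_sum,
        ← Finset.sum_add_distrib]
      exact Finset.sum_congr rfl fun j _ => by ring)
    hZ hne hZc
    (fun c _ => by
      apply ContinuousOn.upperSemicontinuousOn
      exact continuousOn_finsetSum _ fun j _ => continuousOn_const.mul (hf j))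
    (fun c hc => by
      apply ConcaveOn.quasiconcaveOn
      refine ⟨hZ, fun x hx y hy a b ha hb hab => ?_⟩
      simp only [smul_eq_mul, Finset.mul_sum, ← Finset.sum_add_distrib]
      refine Finset.sum_le_sum fun j _ => ?_
      have h1 := (hcv j).2 hx hy ha hb hab
      simp only [smul_eq_mul] at h1
      have h2 := mul_le_mul_of_nonneg_left h1 (hc.1 j)
      linarith)
  obtain ⟨c0, hc0, z0, hz0, hs⟩ := key
  refine ⟨z0, hz0, fun j hj => ?_⟩
  obtain ⟨z, hz, hk⟩ := h F (fun j => if hj : j ∈ F then c0 ⟨j, hj⟩ else 0)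
    (fun j => by
      by_cases hj : j ∈ F
      · simp only [hj, dif_pos]; exact hc0.1 _
      · simp only [hj, dif_neg, not_false_eq_true]; exact le_rfl)
    (by
      rw [← Finset.sum_coe_sort]
      refine Eq.trans (Finset.sum_congr rfl fun i _ => ?_) hc0.2
      rw [dif_pos i.2])
  have h3 := hs (Pi.single ⟨j, hj⟩ 1) (single_mem_stdSimplex ℝ _) z hz
  have h4 : ∑ i : F, (Pi.single (⟨j, hj⟩ : F) (1 : ℝ) : F → ℝ) i * f i z0 = f j z0 := by
    rw [Finset.sum_eq_single (⟨j, hj⟩ : F)]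
    · simp
    · intro b _ hb
      rw [Pi.single_eq_of_ne hb, zero_mul]
    · simp
  have h5 : ∑ i ∈ F, (if hj : i ∈ F then c0 ⟨i, hj⟩ else 0) * f i z = ∑ i : F, c0 i * f i z := by
    rw [← Finset.sum_coe_sort]
    refine Finset.sum_congr rfl fun i _ => ?_
    rw [dif_pos i.2]
  simp only at h3
  rw [h4, ← h5] at h3
  exact hk.trans h3

/-- TARGET. Minimax plus compactness (Ky Fan): if every finite convex combination of the
functions `f j` reaches the value `κ` on the compact convex set `Z`, then one point of `Z` is good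
for all `j` at once. -/
theorem exists_common {E : Type} [AddCommGroup E] [Module ℝ E] [TopologicalSpace E]
    [IsTopologicalAddGroup E] [ContinuousSMul ℝ E] (Z : Set E) (hZc : IsCompact Z)
    (hZ : Convex ℝ Z) (hne : Z.Nonempty) {J : Type} (f : J → E → ℝ)
    (hf : ∀ j, ContinuousOn (f j) Z) (hcv : ∀ j, ConcaveOn ℝ Z (f j)) (κ : ℝ)
    (h : ∀ (F : Finset J) (c : J → ℝ), (∀ j, 0 ≤ c j) → ∑ j ∈ F, c j = 1 →
      ∃ z ∈ Z, κ ≤ ∑ j ∈ F, c j * f j z) :
    ∃ z ∈ Z, ∀ j, κ ≤ f j z := by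
  classical
  have hc : CompactSpace Z := isCompact_iff_compactSpace.mp hZc
  have hcl : ∀ j, IsClosed {z : Z | κ ≤ f j z} := fun j =>
    isClosed_le continuous_const (continuousOn_iff_continuous_domRestrict.1 (hf j))
  have key : (⋂ j, {z : Z | κ ≤ f j z}).Nonempty := by
    apply CompactSpace.iInter_nonempty hcl
    intro F
    rcases F.eq_empty_or_nonempty with rfl | hF
    · obtain ⟨z, hz⟩ := hne
      exact ⟨⟨z, hz⟩, by simp⟩
    · obtain ⟨z, hz, hz'⟩ := exists_common_fin Z hZc hZ hne f hf hcv κ h F hF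
      exact ⟨⟨z, hz⟩, by simpa using hz'⟩
  obtain ⟨z, hz⟩ := key
  exact ⟨z.1, z.2, fun j => by
    have := Set.mem_iInter.1 hz j
    exact this⟩

end Pool.Agent.Helper965.CN
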