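import Pool.Agent.Helper965.O2.Base
import Pool.Agent.Helper965.O2.PS
import Pool.Agent.Helper965.CN.Base
import Pool.Agent.Helper965.CN.Low
import Pool.Agent.Helper965.CN.Sion
set_option autoImplicit false
set_option linter.unusedSectionVars false
open scoped TensorProduct ComplexOrder BigOperators Matrix InnerProductSpace
open Filter Topology

namespace Pool.Agent.Helper965.CN
open Pool.Agent.Helper965.O2 (hs w w_mem)

variable {H : Type} [NormedAddCommGroup H] [InnerProductSpace ℂ H] [CompleteSpace H]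

theorem isContr_zero_mm {n : Type} [Fintype n] : IsContr (0 : Matrix n n ℂ) := by
  intro v
  simp
  positivity

theorem isContr_entry {n : Type} [Fintype n] [DecidableEq n] {z : Matrix n n ℂ} (hz : IsContr z)
    (a b : n) : ‖z a b‖ ≤ 1 := by
  have h := hz (Pi.single b 1)
  have h1 : ∑ s, ‖(Pi.single b 1 : n → ℂ) s‖ ^ 2 = 1 := by
    rw [Finset.sum_eq_single b]
    · simp
    · intro c _ hc
      simp [Pi.single_eq_of_ne hc]
    · simp
  rw [h1] at h
  have h2 : ‖(z.mulVec (Pi.single b 1)) a‖ ^ 2 ≤ ∑ s, ‖(z.mulVec (Pi.single b 1)) s‖ ^ 2 :=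
    Finset.single_le_sum (f := fun s => ‖(z.mulVec (Pi.single b 1)) s‖ ^ 2)
      (fun s _ => by positivity) (Finset.mem_univ a)
  have h3 : (z.mulVec (Pi.single b 1)) a = z a b := by
    rw [Matrix.mulVec_single_one]
    rfl
  rw [h3] at h2
  have h4 : ‖z a b‖ ^ 2 ≤ 1 := h2.trans h
  exact (sq_le_one_iff₀ (norm_nonneg _)).1 h4

theorem isContr_compact {n : Type} [Fintype n] [DecidableEq n] :
    IsCompact {z : Matrix n n ℂ | IsContr z} := by
  have hK : IsCompact (Set.pi Set.univ (fun _ : n => Set.pi Set.univ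
      (fun _ : n => Metric.closedBall (0:ℂ) 1)) : Set (n → n → ℂ)) :=
    isCompact_univ_pi fun _ => isCompact_univ_pi fun _ => isCompact_closedBall 0 1
  refine IsCompact.of_isClosed_subset hK ?_ ?_
  · have : {z : Matrix n n ℂ | IsContr z} =
        ⋂ v : n → ℂ, {z : Matrix n n ℂ | ∑ s, ‖(z.mulVec v) s‖ ^ 2 ≤ ∑ s, ‖v s‖ ^ 2} := by
      ext z; simp [IsContr]
    rw [this]
    refine isClosed_iInter fun v => isClosed_le ?_ continuous_const
    refine continuous_finset_sum _ fun s _ => ?_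
    refine Continuous.pow (Continuous.norm ?_) 2
    simp only [Matrix.mulVec, dotProduct]
    refine continuous_finset_sum _ fun t _ => ?_
    exact (continuous_id.matrix_elem s t).mul continuous_const
  · intro z hz a _ b _
    rw [Metric.mem_closedBall, dist_zero_right]
    exact isContr_entry hz a b

theorem isContr_convex {n : Type} [Fintype n] {z z' : Matrix n n ℂ} (hz : IsContr z)
    (hz' : IsContr z') {a b : ℝ} (ha : 0 ≤ a) (hb : 0 ≤ b) (hab : a + b = 1) :
    IsContr (a • z + b • z') := by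
  intro v
  have h1 : ∀ s, ‖((a • z + b • z').mulVec v) s‖ ^ 2 ≤
      a * ‖(z.mulVec v) s‖ ^ 2 + b * ‖(z'.mulVec v) s‖ ^ 2 := by
    intro s
    have h2 : ((a • z + b • z').mulVec v) s = (a:ℂ) * (z.mulVec v) s + (b:ℂ) * (z'.mulVec v) s := by
      rw [Matrix.add_mulVec, Matrix.smul_mulVec, Matrix.smul_mulVec]
      simp
    have h3 : ‖((a • z + b • z').mulVec v) s‖ ≤ a * ‖(z.mulVec v) s‖ + b * ‖(z'.mulVec v) s‖ := by
      rw [h2]
      refine (norm_add_le _ _).trans ?_
      rw [norm_mul, norm_mul, Complex.norm_real, Complex.norm_real, Real.norm_eq_abs,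
        Real.norm_eq_abs, abs_of_nonneg ha, abs_of_nonneg hb]
    have h4 : ‖((a • z + b • z').mulVec v) s‖ ^ 2 ≤
        (a * ‖(z.mulVec v) s‖ + b * ‖(z'.mulVec v) s‖) ^ 2 := by gcongr
    refine h4.trans ?_
    have h5 : b = 1 - a := by linarith
    subst h5
    nlinarith [mul_nonneg ha hb, sq_nonneg (‖(z.mulVec v) s‖ - ‖(z'.mulVec v) s‖),
      mul_nonneg (mul_nonneg ha hb) (sq_nonneg (‖(z.mulVec v) s‖ - ‖(z'.mulVec v) s‖))]
  refine (Finset.sum_le_sum fun s _ => h1 s).trans ?_
  rw [Finset.sum_add_distrib, ← Finset.mul_sum, ← Finset.mul_sum]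
  have h6 := hz v
  have h7 := hz' v
  have h8 := mul_le_mul_of_nonneg_left h6 ha
  have h9 := mul_le_mul_of_nonneg_left h7 hb
  have h10 : a * ∑ s, ‖v s‖ ^ 2 + b * ∑ s, ‖v s‖ ^ 2 = ∑ s, ‖v s‖ ^ 2 := by
    rw [← add_mul, hab, one_mul]
  linarith

theorem trace_bound {κ n : Type} [Fintype κ] [Fintype n] {z : Matrix n n ℂ} (hz : IsContr z)
    (y : Matrix κ n ℂ) : |((y * z * yᴴ).trace).re| ≤ hs y := by
  have h1 : (y * z * yᴴ).trace = ∑ a, ∑ t, y a t * (z.mulVec (fun s => star (y a s))) t := by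
    rw [Matrix.trace]
    refine Finset.sum_congr rfl fun a _ => ?_
    rw [Matrix.diag_apply, Matrix.mul_assoc, Matrix.mul_apply]
    refine Finset.sum_congr rfl fun t _ => ?_
    rw [Matrix.mul_apply]
    rfl
  rw [h1]
  refine (Complex.abs_re_le_norm _).trans ?_
  refine (norm_sum_le _ _).trans ?_
  unfold hs
  refine Finset.sum_le_sum fun a _ => ?_
  refine (norm_sum_le _ _).trans ?_
  have h2 : ∀ t, ‖y a t * (z.mulVec (fun s => star (y a s))) t‖ ≤
      (‖y a t‖ ^ 2 + ‖(z.mulVec (fun s => star (y a s))) t‖ ^ 2) / 2 := by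
    intro t
    rw [norm_mul]
    nlinarith [sq_nonneg (‖y a t‖ - ‖(z.mulVec (fun s => star (y a s))) t‖)]
  refine (Finset.sum_le_sum fun t _ => h2 t).trans ?_
  rw [← Finset.sum_div, Finset.sum_add_distrib]
  have h3 := hz (fun s => star (y a s))
  simp only [norm_star] at h3
  linarith

/-- the functional -/
noncomputable def LL (k : ℕ) {κ : Type} [Fintype κ] (y : Matrix κ (Bl k) ℂ)
    (z : Fin 3 → Matrix (Bl k) (Bl k) ℂ) : ℝ :=
  ∑ i, ((y * ((w (2 * k + 1) i)ᴴ * z i * w (2 * k + 1) i - z i) * yᴴ).trace).re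

theorem LL_bound (k : ℕ) {κ : Type} [Fintype κ] (y : Matrix κ (Bl k) ℂ)
    {z : Fin 3 → Matrix (Bl k) (Bl k) ℂ} (hz : ∀ i, IsContr (z i)) : |LL k y z| ≤ 6 * hs y := by
  classical
  unfold LL
  have h1 : ∀ i, |((y * ((w (2 * k + 1) i)ᴴ * z i * w (2 * k + 1) i - z i) * yᴴ).trace).re| ≤
      2 * hs y := by
    intro i
    have h2 : y * ((w (2 * k + 1) i)ᴴ * z i * w (2 * k + 1) i - z i) * yᴴ =
        (y * (w (2 * k + 1) i)ᴴ) * z i * (y * (w (2 * k + 1) i)ᴴ)ᴴ - y * z i * yᴴ := by
      rw [Matrix.conjTranspose_mul, Matrix.conjTranspose_conjTranspose]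
      simp only [Matrix.mul_sub, Matrix.sub_mul, Matrix.mul_assoc]
    rw [h2, Matrix.trace_sub, Complex.sub_re]
    have h3 := trace_bound (hz i) (y * (w (2 * k + 1) i)ᴴ)
    have h4 := trace_bound (hz i) y
    have h5 : hs (y * (w (2 * k + 1) i)ᴴ) = hs y := by
      refine Pool.Agent.Helper965.O2.hs_mul_right y ?_
      have := w_mem (2 * k + 1) i
      rw [Matrix.mem_unitaryGroup_iff'] at this
      rw [Matrix.conjTranspose_conjTranspose]
      exact this
    rw [h5] at h3
    rw [abs_le] at *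
    constructor <;> linarith [h3.1, h3.2, h4.1, h4.2]
  refine (Finset.abs_sum_le_sum_abs _ _).trans ?_
  refine (Finset.sum_le_sum fun i _ => h1 i).trans ?_
  simp
  linarith

theorem LL_lin (k : ℕ) {κ : Type} [Fintype κ] (y : Matrix κ (Bl k) ℂ)
    (z z' : Fin 3 → Matrix (Bl k) (Bl k) ℂ) (a b : ℝ) :
    LL k y (a • z + b • z') = a * LL k y z + b * LL k y z' := by
  unfold LL
  rw [Finset.mul_sum, Finset.mul_sum, ← Finset.sum_add_distrib]
  refine Finset.sum_congr rfl fun i _ => ?_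
  have h : y * ((w (2 * k + 1) i)ᴴ * (a • z + b • z') i * w (2 * k + 1) i - (a • z + b • z') i) * yᴴ
      = (a:ℂ) • (y * ((w (2 * k + 1) i)ᴴ * z i * w (2 * k + 1) i - z i) * yᴴ)
      + (b:ℂ) • (y * ((w (2 * k + 1) i)ᴴ * z' i * w (2 * k + 1) i - z' i) * yᴴ) := by
    have e1 : (a • z + b • z') i = (a:ℂ) • z i + (b:ℂ) • z' i := by
      simp
    rw [e1]
    simp only [Matrix.mul_add, Matrix.add_mul, Matrix.mul_smul, Matrix.smul_mul, Matrix.mul_sub,
      Matrix.sub_mul, smul_sub]
    abel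
  rw [h, Matrix.trace_add, Matrix.trace_smul, Matrix.trace_smul]
  simp

theorem LL_cont (k : ℕ) {κ : Type} [Fintype κ] (y : Matrix κ (Bl k) ℂ) :
    Continuous (LL k y) := by
  unfold LL
  refine continuous_finset_sum _ fun i _ => ?_
  refine Complex.continuous_re.comp ?_
  refine Continuous.matrix_trace ?_
  refine Continuous.matrix_mul ?_ continuous_const
  refine Continuous.matrix_mul continuous_const ?_
  refine Continuous.sub ?_ (continuous_apply i)
  refine Continuous.matrix_mul ?_ continuous_const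
  exact Continuous.matrix_mul continuous_const (continuous_apply i)

/-- block matrix -/
noncomputable def blk {α : Type} {β : α → Type} {n : Type} (c : α → ℝ)
    (Y : ∀ a, Matrix (β a) n ℂ) : Matrix (Σ a, β a) n ℂ :=
  fun x s => ((Real.sqrt (c x.1) : ℝ) : ℂ) * Y x.1 x.2 s

theorem trace_blk {α : Type} {β : α → Type} {n : Type} [Fintype α] [∀ a, Fintype (β a)]
    [Fintype n] (c : α → ℝ) (hc : ∀ a, 0 ≤ c a) (Y : ∀ a, Matrix (β a) n ℂ) (M : Matrix n n ℂ) :
    (blk c Y * M * (blk c Y)ᴴ).trace = ∑ a, (c a : ℂ) * (Y a * M * (Y a)ᴴ).trace := by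
  rw [Matrix.trace, Fintype.sum_sigma]
  refine Finset.sum_congr rfl fun a _ => ?_
  rw [Matrix.trace, Finset.mul_sum]
  refine Finset.sum_congr rfl fun x _ => ?_
  rw [Matrix.diag_apply, Matrix.diag_apply, Matrix.mul_apply, Matrix.mul_apply, Finset.mul_sum]
  refine Finset.sum_congr rfl fun s _ => ?_
  rw [Matrix.mul_apply, Matrix.mul_apply, Matrix.conjTranspose_apply, Matrix.conjTranspose_apply]
  have e1 : ∑ t, blk c Y ⟨a, x⟩ t * M t s = ((Real.sqrt (c a) : ℝ) : ℂ) * ∑ t, Y a x t * M t s := by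
    rw [Finset.mul_sum]
    refine Finset.sum_congr rfl fun t _ => ?_
    unfold blk
    ring
  have e2 : star (blk c Y ⟨a, x⟩ s) = ((Real.sqrt (c a) : ℝ) : ℂ) * star (Y a x s) := by
    unfold blk
    rw [star_mul']
    congr 1
    exact Complex.conj_ofReal _
  have e3 : ((Real.sqrt (c a) : ℝ) : ℂ) * ((Real.sqrt (c a) : ℝ) : ℂ) = (c a : ℂ) := by
    rw [← Complex.ofReal_mul, Real.mul_self_sqrt (hc a)]
  rw [e1, e2, ← e3]
  ring

theorem hs_blk {α : Type} {β : α → Type} {n : Type} [Fintype α] [∀ a, Fintype (β a)]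
    [Fintype n] (c : α → ℝ) (hc : ∀ a, 0 ≤ c a) (Y : ∀ a, Matrix (β a) n ℂ) :
    hs (blk c Y) = ∑ a, c a * hs (Y a) := by
  unfold hs
  rw [Fintype.sum_sigma]
  refine Finset.sum_congr rfl fun a _ => ?_
  rw [Finset.mul_sum]
  refine Finset.sum_congr rfl fun x _ => ?_
  rw [Finset.mul_sum]
  refine Finset.sum_congr rfl fun s _ => ?_
  unfold blk
  rw [norm_mul, mul_pow, Complex.norm_real, Real.norm_eq_abs, sq_abs, Real.sq_sqrt (hc a)]

theorem LL_blk (k : ℕ) {α : Type} {β : α → Type} [Fintype α] [∀ a, Fintype (β a)]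
    (c : α → ℝ) (hc : ∀ a, 0 ≤ c a) (Y : ∀ a, Matrix (β a) (Bl k) ℂ)
    (z : Fin 3 → Matrix (Bl k) (Bl k) ℂ) :
    LL k (blk c Y) z = ∑ a, c a * LL k (Y a) z := by
  unfold LL
  simp only [Finset.mul_sum]
  rw [Finset.sum_comm]
  refine Finset.sum_congr rfl fun i _ => ?_
  rw [trace_blk c hc, Complex.re_sum]
  refine Finset.sum_congr rfl fun a _ => ?_
  rw [Complex.re_ofReal_mul]

/-- the choice of `z_m` -/
theorem choose_z {k : ℕ → ℕ} (hk : Grow k) (r j₀ : ℕ) (hr : r ≤ j₀)
    (Y : ∀ j m : ℕ, Matrix (Fin r × Bl (k j)) (Bl (k m)) ℂ) (c : ℕ → ℝ) (hc : ∀ n, 0 ≤ c n)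
    (hc0 : ∀ n, n < j₀ → c n = 0) (m : ℕ) :
    ∃ z : Fin 3 → Matrix (Bl (k m)) (Bl (k m)) ℂ, (∀ i, IsContr (z i)) ∧
      ∑ n ∈ Finset.range m, c n * (hs (Y n m) / 2500) ≤
        ∑ n ∈ Finset.range m, c n * LL (k m) (Y n m) z := by
  by_cases hm : r ≤ m + 1
  · have hcard : 2 * Fintype.card (Σ n : Fin m, Fin r × Bl (k n)) < 2 * k m + 1 := by
      rw [Fintype.card_sigma]
      have h1 : ∀ n : Fin m, Fintype.card (Fin r × Bl (k n)) = r * (2 * k n + 1) := by
        intro n
        rw [Fintype.card_prod, Fintype.card_fin]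
        congr 1
        exact ZMod.card (2 * k n + 1)
      simp only [h1]
      rw [← Finset.mul_sum, Fin.sum_univ_eq_sum_range (fun n => 2 * k n + 1) m]
      have h2 := hk m
      calc 2 * (r * ∑ i ∈ Finset.range m, (2 * k i + 1))
          ≤ 2 * ((m + 1) * ∑ i ∈ Finset.range m, (2 * k i + 1)) := by gcongr
        _ = 2 * (m + 1) * ∑ i ∈ Finset.range m, (2 * k i + 1) := by ring
        _ < _ := h2
    obtain ⟨z, hz, hz2⟩ := low_rank (k m) hcard
      (blk (α := Fin m) (β := fun n : Fin m => Fin r × Bl (k n))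
        (fun n : Fin m => c n) (fun n : Fin m => Y n m))
    refine ⟨z, hz, ?_⟩
    have h3 := LL_blk (k m) (α := Fin m) (β := fun n : Fin m => Fin r × Bl (k n))
      (fun n : Fin m => c n) (fun n => hc n) (fun n : Fin m => Y n m) z
    rw [hs_blk (α := Fin m) (β := fun n : Fin m => Fin r × Bl (k n))
      (fun n : Fin m => c n) (fun n => hc n)] at hz2
    have h4 : LL (k m) (blk (α := Fin m) (β := fun n : Fin m => Fin r × Bl (k n))
        (fun n : Fin m => c n) (fun n : Fin m => Y n m)) z =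
        ∑ n ∈ Finset.range m, c n * LL (k m) (Y n m) z := by
      rw [h3, Fin.sum_univ_eq_sum_range (fun n => c n * LL (k m) (Y n m) z) m]
    rw [← h4]
    refine le_trans (le_of_eq ?_) hz2
    rw [Fin.sum_univ_eq_sum_range (fun n => c n * hs (Y n m)) m, Finset.sum_div]
    refine Finset.sum_congr rfl fun n _ => ?_
    ring
  · refine ⟨fun _ => 0, fun _ => isContr_zero_mm, ?_⟩
    refine le_of_eq (Finset.sum_congr rfl fun n hn => ?_)
    rw [hc0 n (by have := Finset.mem_range.1 hn; omega)]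
    ring

/-- TARGET (matrix statement). `Y j m` is a matrix with rows indexed by `Fin r × Bl (k j)`. -/
theorem matrix_minimax {k : ℕ → ℕ} (hk : Grow k) (S A : Set ℕ) (hSA : Disjoint S A) (r : ℕ) (C : ℝ)
    (Y : ∀ j m : ℕ, Matrix (Fin r × Bl (k j)) (Bl (k m)) ℂ)
    (hsum : ∀ j ∈ A, Summable fun m => hs (Y j m))
    (h1 : ∀ j ∈ A, 1 / 2 ≤ ∑' m, open Classical in if m ∈ S then hs (Y j m) else 0)
    (h2 : ∀ j ∈ A, ∀ m, hs (Y j m) ≤ C * (2 * k m + 1) / (2 * k j + 1)) :
    ∃ z : Fin 3 → ∀ m, Matrix (Bl (k m)) (Bl (k m)) ℂ, (∀ i m, IsContr (z i m)) ∧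
      ∃ j₀ : ℕ, ∀ j ∈ A, j₀ ≤ j →
        1 / 10000 ≤ ∑' m, open Classical in if m ∈ S then
          ∑ i, ((Y j m * ((w (2 * k m + 1) i)ᴴ * z i m * w (2 * k m + 1) i - z i m) *
            (Y j m)ᴴ).trace).re else 0 := by
  classical
  obtain ⟨j₀, hj₀r, hj₀C⟩ : ∃ j₀ : ℕ, r ≤ j₀ ∧ 35000 * |C| ≤ j₀ := by
    obtain ⟨N, hN⟩ := exists_nat_ge (35000 * |C|)
    exact ⟨max r N, le_max_left _ _, hN.trans (by exact_mod_cast le_max_right _ _)⟩
  obtain ⟨Z, hZdef⟩ : ∃ Z : Set (Fin 3 → ∀ m, Matrix (Bl (k m)) (Bl (k m)) ℂ),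
    Z = {z | ∀ i m, IsContr (z i m)} := ⟨_, rfl⟩
  have hZmem : ∀ z, z ∈ Z ↔ ∀ i m, IsContr (z i m) := by
    intro z; rw [hZdef]; rfl
  have hZc : IsCompact Z := by
    have h3 : IsCompact (Set.pi Set.univ (fun _ : Fin 3 => Set.pi Set.univ
        (fun m : ℕ => {z : Matrix (Bl (k m)) (Bl (k m)) ℂ | IsContr z}))) :=
      isCompact_univ_pi fun _ => isCompact_univ_pi fun m => isContr_compact
    have h4 : Z = Set.pi Set.univ (fun _ : Fin 3 => Set.pi Set.univ
        (fun m : ℕ => {z : Matrix (Bl (k m)) (Bl (k m)) ℂ | IsContr z})) := by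
      ext z
      rw [hZmem]
      simp [Set.mem_pi]
    rw [h4]
    exact h3
  have hZ : Convex ℝ Z := by
    intro x hx y hy a b ha hb hab
    rw [hZmem] at *
    intro i m
    exact isContr_convex (hx i m) (hy i m) ha hb hab
  have hne : Z.Nonempty := ⟨fun _ _ => 0, by rw [hZmem]; exact fun _ _ => isContr_zero_mm⟩
  obtain ⟨g, hg⟩ : ∃ g : ℕ → ℕ → (Fin 3 → ∀ m, Matrix (Bl (k m)) (Bl (k m)) ℂ) → ℝ,
    g = fun j m z => if m ∈ S then LL (k m) (Y j m) (fun i => z i m) else 0 := ⟨_, rfl⟩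
  have hgb : ∀ j m z, z ∈ Z → ‖g j m z‖ ≤ 6 * hs (Y j m) := by
    intro j m z hz
    rw [hg]
    simp only
    split_ifs
    · rw [Real.norm_eq_abs]
      exact LL_bound (k m) (Y j m) (fun i => (hZmem z).1 hz i m)
    · rw [norm_zero]
      have := Pool.Agent.Helper965.O2.hs_nonneg (Y j m)
      positivity
  have hgs : ∀ j ∈ A, ∀ z ∈ Z, Summable fun m => g j m z := by
    intro j hj z hz
    exact Summable.of_norm_bounded ((hsum j hj).mul_left 6) (fun m => hgb j m z hz)
  have hgc : ∀ j m, Continuous (g j m) := by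
    intro j m
    rw [hg]
    simp only
    split_ifs
    · refine (LL_cont (k m) (Y j m)).comp ?_
      fun_prop
    · exact continuous_const
  have hglin : ∀ j m z z' (a b : ℝ), g j m (a • z + b • z') = a * g j m z + b * g j m z' := by
    intro j m z z' a b
    rw [hg]
    simp only
    split_ifs
    · exact LL_lin (k m) (Y j m) (fun i => z i m) (fun i => z' i m) a b
    · simp
  have main := exists_common Z hZc hZ hne (J := {j : ℕ // j ∈ A ∧ j₀ ≤ j})
    (fun j z => ∑' m, g j m z) ?_ ?_ (1 / 10000) ?_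
  · obtain ⟨z, hz, hz2⟩ := main
    refine ⟨z, (hZmem z).1 hz, j₀, fun j hj hj₀ => ?_⟩
    have := hz2 ⟨j, hj, hj₀⟩
    rw [hg] at this
    exact this
  · intro j
    exact continuousOn_tsum (fun m => (hgc j m).continuousOn) ((hsum j j.2.1).mul_left 6)
      (fun m z hz => hgb j m z hz)
  · intro j
    refine ⟨hZ, fun x hx y hy a b ha hb hab => ?_⟩
    simp only [smul_eq_mul]
    rw [← tsum_mul_left, ← tsum_mul_left, ← Summable.tsum_add ((hgs j j.2.1 x hx).mul_left a)
      ((hgs j j.2.1 y hy).mul_left b)]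
    refine le_of_eq ?_
    congr 1
    funext m
    exact (hglin j m x y a b).symm
  · intro F c hc hc1
    obtain ⟨c', hc'⟩ : ∃ c' : ℕ → ℝ, c' = fun n => ∑ x ∈ F, if (x : ℕ) = n then c x else 0 :=
      ⟨_, rfl⟩
    have hc'0 : ∀ n, 0 ≤ c' n := by
      intro n
      rw [hc']
      refine Finset.sum_nonneg fun x _ => ?_
      split_ifs
      · exact hc x
      · exact le_rfl
    have hc'1 : ∀ n, n < j₀ → c' n = 0 := by
      intro n hn
      rw [hc']
      refine Finset.sum_eq_zero fun x _ => ?_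
      rw [if_neg]
      have := x.2.2
      omega
    have hsumc : ∀ (m : ℕ) (G : ℕ → ℝ), ∑ n ∈ Finset.range m, c' n * G n =
        ∑ x ∈ F, if (x : ℕ) < m then c x * G x else 0 := by
      intro m G
      rw [hc']
      simp only [Finset.sum_mul]
      rw [Finset.sum_comm]
      refine Finset.sum_congr rfl fun x _ => ?_
      simp only [ite_mul, zero_mul]
      rw [Finset.sum_ite_eq]
      simp only [Finset.mem_range]
    choose zm hzm1 hzm2 using fun m => choose_z hk r j₀ hj₀r Y c' hc'0 hc'1 m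
    obtain ⟨z, hzdef⟩ : ∃ z : Fin 3 → ∀ m, Matrix (Bl (k m)) (Bl (k m)) ℂ,
      z = fun i m => zm m i := ⟨_, rfl⟩
    have hzZ : z ∈ Z := by
      rw [hZmem, hzdef]
      exact fun i m => hzm1 m i
    refine ⟨z, hzZ, ?_⟩
    -- pointwise bound
    have hpt : ∀ m, ∑ x ∈ F, c x * ((if m ∈ S then hs (Y x m) / 2500 else 0) -
        (if m < (x : ℕ) then 7 * hs (Y x m) else 0)) ≤ ∑ x ∈ F, c x * g x m z := by
      intro m
      by_cases hm : m ∈ S
      · have e1 : ∀ x ∈ F, c x * ((if m ∈ S then hs (Y x m) / 2500 else 0) -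
            (if m < (x : ℕ) then 7 * hs (Y x m) else 0)) ≤
            (if (x : ℕ) < m then c x * (hs (Y x m) / 2500) else 0) +
            (if (x : ℕ) < m then 0 else c x * g x m z) := by
          intro x _
          have hne : (x : ℕ) ≠ m := by
            intro h
            exact Set.disjoint_left.1 hSA hm (h ▸ x.2.1)
          have hh := Pool.Agent.Helper965.O2.hs_nonneg (Y x m)
          rcases lt_or_gt_of_ne hne with h | h
          · rw [if_pos hm, if_neg (by omega), if_pos h, if_pos h]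
            linarith
          · rw [if_pos hm, if_pos h, if_neg (by omega), if_neg (by omega)]
            have h3 := hgb x m z hzZ
            rw [Real.norm_eq_abs, abs_le] at h3
            have h4 := mul_le_mul_of_nonneg_left
              (show hs (Y x m) / 2500 - 7 * hs (Y x m) ≤ g x m z by linarith [h3.1]) (hc x)
            linarith
        refine (Finset.sum_le_sum e1).trans ?_
        rw [Finset.sum_add_distrib, ← hsumc m (fun n => hs (Y n m) / 2500)]
        have h5 := hzm2 m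
        have h6 : ∑ n ∈ Finset.range m, c' n * LL (k m) (Y n m) (zm m) =
            ∑ x ∈ F, if (x : ℕ) < m then c x * g x m z else 0 := by
          rw [hsumc m (fun n => LL (k m) (Y n m) (zm m))]
          refine Finset.sum_congr rfl fun x _ => ?_
          rw [hg, hzdef]
          simp only [if_pos hm]
        rw [h6] at h5
        have h7 : ∑ x ∈ F, c x * g x m z = (∑ x ∈ F, if (x : ℕ) < m then c x * g x m z else 0) +
            ∑ x ∈ F, if (x : ℕ) < m then 0 else c x * g x m z := by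
          rw [← Finset.sum_add_distrib]
          refine Finset.sum_congr rfl fun x _ => ?_
          split_ifs <;> simp
        rw [h7]
        linarith
      · refine Finset.sum_le_sum fun x _ => ?_
        rw [if_neg hm, hg]
        simp only [if_neg hm]
        refine mul_le_mul_of_nonneg_left ?_ (hc x)
        have hh := Pool.Agent.Helper965.O2.hs_nonneg (Y x m)
        split_ifs <;> linarith
    -- sums
    have hS1 : HasSum (fun m => ∑ x ∈ F, c x * g x m z) (∑ x ∈ F, c x * ∑' m, g x m z) :=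
      hasSum_sum fun x _ => ((hgs x x.2.1 z hzZ).hasSum).mul_left (c x)
    have hsS : ∀ x ∈ F, Summable fun m => if m ∈ S then hs (Y x m) / 2500 else 0 := by
      intro x _
      refine Summable.of_nonneg_of_le (fun m => ?_) (fun m => ?_) (hsum x x.2.1)
      · have hh := Pool.Agent.Helper965.O2.hs_nonneg (Y x m)
        split_ifs <;> positivity
      · have hh := Pool.Agent.Helper965.O2.hs_nonneg (Y x m)
        split_ifs <;> linarith
    have hS2 : HasSum (fun m => ∑ x ∈ F, c x * ((if m ∈ S then hs (Y x m) / 2500 else 0) -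
        (if m < (x : ℕ) then 7 * hs (Y x m) else 0)))
        (∑ x ∈ F, c x * ((∑' m, if m ∈ S then hs (Y x m) / 2500 else 0) -
          ∑ m ∈ Finset.range x, (if m < (x : ℕ) then 7 * hs (Y x m) else 0))) := by
      refine hasSum_sum fun x hx => HasSum.mul_left (c x) (HasSum.sub (hsS x hx).hasSum ?_)
      refine hasSum_sum_of_ne_finset_zero fun m hm => ?_
      rw [if_neg]
      intro h
      exact hm (Finset.mem_range.2 h)
    have hle := hasSum_le hpt hS2 hS1
    refine le_trans ?_ hle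
    have hx1 : ∀ x ∈ F, c x * (1 / 10000) ≤
        c x * ((∑' m, if m ∈ S then hs (Y x m) / 2500 else 0) -
          ∑ m ∈ Finset.range x, (if m < (x : ℕ) then 7 * hs (Y x m) else 0)) := by
      intro x _
      refine mul_le_mul_of_nonneg_left ?_ (hc x)
      have e1 : (∑' m, if m ∈ S then hs (Y x m) / 2500 else 0) =
          (∑' m, if m ∈ S then hs (Y x m) else 0) / 2500 := by
        rw [← tsum_div_const]
        congr 1
        funext m
        split_ifs <;> simp
      have e2 : 1 / 2 ≤ ∑' m, if m ∈ S then hs (Y x m) else 0 := by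
        have := h1 x x.2.1
        convert this
      have e3 : ∑ m ∈ Finset.range x, (if m < (x : ℕ) then 7 * hs (Y x m) else 0) ≤
          7 * |C| * ((∑ m ∈ Finset.range (x : ℕ), ((2 * k m + 1 : ℕ) : ℝ)) / (2 * k x + 1)) := by
        rw [Finset.sum_div, Finset.mul_sum]
        refine Finset.sum_le_sum fun m hm => ?_
        rw [if_pos (Finset.mem_range.1 hm)]
        have h8 := h2 x x.2.1 m
        have h9 : C * (2 * k m + 1) / (2 * k x + 1) ≤
            |C| * (((2 * k m + 1 : ℕ) : ℝ) / (2 * k x + 1)) := by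
          rw [mul_div_assoc]
          push_cast
          exact mul_le_mul_of_nonneg_right (le_abs_self C) (by positivity)
        linarith
      have e4 : (∑ m ∈ Finset.range (x : ℕ), ((2 * k m + 1 : ℕ) : ℝ)) / (2 * k x + 1) ≤
          1 / (2 * ((x : ℕ) + 1)) := by
        have h8 := hk x
        have h9 : 2 * (((x : ℕ) : ℝ) + 1) * ∑ m ∈ Finset.range (x : ℕ), ((2 * k m + 1 : ℕ) : ℝ) ≤
            2 * k x + 1 := by
          exact_mod_cast h8.le
        rw [div_le_div_iff₀ (by positivity) (by positivity)]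
        linarith
      have e5 : 7 * |C| * (1 / (2 * (((x : ℕ) : ℝ) + 1))) ≤ 1 / 10000 := by
        have h8 : (j₀ : ℝ) ≤ ((x : ℕ) : ℝ) := by exact_mod_cast x.2.2
        rw [mul_one_div, div_le_div_iff₀ (by positivity) (by norm_num)]
        linarith
      have e6 := mul_le_mul_of_nonneg_left e4 (show (0:ℝ) ≤ 7 * |C| by positivity)
      rw [e1]
      linarith
    have hx2 := Finset.sum_le_sum hx1
    rw [← Finset.sum_mul, hc1, one_mul] at hx2
    exact hx2

end Pool.Agent.Helper965.CN
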