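import Pool.Agent.Helper965.O2.Base
import Pool.Agent.Helper965.O2.PS
import Pool.Agent.Helper965.CN.Bd
import Pool.Agent.Helper965.CN.MMx
set_option autoImplicit false
set_option linter.unusedSectionVars false
open scoped TensorProduct ComplexOrder BigOperators Matrix InnerProductSpace
open Filter Topology

namespace Pool.Agent.Helper965.CN
open Pool.Agent.Helper965.O2 (hs w w_mem)

variable {H : Type} [NormedAddCommGroup H] [InnerProductSpace ℂ H] [CompleteSpace H]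

variable {k : ℕ → ℕ} (b : HilbertBasis (Σ j, Bl (k j)) ℂ H)

/-- block diagonal action on the basis -/
def Blk (D : H →L[ℂ] H) (d : ∀ m, Matrix (Bl (k m)) (Bl (k m)) ℂ) : Prop :=
  ∀ m t, D (b ⟨m, t⟩) = ∑ s, d m s t • b ⟨m, s⟩

theorem Blk.hasSum {D : H →L[ℂ] H} {d : ∀ m, Matrix (Bl (k m)) (Bl (k m)) ℂ} (hD : Blk b D d)
    (η ζ : H) : HasSum (fun m => ∑ t, ∑ s, (inner ℂ η (b ⟨m, s⟩) : ℂ) * d m s t *
      (inner ℂ (b ⟨m, t⟩) ζ : ℂ)) (inner ℂ η (D ζ)) := by
  have h1 := b.hasSum_repr ζ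
  have h2 := (h1.mapL D).mapL (innerSL ℂ η)
  have h3 := h2.sigma (g := fun m => ∑ t, ∑ s, (inner ℂ η (b ⟨m, s⟩) : ℂ) * d m s t *
      (inner ℂ (b ⟨m, t⟩) ζ : ℂ)) (by
    intro m
    have e : (fun t : Bl (k m) => (innerSL ℂ η) (D ((b.repr ζ) ⟨m, t⟩ • b ⟨m, t⟩))) =
        fun t => ∑ s, (inner ℂ η (b ⟨m, s⟩) : ℂ) * d m s t * (inner ℂ (b ⟨m, t⟩) ζ : ℂ) := by
      funext t
      rw [map_smul, hD m t, innerSL_apply_apply, inner_smul_right, inner_sum, Finset.mul_sum,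
        HilbertBasis.repr_apply_apply]
      apply Finset.sum_congr rfl
      intro s _
      rw [inner_smul_right]
      ring
    rw [e]
    exact hasSum_fintype _)
  exact h3

theorem Blk.one : Blk b (1 : H →L[ℂ] H) (fun _ => 1) := by
  intro m t
  rw [Finset.sum_eq_single t]
  · simp
  · intro s _ hs
    show ((1 : Matrix (Bl (k m)) (Bl (k m)) ℂ) s t) • b ⟨m, s⟩ = 0
    rw [Matrix.one_apply_ne hs, zero_smul]
  · intro h; exact absurd (Finset.mem_univ _) h

theorem Blk.mul {D E : H →L[ℂ] H} {d e : ∀ m, Matrix (Bl (k m)) (Bl (k m)) ℂ} (hD : Blk b D d)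
    (hE : Blk b E e) : Blk b (D * E) (fun m => d m * e m) := by
  intro m t
  show D (E (b ⟨m, t⟩)) = _
  rw [hE m t, map_sum]
  simp only [map_smul, hD m, Finset.smul_sum, smul_smul, Matrix.mul_apply, Finset.sum_smul]
  rw [Finset.sum_comm]
  apply Finset.sum_congr rfl
  intro s _
  apply Finset.sum_congr rfl
  intro u _
  rw [mul_comm]

theorem Blk.star {D : H →L[ℂ] H} {d : ∀ m, Matrix (Bl (k m)) (Bl (k m)) ℂ} (hD : Blk b D d) :
    Blk b (star D) (fun m => (d m)ᴴ) := by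
  classical
  intro m t
  apply b.repr.injective
  apply lp.ext
  funext i
  obtain ⟨m', s'⟩ := i
  rw [HilbertBasis.repr_apply_apply, HilbertBasis.repr_apply_apply,
    ContinuousLinearMap.star_eq_adjoint, ContinuousLinearMap.adjoint_inner_right, hD m' s', sum_inner,
    inner_sum]
  have horth := orthonormal_iff_ite.1 b.orthonormal
  simp only [inner_smul_left, inner_smul_right, horth, Matrix.conjTranspose_apply]
  by_cases hm : m' = m
  · subst hm
    have e1 : ∀ x y : Bl (k m'), ((⟨m', x⟩ : Σ j, Bl (k j)) = ⟨m', y⟩) ↔ x = y := by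
      intro x y
      simp
    simp only [e1]
    rw [Finset.sum_eq_single t, Finset.sum_eq_single s']
    · rw [if_pos rfl, if_pos rfl]; rfl
    · intro x _ hx
      rw [if_neg (Ne.symm hx), mul_zero]
    · intro h; exact absurd (Finset.mem_univ _) h
    · intro x _ hx
      rw [if_neg hx, mul_zero]
    · intro h; exact absurd (Finset.mem_univ _) h
  · have e1 : ∀ (x : Bl (k m')) (y : Bl (k m)), ¬ ((⟨m', x⟩ : Σ j, Bl (k j)) = ⟨m, y⟩) := by
      intro x y h
      exact hm (congrArg Sigma.fst h)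
    rw [Finset.sum_eq_zero, Finset.sum_eq_zero]
    · intro x _
      rw [if_neg (e1 _ _), mul_zero]
    · intro x _
      rw [if_neg (e1 _ _), mul_zero]

theorem trace_formula {r K : ℕ} (ξ : Fin r → Bl K → H) (m : ℕ) (d : Matrix (Bl (k m)) (Bl (k m)) ℂ)
    (Y : Matrix (Fin r × Bl K) (Bl (k m)) ℂ)
    (hY : ∀ a t s, Y (a, t) s = inner ℂ (ξ a t) (b ⟨m, s⟩)) :
    (Y * d * Yᴴ).trace = ∑ a, ∑ u, ∑ t, ∑ s, (inner ℂ (ξ a u) (b ⟨m, s⟩) : ℂ) * d s t *
      (inner ℂ (b ⟨m, t⟩) (ξ a u) : ℂ) := by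
  rw [Matrix.trace, Fintype.sum_prod_type]
  apply Finset.sum_congr rfl
  intro a _
  apply Finset.sum_congr rfl
  intro u _
  rw [Matrix.diag_apply, Matrix.mul_apply]
  apply Finset.sum_congr rfl
  intro t _
  rw [Matrix.mul_apply, Finset.sum_mul]
  apply Finset.sum_congr rfl
  intro s _
  rw [Matrix.conjTranspose_apply, hY, hY]
  congr 1
  exact inner_conj_symm _ _

theorem hasSum_trace {D : H →L[ℂ] H} {d : ∀ m, Matrix (Bl (k m)) (Bl (k m)) ℂ} (hD : Blk b D d)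
    {r K : ℕ} (ξ : Fin r → Bl K → H) (Y : ∀ m, Matrix (Fin r × Bl K) (Bl (k m)) ℂ)
    (hY : ∀ m a t s, Y m (a, t) s = inner ℂ (ξ a t) (b ⟨m, s⟩)) :
    HasSum (fun m => (Y m * d m * (Y m)ᴴ).trace) (∑ a, ∑ t, inner ℂ (ξ a t) (D (ξ a t))) := by
  have h1 : HasSum (fun m => ∑ a, ∑ u, ∑ t, ∑ s, (inner ℂ (ξ a u) (b ⟨m, s⟩) : ℂ) * d m s t *
      (inner ℂ (b ⟨m, t⟩) (ξ a u) : ℂ)) (∑ a, ∑ t, inner ℂ (ξ a t) (D (ξ a t))) := by
    apply hasSum_sum
    intro a _
    apply hasSum_sum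
    intro u _
    exact hD.hasSum b (ξ a u) (ξ a u)
  convert h1 using 2 with m
  exact trace_formula b ξ m (d m) (Y m) (hY m)

theorem trace_hs {κ ι : Type} [Fintype κ] [Fintype ι] [DecidableEq κ] [DecidableEq ι]
    (A : Matrix κ ι ℂ) : (A * (1 : Matrix ι ι ℂ) * Aᴴ).trace = ((hs A : ℝ) : ℂ) := by
  rw [Matrix.mul_one, Matrix.trace_mul_comm, ← Pool.Agent.Helper965.O2.hs_trace]

theorem isContr_zero_m4 {n : Type} [Fintype n] : IsContr (0 : Matrix n n ℂ) := by
  intro v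
  simp only [Matrix.zero_mulVec, Pi.zero_apply, norm_zero]
  have : ∑ s : n, (0 : ℝ) ^ 2 = 0 := by simp
  rw [this]
  exact Finset.sum_nonneg fun _ _ => sq_nonneg _

/-- TARGET. -/
theorem minimax_blocks (hk : Grow k) (S : Set ℕ) (A : Set ℕ) (hSA : Disjoint S A) (r : ℕ) (C : ℝ)
    (ζ : ∀ j, Fin r → Bl (k j) → H)
    (h1 : ∀ j ∈ A, 1 / 2 ≤ (∑ a, ∑ t, inner ℂ (ζ j a t) (PS b S (ζ j a t))).re)
    (h2 : ∀ j ∈ A, ∀ u : H,
      ∑ a, ∑ t, ‖(inner ℂ u (ζ j a t) : ℂ)‖ ^ 2 ≤ C * ‖u‖ ^ 2 / (2 * k j + 1)) :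
    ∃ z : Fin 3 → (H →L[ℂ] H), (∀ i, ‖z i‖ ≤ 1) ∧ ∃ j₀ : ℕ, ∀ j ∈ A, j₀ ≤ j →
      1 / 10000 ≤ (∑ i, ∑ a, ∑ t,
        (inner ℂ (ζ j a t) ((star (XS b S i) * z i * XS b S i) (ζ j a t)) -
          inner ℂ (ζ j a t) (z i (ζ j a t)))).re := by
  classical
  obtain ⟨Y, hY⟩ : ∃ Y : ∀ j m : ℕ, Matrix (Fin r × Bl (k j)) (Bl (k m)) ℂ,
      ∀ j m a t s, Y j m (a, t) s = inner ℂ (ζ j a t) (b ⟨m, s⟩) :=
    ⟨fun j m => Matrix.of fun p s => inner ℂ (ζ j p.1 p.2) (b ⟨m, s⟩), fun _ _ _ _ _ => rfl⟩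
  have BP : Blk b (PS b S) (fun m => if m ∈ S then 1 else 0) := by
    intro m t
    by_cases hm : m ∈ S
    · rw [(PS_apply b S m t).1 hm]
      simp only [if_pos hm]
      exact Blk.one b m t
    · rw [(PS_apply b S m t).2 hm]
      simp [hm]
  have BX : ∀ i, Blk b (XS b S i) (fun m => if m ∈ S then w (2 * k m + 1) i else 0) := by
    intro i m t
    by_cases hm : m ∈ S
    · rw [(XS_apply b S i m t).1 hm]
      simp only [if_pos hm]
    · rw [(XS_apply b S i m t).2 hm]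
      simp [hm]
  have hsumY : ∀ j, Summable fun m => hs (Y j m) := by
    intro j
    have h3 := hasSum_trace b (Blk.one b) (ζ j) (Y j) (hY j)
    have h4 := Complex.hasSum_re h3
    refine h4.summable.congr fun m => ?_
    show ((Y j m * (1 : Matrix (Bl (k m)) (Bl (k m)) ℂ) * (Y j m)ᴴ).trace).re = hs (Y j m)
    rw [trace_hs, Complex.ofReal_re]
  have hh1 : ∀ j ∈ A, 1 / 2 ≤ ∑' m, if m ∈ S then hs (Y j m) else 0 := by
    intro j hj
    have h3 := hasSum_trace b BP (ζ j) (Y j) (hY j)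
    have h4 := Complex.hasSum_re h3
    have h5 : (fun m => ((Y j m * (if m ∈ S then (1 : Matrix (Bl (k m)) (Bl (k m)) ℂ) else 0) *
        (Y j m)ᴴ).trace).re) = fun m => if m ∈ S then hs (Y j m) else 0 := by
      funext m
      by_cases hm : m ∈ S
      · simp only [if_pos hm]
        rw [trace_hs, Complex.ofReal_re]
      · simp only [if_neg hm]
        simp
    rw [h5] at h4
    rw [h4.tsum_eq]
    exact h1 j hj
  have hh2 : ∀ j ∈ A, ∀ m, hs (Y j m) ≤ C * (2 * k m + 1) / (2 * k j + 1) := by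
    intro j hj m
    have e : hs (Y j m) = ∑ s : Bl (k m), ∑ a, ∑ t, ‖(inner ℂ (b ⟨m, s⟩) (ζ j a t) : ℂ)‖ ^ 2 := by
      unfold hs
      rw [Finset.sum_comm]
      apply Finset.sum_congr rfl
      intro s _
      rw [Fintype.sum_prod_type]
      apply Finset.sum_congr rfl
      intro a _
      apply Finset.sum_congr rfl
      intro t _
      rw [hY, norm_inner_symm]
    rw [e]
    calc ∑ s : Bl (k m), ∑ a, ∑ t, ‖(inner ℂ (b ⟨m, s⟩) (ζ j a t) : ℂ)‖ ^ 2
        ≤ ∑ s : Bl (k m), C * 1 / (2 * k j + 1) := by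
          apply Finset.sum_le_sum
          intro s _
          have := h2 j hj (b ⟨m, s⟩)
          rwa [b.orthonormal.1, one_pow] at this
      _ = _ := by
          rw [Finset.sum_const, Finset.card_univ, ZMod.card, nsmul_eq_mul]
          push_cast
          ring
  obtain ⟨z, hz, j₀, hj₀⟩ := matrix_minimax hk S A hSA r C Y (fun j _ => hsumY j) hh1 hh2
  have hzz : ∀ i m, IsContr (if m ∈ S then z i m else 0) := by
    intro i m
    split_ifs
    · exact hz i m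
    · exact isContr_zero_m4
  refine ⟨fun i => bd b fun m => if m ∈ S then z i m else 0, fun i => norm_bd_le b _, j₀, ?_⟩
  intro j hj hjj
  have BZ : ∀ i, Blk b (bd b fun m => if m ∈ S then z i m else 0)
      (fun m => if m ∈ S then z i m else 0) := fun i m t => bd_apply b _ (hzz i) m t
  have key : HasSum (fun m => ∑ i, (((Y j m * ((if m ∈ S then w (2 * k m + 1) i else 0)ᴴ *
        (if m ∈ S then z i m else 0) * (if m ∈ S then w (2 * k m + 1) i else 0)) * (Y j m)ᴴ).trace) -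
        ((Y j m * (if m ∈ S then z i m else 0) * (Y j m)ᴴ).trace)))
      (∑ i, ((∑ a, ∑ t, inner ℂ (ζ j a t) ((star (XS b S i) * (bd b fun m => if m ∈ S then z i m else 0)
        * XS b S i) (ζ j a t))) -
        (∑ a, ∑ t, inner ℂ (ζ j a t) ((bd b fun m => if m ∈ S then z i m else 0) (ζ j a t))))) := by
    apply hasSum_sum
    intro i _
    exact (hasSum_trace b ((((BX i).star b).mul b (BZ i)).mul b (BX i)) (ζ j) (Y j) (hY j)).sub
      (hasSum_trace b (BZ i) (ζ j) (Y j) (hY j))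
  have key2 := Complex.hasSum_re key
  have e2 : (fun m => (∑ i, (((Y j m * ((if m ∈ S then w (2 * k m + 1) i else 0)ᴴ *
        (if m ∈ S then z i m else 0) * (if m ∈ S then w (2 * k m + 1) i else 0)) * (Y j m)ᴴ).trace) -
        ((Y j m * (if m ∈ S then z i m else 0) * (Y j m)ᴴ).trace))).re) =
      fun m => if m ∈ S then ∑ i, ((Y j m * ((w (2 * k m + 1) i)ᴴ * z i m * w (2 * k m + 1) i -
        z i m) * (Y j m)ᴴ).trace).re else 0 := by
    funext m
    by_cases hm : m ∈ S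
    · simp only [if_pos hm]
      rw [Complex.re_sum]
      apply Finset.sum_congr rfl
      intro i _
      rw [Matrix.mul_sub, Matrix.sub_mul, Matrix.trace_sub]
    · simp only [if_neg hm]
      simp
  rw [e2] at key2
  have h3 := hj₀ j hj hjj
  rw [key2.tsum_eq] at h3
  convert h3 using 3 with i
  simp only [Finset.sum_sub_distrib]


end Pool.Agent.Helper965.CN
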