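import Pool.Agent.Helper965.CN.Family

set_option autoImplicit false
set_option linter.unusedSectionVars false
open scoped TensorProduct ComplexOrder BigOperators Matrix InnerProductSpace Cardinal
open Filter Topology

namespace Pool.Agent.Helper965.CN

variable {H : Type} [NormedAddCommGroup H] [InnerProductSpace ℂ H] [CompleteSpace H]

/-- vector functionals on `B(H) ⊗ B(H)` -/
noncomputable def vf (ζ : H ⊗[ℂ] H) : (H →L[ℂ] H) ⊗[ℂ] (H →L[ℂ] H) →ₗ[ℂ] ℂ where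
  toFun t := inner ℂ ζ (R t ζ)
  map_add' s t := by rw [map_add, LinearMap.add_apply, inner_add_right]
  map_smul' c t := by
    rw [map_smul, LinearMap.smul_apply, inner_smul_right, RingHom.id_apply, smul_eq_mul]

theorem vf_apply (ζ : H ⊗[ℂ] H) (t : (H →L[ℂ] H) ⊗[ℂ] (H →L[ℂ] H)) :
    vf ζ t = inner ℂ ζ (R t ζ) := rfl

theorem vf_star_mul (ζ : H ⊗[ℂ] H) (t : (H →L[ℂ] H) ⊗[ℂ] (H →L[ℂ] H)) :
    vf ζ (star t * t) = ((‖R t ζ‖ ^ 2 : ℝ) : ℂ) := by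
  rw [vf_apply, R_mul, ← R_star]
  have h : (inner ℂ (R t ζ) (R t ζ) : ℂ) = ((‖R t ζ‖ : ℝ) : ℂ) ^ 2 :=
    inner_self_eq_norm_sq_to_K (𝕜 := ℂ) (R t ζ)
  rw [Complex.ofReal_pow]
  exact h

theorem vf_pos (ζ : H ⊗[ℂ] H) (t : (H →L[ℂ] H) ⊗[ℂ] (H →L[ℂ] H)) : 0 ≤ vf ζ (star t * t) := by
  rw [vf_star_mul]
  exact Complex.zero_le_real.2 (sq_nonneg _)

theorem nf_vf (ζ : H ⊗[ℂ] H) (t : (H →L[ℂ] H) ⊗[ℂ] (H →L[ℂ] H)) : nf (vf ζ) t = ‖R t ζ‖ := by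
  unfold nf b1q
  rw [vf_star_mul, Complex.ofReal_re, Real.sqrt_sq (norm_nonneg _)]

theorem mk_fun_tensor_le [TopologicalSpace.SeparableSpace H] :
    #{N : (H →L[ℂ] H) ⊗[ℂ] (H →L[ℂ] H) → ℝ // IsCStarNorm N} ≤ 2 ^ 𝔠 :=
  (Cardinal.mk_subtype_le _).trans
    (mk_fun_le _ (mk_tensor_le _ _ (mk_clm_le H) (mk_clm_le H)))

theorem mk_sets : #(Set (ℕ → Bool)) = 2 ^ 𝔠 := by
  rw [Cardinal.mk_set]
  congr 1
  simp

theorem card_BB [TopologicalSpace.SeparableSpace H] (hH : ¬ FiniteDimensional ℂ H) :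
    #{N : (H →L[ℂ] H) ⊗[ℂ] (H →L[ℂ] H) → ℝ // IsCStarNorm N} = 2 ^ 𝔠 := by
  refine le_antisymm mk_fun_tensor_le ?_
  obtain ⟨t, φ, h0, h1, h2, h3, _⟩ := exists_family hH
  obtain ⟨hadm, hinj⟩ := cn_injective (Φ₀ := Set.range vf)
    (by rintro _ ⟨ζ, rfl⟩ s; exact vf_pos ζ s) t φ
    (by
      rintro _ ⟨ζ, rfl⟩ a w
      rw [nf_vf, nf_vf, R_mul]
      exact h0 a _) h1 h2 h3
  have hN : ∀ 𝒢 : Set (ℕ → Bool), IsCStarNorm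
      (cn (A := (H →L[ℂ] H) ⊗[ℂ] (H →L[ℂ] H)) (famS (Set.range vf) φ 𝒢)) := by
    intro 𝒢
    refine cn_isCStarNorm (hadm 𝒢) ⟨vf 0, Or.inl ⟨0, rfl⟩⟩ ?_
    intro s hs
    have h4 : ∃ ζ, R s ζ ≠ 0 := by
      by_contra hcon
      push Not at hcon
      exact hs (R_injective s hcon)
    obtain ⟨ζ, hζ⟩ := h4
    refine ⟨vf ζ, Or.inl ⟨ζ, rfl⟩, 1, ?_⟩
    rw [star_one, one_mul, mul_one, vf_star_mul]
    have : ‖R s ζ‖ ≠ 0 := norm_ne_zero_iff.2 hζ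
    exact_mod_cast pow_ne_zero 2 this
  rw [← mk_sets]
  exact Cardinal.mk_le_of_injective
    (f := fun 𝒢 : Set (ℕ → Bool) =>
      (⟨_, hN 𝒢⟩ : {N : (H →L[ℂ] H) ⊗[ℂ] (H →L[ℂ] H) → ℝ // IsCStarNorm N}))
    (fun 𝒢 𝒢' h => hinj (congrArg Subtype.val h))

end Pool.Agent.Helper965.CN
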