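import Pool.Agent.Helper965.CN.Lim
import Pool.Agent.Helper965.CN.Calk

set_option autoImplicit false
set_option linter.unusedSectionVars false
open scoped TensorProduct ComplexOrder BigOperators Matrix InnerProductSpace Cardinal
open Filter Topology

namespace Pool.Agent.Helper965.CN

variable {H : Type} [NormedAddCommGroup H] [InnerProductSpace ℂ H] [CompleteSpace H]

/-- Ultralimits (along `V`) of vector functionals at `ξ ⊗ η n`, `η` bounded and weakly null. -/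
def limS (V : Ultrafilter ℕ) : Set ((H →L[ℂ] H) ⊗[ℂ] (H →L[ℂ] H) →ₗ[ℂ] ℂ) :=
  {φ | ∃ (ξ : H) (η : ℕ → H), (∀ n, ‖η n‖ ≤ 1) ∧
    (∀ x : H, Tendsto (fun n => (inner ℂ x (η n) : ℂ)) atTop (𝓝 0)) ∧
    ∀ t, Tendsto (fun n => vf (ξ ⊗ₜ[ℂ] η n) t) (V : Filter ℕ) (𝓝 (φ t))}

theorem limS_nf {V : Ultrafilter ℕ} {φ : (H →L[ℂ] H) ⊗[ℂ] (H →L[ℂ] H) →ₗ[ℂ] ℂ} {ζ : ℕ → H ⊗[ℂ] H}
    (hφ : ∀ t, Tendsto (fun n => vf (ζ n) t) (V : Filter ℕ) (𝓝 (φ t)))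
    (w : (H →L[ℂ] H) ⊗[ℂ] (H →L[ℂ] H)) :
    Tendsto (fun n => ‖R w (ζ n)‖) (V : Filter ℕ) (𝓝 (nf φ w)) := by
  have h1 := hφ (star w * w)
  have h2 : Tendsto (fun n => ‖R w (ζ n)‖ ^ 2) (V : Filter ℕ) (𝓝 (b1q φ w)) := by
    have h3 := (Complex.continuous_re.tendsto _).comp h1
    refine h3.congr fun n => ?_
    simp only [Function.comp]
    rw [vf_star_mul, Complex.ofReal_re]
  have h4 := (Real.continuous_sqrt.tendsto _).comp h2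
  refine h4.congr fun n => ?_
  simp only [Function.comp]
  rw [Real.sqrt_sq (norm_nonneg _)]

theorem limS_pos {V : Ultrafilter ℕ} {φ : (H →L[ℂ] H) ⊗[ℂ] (H →L[ℂ] H) →ₗ[ℂ] ℂ}
    (hφ : φ ∈ limS V) (s : (H →L[ℂ] H) ⊗[ℂ] (H →L[ℂ] H)) : 0 ≤ φ (star s * s) := by
  obtain ⟨ξ, η, _, _, h⟩ := hφ
  exact ge_of_tendsto' (h (star s * s)) fun n => vf_pos _ s

theorem limS_bound {V : Ultrafilter ℕ} {φ : (H →L[ℂ] H) ⊗[ℂ] (H →L[ℂ] H) →ₗ[ℂ] ℂ}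
    (hφ : φ ∈ limS V) (t : (H →L[ℂ] H) ⊗[ℂ] (H →L[ℂ] H)) (C : ℝ)
    (ht : ∀ ζ : H ⊗[ℂ] H, ‖R t ζ‖ ≤ C * ‖ζ‖) (w : (H →L[ℂ] H) ⊗[ℂ] (H →L[ℂ] H)) :
    nf φ (t * w) ≤ C * nf φ w := by
  obtain ⟨ξ, η, _, _, h⟩ := hφ
  refine le_of_tendsto_of_tendsto' (limS_nf h (t * w)) ((limS_nf h w).const_mul C) fun n => ?_
  rw [R_mul]
  exact ht _

theorem limS_compact {V : Ultrafilter ℕ} (hV : (V : Filter ℕ) ≤ atTop)
    {φ : (H →L[ℂ] H) ⊗[ℂ] (H →L[ℂ] H) →ₗ[ℂ] ℂ} (hφ : φ ∈ limS V) (x y : H →L[ℂ] H)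
    (hy : IsCompactOperator y) : φ (x ⊗ₜ y) = 0 := by
  obtain ⟨ξ, η, hη, hw, h⟩ := hφ
  refine tendsto_nhds_unique (h (x ⊗ₜ y)) ?_
  have h1 := (compact_weak_null hy hη hw).mono_left hV
  have h2 : Tendsto (fun n => ‖(inner ℂ ξ (x ξ) : ℂ)‖ * ‖y (η n)‖) (V : Filter ℕ) (𝓝 0) := by
    have := h1.const_mul ‖(inner ℂ ξ (x ξ) : ℂ)‖
    rwa [mul_zero] at this
  refine squeeze_zero_norm (fun n => ?_) h2
  rw [vf_apply, R_tmul, TensorProduct.map_tmul]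
  have e : (inner ℂ (ξ ⊗ₜ[ℂ] η n) ((x : H →ₗ[ℂ] H) ξ ⊗ₜ[ℂ] (y : H →ₗ[ℂ] H) (η n)) : ℂ) =
      inner ℂ ξ (x ξ) * inner ℂ (η n) (y (η n)) :=
    TensorProduct.inner_tmul (𝕜 := ℂ) ξ (x ξ) (η n) (y (η n))
  rw [e, norm_mul]
  refine mul_le_mul_of_nonneg_left ?_ (norm_nonneg _)
  refine (norm_inner_le_norm _ _).trans ?_
  have := norm_nonneg (y (η n))
  nlinarith [hη n]

theorem card_BQ [TopologicalSpace.SeparableSpace H] (hH : ¬ FiniteDimensional ℂ H) :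
    #{N : (H →L[ℂ] H) ⊗[ℂ] Calkin H → ℝ // IsCStarNorm N} = 2 ^ 𝔠 := by
  refine le_antisymm ?_ ?_
  · have h1 : #(Calkin H) ≤ 𝔠 :=
      (Cardinal.mk_le_of_surjective (calkinLin_surjective (H := H))).trans (mk_clm_le H)
    exact (Cardinal.mk_subtype_le _).trans (mk_fun_le _ (mk_tensor_le _ _ (mk_clm_le H) h1))
  obtain ⟨t, φ, h0, h1, h2, h3, h4⟩ := exists_family hH
  obtain ⟨V, hV, _⟩ := exists_ultra Set.univ Set.infinite_univ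
  obtain ⟨hadm, hinj⟩ := cn_injective (Φ₀ := limS V) (fun φ hφ s => limS_pos hφ s) t φ
    (fun ψ hψ a w => limS_bound hψ (t a) _ (h0 a) w) h1 h2 h3
  have hcpt : ∀ 𝒢 : Set (ℕ → Bool), ∀ ψ ∈ famS (limS V) φ 𝒢, ∀ x y : H →L[ℂ] H,
      IsCompactOperator y → ψ (x ⊗ₜ y) = 0 := by
    rintro 𝒢 ψ (hψ | ⟨a, _, rfl⟩) x y hy
    · exact limS_compact hV hψ x y hy
    · exact h4 a x y hy
  have hne : ∀ 𝒢 : Set (ℕ → Bool), (famS (limS (H := H) V) φ 𝒢).Nonempty := by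
    intro 𝒢
    obtain ⟨ψ, hψ⟩ := exists_lim (H := H) V (fun _ => (0 : H) ⊗ₜ[ℂ] (0 : H)) 0 (fun n => by simp)
    exact ⟨ψ, Or.inl ⟨0, fun _ => 0, fun n => by simp, fun x => by simp, hψ⟩⟩
  have hker : ∀ 𝒢 : Set (ℕ → Bool), ∀ s, cn (A := (H →L[ℂ] H) ⊗[ℂ] (H →L[ℂ] H))
      (famS (limS V) φ 𝒢) s = 0 ↔ Pi s = 0 := by
    intro 𝒢 s
    constructor
    · intro hs
      by_contra hPi
      have hnot : s ∉ Submodule.span ℂ {t : (H →L[ℂ] H) ⊗[ℂ] (H →L[ℂ] H) |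
          ∃ x y : H →L[ℂ] H, IsCompactOperator y ∧ t = x ⊗ₜ y} := by
        intro hmem
        apply hPi
        have hle : Submodule.span ℂ {t : (H →L[ℂ] H) ⊗[ℂ] (H →L[ℂ] H) |
            ∃ x y : H →L[ℂ] H, IsCompactOperator y ∧ t = x ⊗ₜ y} ≤ LinearMap.ker (Pi (H := H)) := by
          rw [Submodule.span_le]
          rintro _ ⟨x, y, hy, rfl⟩
          show Pi (x ⊗ₜ y) = 0
          rw [Pi_tmul, (calkinMk_eq_zero y).2 hy, TensorProduct.tmul_zero]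
        exact hle hmem
      obtain ⟨ξ, η, hη, hw, hnt⟩ := sep_lim V hV s hnot
      obtain ⟨ψ, hψ⟩ := exists_lim V (fun n => ξ ⊗ₜ[ℂ] η n) ‖ξ‖ (fun n => by
        rw [TensorProduct.norm_tmul]
        exact mul_le_of_le_one_right (norm_nonneg _) (hη n))
      have hmem : ψ ∈ famS (limS V) φ 𝒢 := Or.inl ⟨ξ, η, hη, hw, hψ⟩
      apply hnt
      have h5 := limS_nf hψ s
      have h6 := le_cn (hadm 𝒢) hmem s 1
      rw [hs, b1_convT, mul_one, ← nf_sq (limS_pos (V := V) ⟨ξ, η, hη, hw, hψ⟩)] at h6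
      have h7 : nf ψ s = 0 := by
        have h8 : nf ψ s ^ 2 ≤ 0 := by simpa using h6
        exact pow_eq_zero_iff two_ne_zero |>.1 (le_antisymm h8 (sq_nonneg _))
      rw [h7] at h5
      exact h5
    · intro hs
      refine le_antisymm ?_ (b1_nonneg (A := (H →L[ℂ] H) ⊗[ℂ] (H →L[ℂ] H)) _ _)
      refine cn_le (hadm 𝒢) s 0 le_rfl fun ψ hψ w => ?_
      have h5 : ψ (star w * (star s * s) * w) = 0 := by
        apply Pi_ker ψ (hcpt 𝒢 ψ hψ)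
        rw [Pi_mul, Pi_mul, Pi_mul, hs]
        have e1 : Pi (star s) * (0 : (H →L[ℂ] H) ⊗[ℂ] Calkin H) = 0 := mul_zero (Pi (star s))
        have e2 : Pi (star w) * (0 : (H →L[ℂ] H) ⊗[ℂ] Calkin H) = 0 := mul_zero (Pi (star w))
        have e3 : (0 : (H →L[ℂ] H) ⊗[ℂ] Calkin H) * Pi w = 0 := zero_mul (Pi w)
        exact (congrArg (fun u => Pi (star w) * u * Pi w) e1).trans
          ((congrArg (fun u => u * Pi w) e2).trans e3)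
      rw [h5]
      simp
  choose N hN hNs using fun 𝒢 : Set (ℕ → Bool) => descend
    (cn (A := (H →L[ℂ] H) ⊗[ℂ] (H →L[ℂ] H)) (famS (limS V) φ 𝒢))
    (cn_seminorm (hadm 𝒢) (hne 𝒢)) (hker 𝒢)
  rw [← mk_sets]
  refine Cardinal.mk_le_of_injective
    (f := fun 𝒢 : Set (ℕ → Bool) =>
      (⟨N 𝒢, hN 𝒢⟩ : {N : (H →L[ℂ] H) ⊗[ℂ] Calkin H → ℝ // IsCStarNorm N})) ?_
  intro 𝒢 𝒢' h
  have h5 : N 𝒢 = N 𝒢' := congrArg Subtype.val h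
  apply hinj
  funext s
  change cn (A := (H →L[ℂ] H) ⊗[ℂ] (H →L[ℂ] H)) (famS (limS V) φ 𝒢) s =
    cn (A := (H →L[ℂ] H) ⊗[ℂ] (H →L[ℂ] H)) (famS (limS V) φ 𝒢') s
  rw [← hNs 𝒢 s, ← hNs 𝒢' s, h5]

end Pool.Agent.Helper965.CN
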