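import Mathlib
set_option autoImplicit false
open scoped ComplexOrder BigOperators InnerProductSpace
open Filter Topology

namespace Pool.Agent.Helper965.CN

variable {L H : Type} [NormedAddCommGroup L] [InnerProductSpace ℂ L] [CompleteSpace L]
  [NormedAddCommGroup H] [InnerProductSpace ℂ H] [CompleteSpace H]

omit [CompleteSpace L] in
lemma vec_ext0 {M : Type} (V : M → L) (hV : DenseRange V) (w w' : L)
    (h : ∀ a, inner ℂ (V a) w = inner ℂ (V a) w') : w = w' := by
  have h2 : (fun ξ : L => inner ℂ ξ w) = (fun ξ : L => inner ℂ ξ w') :=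
    hV.equalizer (by fun_prop) (by fun_prop) (funext h)
  have h3 : inner ℂ (w - w') (w - w') = (0 : ℂ) := by
    rw [inner_sub_right, sub_eq_zero]
    exact congrFun h2 (w - w')
  exact sub_eq_zero.1 (inner_self_eq_zero.1 h3)

lemma op_ext0 {M : Type} (V : M → L) (hV : DenseRange V) (T T' : L →L[ℂ] L)
    (h : ∀ a b, inner ℂ (V a) (T (V b)) = inner ℂ (V a) (T' (V b))) : T = T' := by
  have h2 : (T : L → L) = T' :=
    hV.equalizer T.continuous T'.continuous (funext fun b => vec_ext0 V hV _ _ (fun a => h a b))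
  exact DFunLike.coe_injective h2

lemma riesz_form {M : Type} [AddCommGroup M] [Module ℂ M] (V : M →ₗ[ℂ] L) (hV : DenseRange V)
    (β : M → M → ℂ) (C : ℝ) (hC : 0 ≤ C)
    (h1 : ∀ a a' b, β (a + a') b = β a b + β a' b)
    (h2 : ∀ (z : ℂ) a b, β (z • a) b = star z * β a b)
    (h3 : ∀ a b b', β a (b + b') = β a b + β a b')
    (h4 : ∀ (z : ℂ) a b, β a (z • b) = z * β a b)
    (hb : ∀ a b, ‖β a b‖ ≤ C * ‖V a‖ * ‖V b‖) :
    ∃ T : L →L[ℂ] L, (∀ a b, inner ℂ (V a) (T (V b)) = β a b) ∧ ‖T‖ ≤ C := by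
  let f : M → (M →ₗ[ℂ] ℂ) := fun b =>
    { toFun := fun a => star (β a b)
      map_add' := fun a a' => by rw [h1, star_add]
      map_smul' := fun z a => by
        rw [h2, star_mul', star_star]; rfl }
  have hf : ∀ b a, ‖f b a‖ ≤ (C * ‖V b‖) * ‖V a‖ := by
    intro b a
    show ‖star (β a b)‖ ≤ _
    rw [norm_star]
    have := hb a b
    linarith
  let F : M → StrongDual ℂ L := fun b => (f b).extendOfNorm V
  have hF : ∀ b a, F b (V a) = star (β a b) := fun b a =>
    LinearMap.extendOfNorm_eq hV ⟨_, hf b⟩ a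
  have hFn : ∀ b, ‖F b‖ ≤ C * ‖V b‖ := fun b =>
    LinearMap.opNorm_extendOfNorm_le hV (by positivity) (hf b)
  let t0 : M → L := fun b => (InnerProductSpace.toDual ℂ L).symm (F b)
  have ht0 : ∀ a b, inner ℂ (V a) (t0 b) = β a b := by
    intro a b
    rw [← inner_conj_symm]
    have : inner ℂ (t0 b) (V a) = F b (V a) := InnerProductSpace.toDual_symm_apply
    rw [this, hF]
    exact star_star _
  have ht0n : ∀ b, ‖t0 b‖ ≤ C * ‖V b‖ := by
    intro b
    show ‖(InnerProductSpace.toDual ℂ L).symm (F b)‖ ≤ _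
    rw [LinearIsometryEquiv.norm_map]
    exact hFn b
  let t : M →ₗ[ℂ] L :=
    { toFun := t0
      map_add' := fun b b' => by
        apply vec_ext0 V hV
        intro a
        rw [inner_add_right, ht0, ht0, ht0, h3]
      map_smul' := fun z b => by
        apply vec_ext0 V hV
        intro a
        rw [RingHom.id_apply, inner_smul_right, ht0, ht0, h4] }
  refine ⟨t.extendOfNorm V, ?_, LinearMap.opNorm_extendOfNorm_le hV hC ht0n⟩
  intro a b
  rw [LinearMap.extendOfNorm_eq hV ⟨_, ht0n⟩ b]
  exact ht0 a b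

/-- TARGET. The completely positive map attached to an ultralimit of vector families. -/
theorem exists_Phi {G : Type} (v : G → L)
    (hv : (Submodule.span ℂ (Set.range v)).topologicalClosure = ⊤)
    (U : Ultrafilter ℕ) (I : ℕ → Type) [∀ j, Fintype (I j)] (c : ∀ j, I j → G → H)
    (hc : ∀ g h, Tendsto (fun j => ∑ t, inner ℂ (c j t g) (c j t h)) (U : Filter ℕ)
      (𝓝 (inner ℂ (v g) (v h)))) :
    ∃ Φ : (H →L[ℂ] H) →ₗ[ℂ] (L →L[ℂ] L),
      (∀ x g h, Tendsto (fun j => ∑ t, inner ℂ (c j t g) (x (c j t h))) (U : Filter ℕ)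
        (𝓝 (inner ℂ (v g) (Φ x (v h))))) ∧
      (∀ x, ‖Φ x‖ ≤ ‖x‖) ∧
      (∀ (n : ℕ) (a : Fin n → (H →L[ℂ] H)) (ζ : Fin n → L),
        0 ≤ ∑ p, ∑ q, inner ℂ (ζ p) (Φ (star (a p) * a q) (ζ q))) := by
  classical
  let V : (G →₀ ℂ) →ₗ[ℂ] L := Finsupp.linearCombination ℂ v
  let A : ∀ j, I j → ((G →₀ ℂ) →ₗ[ℂ] H) := fun j t => Finsupp.linearCombination ℂ (c j t)
  have hV : DenseRange V := by
    have h1 : (LinearMap.range V) = Submodule.span ℂ (Set.range v) :=
      Finsupp.range_linearCombination ℂ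
    have h2 := Submodule.dense_iff_topologicalClosure_eq_top.2 hv
    rw [← h1] at h2
    exact h2
  have hVs : ∀ g z, V (Finsupp.single g z) = z • v g := fun g z =>
    Finsupp.linearCombination_single ℂ z g
  have hAs : ∀ j t g z, A j t (Finsupp.single g z) = z • c j t g := fun j t g z =>
    Finsupp.linearCombination_single ℂ z g
  have hG : ∀ a b, Tendsto (fun j => ∑ t, inner ℂ (A j t a) (A j t b)) (U : Filter ℕ)
      (𝓝 (inner ℂ (V a) (V b))) := by
    intro a b
    induction a using Finsupp.induction_linear with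
    | zero => simp
    | add a a' ha ha' =>
      simp only [map_add, inner_add_left, Finset.sum_add_distrib]
      exact ha.add ha'
    | single g z =>
      induction b using Finsupp.induction_linear with
      | zero => simp
      | add b b' hb hb' =>
        simp only [map_add, inner_add_right, Finset.sum_add_distrib]
        exact hb.add hb'
      | single h w =>
        simp only [hVs, hAs]
        rw [inner_smul_left, inner_smul_right]
        refine (((hc g h).const_mul w).const_mul _).congr ?_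
        intro j
        rw [Finset.mul_sum, Finset.mul_sum]
        apply Finset.sum_congr rfl
        intro t _
        rw [inner_smul_left, inner_smul_right]
  have hN : ∀ a, Tendsto (fun j => ∑ t, ‖A j t a‖ ^ 2) (U : Filter ℕ) (𝓝 (‖V a‖ ^ 2)) := by
    intro a
    have h1 := (Complex.continuous_re.tendsto _).comp (hG a a)
    have h2 : ∀ j, (Complex.re ∘ fun j => ∑ t, inner ℂ (A j t a) (A j t a)) j =
        ∑ t, ‖A j t a‖ ^ 2 := by
      intro j
      show Complex.re (∑ t, inner ℂ (A j t a) (A j t a)) = _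
      rw [Complex.re_sum]
      apply Finset.sum_congr rfl
      intro t _
      rw [inner_self_eq_norm_sq_to_K]
      norm_cast
    have h3 : Complex.re (inner ℂ (V a) (V a)) = ‖V a‖ ^ 2 := by
      rw [inner_self_eq_norm_sq_to_K]
      norm_cast
    rw [h3] at h1
    exact h1.congr h2
  let S : (H →L[ℂ] H) → ℕ → (G →₀ ℂ) → (G →₀ ℂ) → ℂ := fun x j a b =>
    ∑ t, inner ℂ (A j t a) (x (A j t b))
  have hSb : ∀ x j a b, ‖S x j a b‖ ≤ ‖x‖ * (Real.sqrt (∑ t, ‖A j t a‖ ^ 2) *
      Real.sqrt (∑ t, ‖A j t b‖ ^ 2)) := by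
    intro x j a b
    calc ‖S x j a b‖ ≤ ∑ t, ‖inner ℂ (A j t a) (x (A j t b))‖ := norm_sum_le _ _
      _ ≤ ∑ t, ‖x‖ * (‖A j t a‖ * ‖A j t b‖) := by
          apply Finset.sum_le_sum
          intro t _
          calc ‖inner ℂ (A j t a) (x (A j t b))‖ ≤ ‖A j t a‖ * ‖x (A j t b)‖ := norm_inner_le_norm _ _
            _ ≤ ‖A j t a‖ * (‖x‖ * ‖A j t b‖) :=
                mul_le_mul_of_nonneg_left (x.le_opNorm _) (norm_nonneg _)
            _ = ‖x‖ * (‖A j t a‖ * ‖A j t b‖) := by ring
      _ = ‖x‖ * ∑ t, ‖A j t a‖ * ‖A j t b‖ := by rw [Finset.mul_sum]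
      _ ≤ _ := by
          apply mul_le_mul_of_nonneg_left _ (norm_nonneg _)
          exact Real.sum_mul_le_sqrt_mul_sqrt _ _ _
  have hR : ∀ (x : H →L[ℂ] H) a b, Tendsto (fun j => ‖x‖ * (Real.sqrt (∑ t, ‖A j t a‖ ^ 2) *
      Real.sqrt (∑ t, ‖A j t b‖ ^ 2))) (U : Filter ℕ) (𝓝 (‖x‖ * (‖V a‖ * ‖V b‖))) := by
    intro x a b
    have h1 : ∀ a, Tendsto (fun j => Real.sqrt (∑ t, ‖A j t a‖ ^ 2)) (U : Filter ℕ)
        (𝓝 ‖V a‖) := by
      intro a
      have := (Real.continuous_sqrt.tendsto _).comp (hN a)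
      rw [Real.sqrt_sq (norm_nonneg _)] at this
      exact this
    exact ((h1 a).mul (h1 b)).const_mul _
  have hlim : ∀ x a b, ∃ l, Tendsto (fun j => S x j a b) (U : Filter ℕ) (𝓝 l) := by
    intro x a b
    set ρ := ‖x‖ * (‖V a‖ * ‖V b‖) + 1 with hρ
    have h1 : ∀ᶠ j in (U : Filter ℕ), S x j a b ∈ Metric.closedBall (0 : ℂ) ρ := by
      have h2 := (hR x a b).eventually (eventually_le_nhds (b := ρ) (by rw [hρ]; linarith))
      filter_upwards [h2] with j hj
      rw [mem_closedBall_zero_iff]
      exact (hSb x j a b).trans hj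
    have h2 : ((U.map (fun j => S x j a b) : Ultrafilter ℂ) : Filter ℂ) ≤
        𝓟 (Metric.closedBall (0 : ℂ) ρ) := by
      rw [le_principal_iff]
      exact h1
    obtain ⟨l, _, hl⟩ := (isCompact_closedBall (0 : ℂ) ρ).ultrafilter_le_nhds _ h2
    exact ⟨l, hl⟩
  choose B hB using hlim
  have hBn : ∀ x a b, ‖B x a b‖ ≤ ‖x‖ * ‖V a‖ * ‖V b‖ := by
    intro x a b
    have := le_of_tendsto_of_tendsto (hB x a b).norm (hR x a b)
      (Eventually.of_forall (hSb x · a b))
    linarith
  have u1 : ∀ x a a' b, B x (a + a') b = B x a b + B x a' b := by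
    intro x a a' b
    apply tendsto_nhds_unique (hB x (a + a') b)
    refine ((hB x a b).add (hB x a' b)).congr ?_
    intro j
    simp only [S, map_add, inner_add_left, Finset.sum_add_distrib]
  have u2 : ∀ x (z : ℂ) a b, B x (z • a) b = star z * B x a b := by
    intro x z a b
    apply tendsto_nhds_unique (hB x (z • a) b)
    refine ((hB x a b).const_mul (star z)).congr ?_
    intro j
    simp only [S, map_smul, inner_smul_left, Finset.mul_sum]
    rfl
  have u3 : ∀ x a b b', B x a (b + b') = B x a b + B x a b' := by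
    intro x a b b'
    apply tendsto_nhds_unique (hB x a (b + b'))
    refine ((hB x a b).add (hB x a b')).congr ?_
    intro j
    simp only [S, map_add, inner_add_right, Finset.sum_add_distrib]
  have u4 : ∀ x (z : ℂ) a b, B x a (z • b) = z * B x a b := by
    intro x z a b
    apply tendsto_nhds_unique (hB x a (z • b))
    refine ((hB x a b).const_mul z).congr ?_
    intro j
    simp only [S, map_smul, inner_smul_right, Finset.mul_sum]
  have u5 : ∀ x y a b, B (x + y) a b = B x a b + B y a b := by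
    intro x y a b
    apply tendsto_nhds_unique (hB (x + y) a b)
    refine ((hB x a b).add (hB y a b)).congr ?_
    intro j
    simp only [S, ContinuousLinearMap.add_apply, inner_add_right, Finset.sum_add_distrib]
  have u6 : ∀ (z : ℂ) x a b, B (z • x) a b = z * B x a b := by
    intro z x a b
    apply tendsto_nhds_unique (hB (z • x) a b)
    refine ((hB x a b).const_mul z).congr ?_
    intro j
    simp only [S, ContinuousLinearMap.smul_apply, inner_smul_right, Finset.mul_sum]
  choose T hT hTn using fun x => riesz_form V hV (B x) ‖x‖ (norm_nonneg _) (u1 x) (u2 x) (u3 x)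
    (u4 x) (hBn x)
  let Φ : (H →L[ℂ] H) →ₗ[ℂ] (L →L[ℂ] L) :=
    { toFun := T
      map_add' := fun x y => by
        apply op_ext0 V hV
        intro a b
        rw [ContinuousLinearMap.add_apply, inner_add_right, hT, hT, hT, u5]
      map_smul' := fun z x => by
        apply op_ext0 V hV
        intro a b
        rw [RingHom.id_apply, ContinuousLinearMap.smul_apply, inner_smul_right, hT, hT, u6] }
  refine ⟨Φ, ?_, hTn, ?_⟩
  · intro x g h
    have h1 := hB x (Finsupp.single g 1) (Finsupp.single h 1)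
    rw [← hT x (Finsupp.single g 1) (Finsupp.single h 1)] at h1
    simp only [S, hAs, hVs, one_smul] at h1
    exact h1
  · intro n a ζ
    have hd : DenseRange (Pi.map (fun _ : Fin n => (V : (G →₀ ℂ) → L))) :=
      DenseRange.piMap (fun _ => hV)
    refine hd.induction_on ζ ?_ ?_
    · apply isClosed_le continuous_const
      fun_prop
    · intro α
      have h0 : ∀ p q, inner ℂ (Pi.map (fun _ : Fin n => (V : (G →₀ ℂ) → L)) α p)
          (Φ (star (a p) * a q) (Pi.map (fun _ : Fin n => (V : (G →₀ ℂ) → L)) α q)) =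
          B (star (a p) * a q) (α p) (α q) := by
        intro p q
        exact hT _ _ _
      simp only [h0]
      have h1 : Tendsto (fun j => ∑ p, ∑ q, S (star (a p) * a q) j (α p) (α q)) (U : Filter ℕ)
          (𝓝 (∑ p, ∑ q, B (star (a p) * a q) (α p) (α q))) :=
        tendsto_finsetSum _ (fun p _ => tendsto_finsetSum _ (fun q _ => hB _ _ _))
      apply ge_of_tendsto' h1
      intro j
      have h2 : ∑ p, ∑ q, S (star (a p) * a q) j (α p) (α q) =
          ∑ t, inner ℂ (∑ p, a p (A j t (α p))) (∑ q, a q (A j t (α q))) := by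
        simp only [S, sum_inner, inner_sum]
        have h3 : ∀ p q t, inner ℂ (A j t (α p)) ((star (a p) * a q) (A j t (α q))) =
            inner ℂ (a p (A j t (α p))) (a q (A j t (α q))) := by
          intro p q t
          rw [ContinuousLinearMap.star_eq_adjoint, ContinuousLinearMap.mul_apply,
            ContinuousLinearMap.adjoint_inner_right]
        simp only [h3]
        calc ∑ p, ∑ q, ∑ t, inner ℂ (a p (A j t (α p))) (a q (A j t (α q))) =
            ∑ p, ∑ t, ∑ q, inner ℂ (a p (A j t (α p))) (a q (A j t (α q))) :=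
              Finset.sum_congr rfl (fun p _ => Finset.sum_comm)
          _ = ∑ t, ∑ p, ∑ q, inner ℂ (a p (A j t (α p))) (a q (A j t (α q))) := Finset.sum_comm
          _ = _ := by
              first
              | rfl
              | exact Finset.sum_congr rfl (fun t _ => Finset.sum_comm)
      rw [h2]
      apply Finset.sum_nonneg
      intro t _
      rw [inner_self_eq_norm_sq_to_K]
      have : (0 : ℝ) ≤ ‖∑ p, a p (A j t (α p))‖ ^ 2 := by positivity
      have h4 : (0 : ℂ) ≤ ((‖∑ p, a p (A j t (α p))‖ ^ 2 : ℝ) : ℂ) := Complex.zero_le_real.2 this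
      rw [Complex.ofReal_pow] at h4
      exact h4

end Pool.Agent.Helper965.CN
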