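import Mathlib
set_option autoImplicit false
open scoped ComplexOrder BigOperators InnerProductSpace

namespace Pool.Agent.Helper965.CN

variable {L : Type} [NormedAddCommGroup L] [InnerProductSpace ℂ L] [CompleteSpace L]

/-- coordinate projection -/
noncomputable def pr {n : ℕ} (p : Fin n) : PiLp 2 (fun _ : Fin n => L) →L[ℂ] L :=
  PiLp.proj 2 (fun _ : Fin n => L) p

/-- coordinate inclusion -/
noncomputable def ic {n : ℕ} (q : Fin n) : L →L[ℂ] PiLp 2 (fun _ : Fin n => L) :=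
  ((PiLp.continuousLinearEquiv 2 ℂ (fun _ : Fin n => L)).symm :
    ((i : Fin n) → L) →L[ℂ] PiLp 2 (fun _ : Fin n => L)) ∘L
    ContinuousLinearMap.single ℂ (fun _ : Fin n => L) q

theorem pr_apply {n : ℕ} (p : Fin n) (ζ : PiLp 2 (fun _ : Fin n => L)) : pr p ζ = ζ p := rfl

theorem pr_ic {n : ℕ} (p q : Fin n) (x : L) : pr p (ic q x) = if p = q then x else 0 := by
  show (Pi.single q x : Fin n → L) p = _
  rw [Pi.single_apply]

theorem sum_ic_pr {n : ℕ} (ζ : PiLp 2 (fun _ : Fin n => L)) : ∑ p, ic p (pr p ζ) = ζ := by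
  ext i
  have : ∀ i : Fin n, (∑ p, ic p (pr p ζ) : PiLp 2 (fun _ : Fin n => L)) i =
      ∑ p, pr i (ic p (pr p ζ)) := by
    intro i
    rw [← pr_apply, map_sum]
  rw [this]
  simp_rw [pr_ic]
  rw [Finset.sum_ite_eq]
  simp [pr_apply]

theorem inner_ic {n : ℕ} (q : Fin n) (x : L) (ζ : PiLp 2 (fun _ : Fin n => L)) :
    inner ℂ (ic q x) ζ = inner ℂ x (pr q ζ) := by
  rw [PiLp.inner_apply]
  have : ∀ i : Fin n, inner ℂ ((ic q x : PiLp 2 (fun _ : Fin n => L)) i) (ζ i) =
      if i = q then inner ℂ x (pr q ζ) else 0 := by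
    intro i
    rw [← pr_apply i (ic q x), pr_ic]
    split_ifs with h
    · subst h; rfl
    · simp
  simp_rw [this]
  simp

/-- TARGET. Square root of a positive operator matrix, applied to a vector. -/
theorem exists_sqrt_family {n : ℕ} (D : Fin n → Fin n → (L →L[ℂ] L))
    (hD : ∀ ζ : Fin n → L, 0 ≤ ∑ p, ∑ q, inner ℂ (ζ p) (D p q (ζ q))) (v : L) :
    ∃ f : Fin n → Fin n → L, ∀ T : Fin n → Fin n → (L →L[ℂ] L),
      (∀ p q r s, T p q * D r s = D r s * T p q) →
      ∑ p, ∑ q, inner ℂ v (D p q (T p q v)) = ∑ r, ∑ p, ∑ q, inner ℂ (f r p) (T p q (f r q)) := by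
  obtain ⟨DD, hDD⟩ : ∃ DD : PiLp 2 (fun _ : Fin n => L) →L[ℂ] PiLp 2 (fun _ : Fin n => L),
      DD = ∑ p, ∑ q, (ic p) ∘L (D p q) ∘L (pr q) := ⟨_, rfl⟩
  have hDa : ∀ ζ, DD ζ = ∑ p, ∑ q, ic p (D p q (pr q ζ)) := by
    intro ζ
    rw [hDD]
    simp [ContinuousLinearMap.sum_apply]
  have hpD : ∀ i ζ, pr i (DD ζ) = ∑ q, D i q (pr q ζ) := by
    intro i ζ
    rw [hDa, map_sum]
    simp_rw [map_sum, pr_ic]
    rw [Finset.sum_comm]
    apply Finset.sum_congr rfl
    intro q _
    rw [Finset.sum_ite_eq]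
    simp
  have hpos : 0 ≤ DD := by
    rw [ContinuousLinearMap.nonneg_iff_isPositive, ContinuousLinearMap.isPositive_iff_complex]
    intro x
    have h1 : inner ℂ x (DD x) = ∑ p, ∑ q, inner ℂ (x p) (D p q (x q)) := by
      rw [PiLp.inner_apply]
      apply Finset.sum_congr rfl
      intro p _
      rw [← pr_apply p (DD x), hpD, inner_sum]
      rfl
    have h2 : 0 ≤ inner ℂ x (DD x) := by
      rw [h1]; exact hD (fun p => x p)
    have h3 : inner ℂ (DD x) x = inner ℂ x (DD x) := by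
      rw [← inner_conj_symm]
      rw [RCLike.nonneg_iff] at h2
      exact RCLike.conj_eq_iff_im.2 h2.2
    rw [h3]
    rw [RCLike.nonneg_iff] at h2
    refine ⟨?_, h2.1⟩
    exact RCLike.conj_eq_iff_re.1 (RCLike.conj_eq_iff_im.2 h2.2)
  obtain ⟨C, hC⟩ : ∃ C, C = CFC.sqrt DD := ⟨_, rfl⟩
  have hCC : C * C = DD := by rw [hC]; exact CFC.sqrt_mul_sqrt_self DD hpos
  have hCs : IsSelfAdjoint C := by rw [hC]; exact IsSelfAdjoint.of_nonneg (CFC.sqrt_nonneg DD)
  have hCin : ∀ x y, inner ℂ (C x) y = inner ℂ x (C y) := by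
    intro x y
    have := ContinuousLinearMap.adjoint_inner_left C y x
    rw [ContinuousLinearMap.isSelfAdjoint_iff'] at hCs
    rw [hCs] at this
    exact this
  have hcomm : ∀ T : L →L[ℂ] L, (∀ r s, T * D r s = D r s * T) →
      ∀ r q x, T (pr r (C (ic q x))) = pr r (C (ic q (T x))) := by
    intro T hT r q x
    obtain ⟨TT, hTT⟩ : ∃ TT : PiLp 2 (fun _ : Fin n => L) →L[ℂ] PiLp 2 (fun _ : Fin n => L),
      TT = ∑ p, (ic p) ∘L T ∘L (pr p) := ⟨_, rfl⟩
    have hTa : ∀ ζ, TT ζ = ∑ p, ic p (T (pr p ζ)) := by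
      intro ζ
      rw [hTT]
      simp [ContinuousLinearMap.sum_apply]
    have hpT : ∀ i ζ, pr i (TT ζ) = T (pr i ζ) := by
      intro i ζ
      rw [hTa, map_sum]
      simp_rw [pr_ic]
      rw [Finset.sum_ite_eq]
      simp
    have hTi : ∀ q x, TT (ic q x) = ic q (T x) := by
      intro q x
      rw [hTa]
      simp_rw [pr_ic]
      rw [Finset.sum_eq_single q]
      · simp
      · intro b _ hb
        simp [hb]
      · simp
    have hc : Commute DD TT := by
      show DD * TT = TT * DD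
      ext ζ i
      show pr i (DD (TT ζ)) = pr i (TT (DD ζ))
      rw [hpD, hpT, hpD, map_sum]
      apply Finset.sum_congr rfl
      intro q _
      rw [hpT]
      have := hT i q
      have h2 := congrArg (fun S : L →L[ℂ] L => S (pr q ζ)) this
      exact h2.symm
    have hc2 : Commute C TT := by
      rw [hC]
      exact hc.cfcₙ_nnreal _
    have h3 : C (TT (ic q x)) = TT (C (ic q x)) := by
      have := congrArg (fun S : PiLp 2 (fun _ : Fin n => L) →L[ℂ] PiLp 2 (fun _ : Fin n => L) =>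
        S (ic q x)) hc2.eq
      exact this
    rw [← hTi, h3, hpT]
  refine ⟨fun r q => pr r (C (ic q v)), ?_⟩
  intro T hT
  have key : ∀ p q, inner ℂ v (D p q (T p q v)) =
      ∑ r, inner ℂ (pr r (C (ic p v))) (T p q (pr r (C (ic q v)))) := by
    intro p q
    have h1 : D p q (T p q v) = pr p (C (C (ic q (T p q v)))) := by
      have h2 : C (C (ic q (T p q v))) = DD (ic q (T p q v)) := by
        rw [← hCC]; rfl
      rw [h2, hpD]
      simp_rw [pr_ic]
      rw [Finset.sum_eq_single q]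
      · simp
      · intro b _ hb
        simp [hb]
      · simp
    rw [h1, ← inner_ic, ← hCin, PiLp.inner_apply]
    apply Finset.sum_congr rfl
    intro r _
    rw [hcomm (T p q) (hT p q) r q v]
    rfl
  simp_rw [key]
  have : ∀ p, ∑ q, ∑ r, inner ℂ (pr r (C (ic p v))) (T p q (pr r (C (ic q v)))) =
      ∑ r, ∑ q, inner ℂ (pr r (C (ic p v))) (T p q (pr r (C (ic q v)))) :=
    fun p => Finset.sum_comm
  simp_rw [this]
  rw [Finset.sum_comm]

end Pool.Agent.Helper965.CN
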