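import Pool.Agent.Helper965.CN.Gns
import Pool.Agent.Helper965.CN.Comm
import Pool.Agent.Helper965.CN.Sqrt
import Pool.Agent.Helper965.CN.Phi
import Pool.Agent.Helper965.CN.Vec
import Pool.Agent.Helper965.CN.Bd

set_option autoImplicit false
set_option linter.unusedSectionVars false
open scoped TensorProduct ComplexOrder BigOperators Matrix InnerProductSpace
open Filter Topology

namespace Pool.Agent.Helper965.CN
open Pool.Agent.Helper965.O2 (hs w w_mem)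

variable {L H : Type} [NormedAddCommGroup L] [InnerProductSpace ℂ L] [CompleteSpace L]
  [NormedAddCommGroup H] [InnerProductSpace ℂ H] [CompleteSpace H]

/-- Every element of a tensor product is a finite sum of elementary tensors. -/
theorem exists_sum_tmul {A B : Type} [AddCommGroup A] [Module ℂ A] [AddCommGroup B] [Module ℂ B]
    (w : A ⊗[ℂ] B) : ∃ (n : ℕ) (a : Fin n → A) (c : Fin n → B), w = ∑ q, a q ⊗ₜ[ℂ] c q := by
  induction w using TensorProduct.induction_on with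
  | zero => exact ⟨0, Fin.elim0, Fin.elim0, by simp⟩
  | tmul x y => exact ⟨1, fun _ => x, fun _ => y, by simp⟩
  | add x y hx hy =>
    obtain ⟨n, a, c, rfl⟩ := hx
    obtain ⟨m, a', c', rfl⟩ := hy
    refine ⟨n + m, Fin.append a a', Fin.append c c', ?_⟩
    rw [Fin.sum_univ_add]
    simp [Fin.append_left, Fin.append_right]

/-- the functional attached to two commuting completely positive maps -/
noncomputable def stF (Φ Φ' : (H →L[ℂ] H) →ₗ[ℂ] (L →L[ℂ] L)) (v1 : L) :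
    (H →L[ℂ] H) ⊗[ℂ] (H →L[ℂ] H) →ₗ[ℂ] ℂ :=
  TensorProduct.lift <| LinearMap.mk₂ ℂ (fun x y => inner ℂ v1 (Φ' y (Φ x v1)))
    (fun x x' y => by simp) (fun c x y => by simp) (fun x y y' => by simp)
    (fun c x y => by simp)

theorem stF_tmul (Φ Φ' : (H →L[ℂ] H) →ₗ[ℂ] (L →L[ℂ] L)) (v1 : L) (x y : H →L[ℂ] H) :
    stF Φ Φ' v1 (x ⊗ₜ y) = inner ℂ v1 (Φ' y (Φ x v1)) := by
  simp [stF]

theorem stF_conj (Φ Φ' : (H →L[ℂ] H) →ₗ[ℂ] (L →L[ℂ] L)) (v1 : L) (x : H →L[ℂ] H) {n : ℕ}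
    (a c : Fin n → (H →L[ℂ] H)) :
    stF Φ Φ' v1 (star (∑ q, a q ⊗ₜ[ℂ] c q) * (x ⊗ₜ 1) * (∑ q, a q ⊗ₜ[ℂ] c q)) =
      ∑ p, ∑ q, inner ℂ v1 (Φ' (star (c p) * c q) (Φ (star (a p) * x * a q) v1)) := by
  rw [star_sum, Finset.sum_mul, Finset.sum_mul, map_sum]
  refine Finset.sum_congr rfl fun p _ => ?_
  rw [Finset.mul_sum, map_sum]
  refine Finset.sum_congr rfl fun q _ => ?_
  rw [TensorProduct.star_tmul, Algebra.TensorProduct.tmul_mul_tmul,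
    Algebra.TensorProduct.tmul_mul_tmul, stF_tmul, mul_one]

/-- The key representation: conjugated functionals are finite sums of vector functionals of `Φ`. -/
theorem stF_repr (Φ Φ' : (H →L[ℂ] H) →ₗ[ℂ] (L →L[ℂ] L)) (v1 : L)
    (hc : ∀ x y, Φ x * Φ' y = Φ' y * Φ x)
    (hcp' : ∀ (n : ℕ) (a : Fin n → (H →L[ℂ] H)) (ζ : Fin n → L),
        0 ≤ ∑ p, ∑ q, inner ℂ (ζ p) (Φ' (star (a p) * a q) (ζ q)))
    (w : (H →L[ℂ] H) ⊗[ℂ] (H →L[ℂ] H)) :
    ∃ (n : ℕ) (a : Fin n → (H →L[ℂ] H)) (f : Fin n → Fin n → L), ∀ x,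
      stF Φ Φ' v1 (star w * (x ⊗ₜ 1) * w) =
        ∑ r, ∑ p, ∑ q, inner ℂ (f r p) (Φ (star (a p) * x * a q) (f r q)) := by
  obtain ⟨n, a, c, rfl⟩ := exists_sum_tmul w
  obtain ⟨f, hf⟩ := exists_sqrt_family (fun p q => Φ' (star (c p) * c q)) (hcp' n c) v1
  refine ⟨n, a, f, fun x => ?_⟩
  rw [stF_conj]
  exact hf (fun p q => Φ (star (a p) * x * a q)) fun p q r s => hc _ _

theorem stF_pos (Φ Φ' : (H →L[ℂ] H) →ₗ[ℂ] (L →L[ℂ] L)) (v1 : L)
    (hc : ∀ x y, Φ x * Φ' y = Φ' y * Φ x)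
    (hcp : ∀ (n : ℕ) (a : Fin n → (H →L[ℂ] H)) (ζ : Fin n → L),
        0 ≤ ∑ p, ∑ q, inner ℂ (ζ p) (Φ (star (a p) * a q) (ζ q)))
    (hcp' : ∀ (n : ℕ) (a : Fin n → (H →L[ℂ] H)) (ζ : Fin n → L),
        0 ≤ ∑ p, ∑ q, inner ℂ (ζ p) (Φ' (star (a p) * a q) (ζ q)))
    (w : (H →L[ℂ] H) ⊗[ℂ] (H →L[ℂ] H)) : 0 ≤ stF Φ Φ' v1 (star w * w) := by
  obtain ⟨n, a, f, hf⟩ := stF_repr Φ Φ' v1 hc hcp' w
  have h1 := hf 1
  have e : (1 : H →L[ℂ] H) ⊗ₜ[ℂ] (1 : H →L[ℂ] H) = 1 := rfl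
  rw [e, mul_one] at h1
  rw [h1]
  refine Finset.sum_nonneg fun r _ => ?_
  have := hcp n a (f r)
  simpa only [mul_one] using this

variable {k : ℕ → ℕ} (b : HilbertBasis (Σ j, Bl (k j)) ℂ H)

theorem kernel_pos (b : HilbertBasis (Σ j, Bl (k j)) ℂ H) (τ : G3 → ℂ)
    (hτ : ∀ g, Tendsto (fun j => ntr (k j) g) atTop (𝓝 (τ g)))
    (s : Finset G3) (c : G3 → ℂ) :
    0 ≤ ∑ g ∈ s, ∑ h ∈ s, star (c g) * c h * τ (g⁻¹ * h) := by
  have h1 : Tendsto (fun j => ∑ g ∈ s, ∑ h ∈ s, star (c g) * c h * ntr (k j) (g⁻¹ * h)) atTop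
      (𝓝 (∑ g ∈ s, ∑ h ∈ s, star (c g) * c h * τ (g⁻¹ * h))) :=
    tendsto_finsetSum _ fun g _ => tendsto_finsetSum _ fun h _ => (hτ _).const_mul _
  refine ge_of_tendsto' h1 fun j => ?_
  have h2 : ∑ g ∈ s, ∑ h ∈ s, star (c g) * c h * ntr (k j) (g⁻¹ * h) =
      ∑ t, inner ℂ (∑ g ∈ s, c g • cv b j t g) (∑ g ∈ s, c g • cv b j t g) := by
    have e1 : ∀ t : Bl (k j), inner ℂ (∑ g ∈ s, c g • cv b j t g) (∑ g ∈ s, c g • cv b j t g) =
        ∑ g ∈ s, ∑ h ∈ s, star (c g) * c h * inner ℂ (cv b j t g) (cv b j t h) := by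
      intro t
      rw [sum_inner]
      refine Finset.sum_congr rfl fun g _ => ?_
      rw [inner_sum]
      refine Finset.sum_congr rfl fun h _ => ?_
      rw [inner_smul_left, inner_smul_right, mul_assoc]
      rfl
    simp only [e1]
    symm
    rw [Finset.sum_comm]
    refine Finset.sum_congr rfl fun g _ => ?_
    rw [Finset.sum_comm]
    refine Finset.sum_congr rfl fun h _ => ?_
    rw [← Finset.mul_sum, sum_cv]
  rw [h2]
  refine Finset.sum_nonneg fun t _ => ?_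
  rw [inner_self_eq_norm_sq_to_K]
  positivity

end Pool.Agent.Helper965.CN
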