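import Pool.Agent.Helper965.CN.State
import Pool.Agent.Helper965.CN.Approx

set_option autoImplicit false
set_option linter.unusedSectionVars false
open scoped TensorProduct ComplexOrder BigOperators Matrix InnerProductSpace
open Filter Topology

namespace Pool.Agent.Helper965.CN
open Pool.Agent.Helper965.O2 (hs w w_mem)

variable {H : Type} [NormedAddCommGroup H] [InnerProductSpace ℂ H] [CompleteSpace H]

variable {k : ℕ → ℕ} (b : HilbertBasis (Σ j, Bl (k j)) ℂ H)

/-- `φ` is of type `U`: all its conjugates are, on the left leg, close in norm to `U`-limits of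
finite rank functionals. -/
def UType (k : ℕ → ℕ) (U : Ultrafilter ℕ)
    (φ : (H →L[ℂ] H) ⊗[ℂ] (H →L[ℂ] H) →ₗ[ℂ] ℂ) : Prop :=
  ∀ (w : (H →L[ℂ] H) ⊗[ℂ] (H →L[ℂ] H)) (ε : ℝ), 0 < ε →
    ∃ (r : ℕ) (C : ℝ) (ζ : ∀ j, Fin r → Bl (k j) → H) (ψ : (H →L[ℂ] H) → ℂ),
      (∀ x, Tendsto (fun j => ∑ a, ∑ t, inner ℂ (ζ j a t) (x (ζ j a t))) (U : Filter ℕ)
        (𝓝 (ψ x))) ∧
      (∀ x, ‖ψ x - φ (star w * (x ⊗ₜ 1) * w)‖ ≤ ε * ‖x‖) ∧
      ∀ j (u : H), ∑ a, ∑ t, ‖(inner ℂ u (ζ j a t) : ℂ)‖ ^ 2 ≤ C * ‖u‖ ^ 2 / (2 * k j + 1)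

theorem exists_state (τ : G3 → ℂ)
    (hτ : ∀ g, Tendsto (fun j => ntr (k j) g) atTop (𝓝 (τ g)))
    (U V : Ultrafilter ℕ) (hU : (U : Filter ℕ) ≤ atTop) (hV : (V : Filter ℕ) ≤ atTop) :
    ∃ φ : (H →L[ℂ] H) ⊗[ℂ] (H →L[ℂ] H) →ₗ[ℂ] ℂ,
      (∀ s, 0 ≤ φ (star s * s)) ∧ φ 1 = 1 ∧
      (∀ S ∈ U, ∀ T ∈ V, φ (PS b S ⊗ₜ PS b T) = 1 ∧ ∀ i, φ (XS b S i ⊗ₜ YT b T i) = 1) ∧
      UType k U φ ∧
      (∀ x y : H →L[ℂ] H,
        (∀ g h, Tendsto (fun j => ∑ t, inner ℂ (rv b j t g) (y (rv b j t h))) atTop (𝓝 0)) →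
          φ (x ⊗ₜ y) = 0) := by
  obtain ⟨L, i1, i2, i3, v, hin, hv⟩ := exists_gns (fun g h => τ (g⁻¹ * h))
    (fun s c => kernel_pos b τ hτ s c)
  have hcU : ∀ g h, Tendsto (fun j => ∑ t, inner ℂ (cv b j t g) (cv b j t h)) (U : Filter ℕ)
      (𝓝 (inner ℂ (v g) (v h))) := by
    intro g h
    simp only [sum_cv, hin]
    exact (hτ _).mono_left hU
  have hrV : ∀ g h, Tendsto (fun j => ∑ t, inner ℂ (rv b j t g) (rv b j t h)) (V : Filter ℕ)
      (𝓝 (inner ℂ (v g) (v h))) := by
    intro g h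
    simp only [sum_rv, hin]
    exact (hτ _).mono_left hV
  obtain ⟨Φ, hΦ, hΦn, hΦp⟩ := exists_Phi v hv U (fun j => Bl (k j)) (cv b) hcU
  obtain ⟨Φ', hΦ', hΦn', hΦp'⟩ := exists_Phi v hv V (fun j => Bl (k j)) (rv b) hrV
  have htr : ∀ g h, τ (g * h) = τ (h * g) := by
    intro g h
    refine tendsto_nhds_unique (hτ (g * h)) ?_
    simp only [ntr_comm _ g h]
    exact hτ (h * g)
  have hcomm : ∀ x y, Φ x * Φ' y = Φ' y * Φ x := by
    intro x y
    refine comm_thm v hv τ hin htr (Φ x) (Φ' y) (fun g h l => ?_) (fun g h l => ?_)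
    · refine tendsto_nhds_unique (hΦ x (h * l) (g * l)) ?_
      simp only [cv_inv]
      exact hΦ x h g
    · refine tendsto_nhds_unique (hΦ' y (l * h) (l * g)) ?_
      simp only [rv_inv]
      exact hΦ' y h g
  -- a total family determines operators/vectors
  have hvext : ∀ x y : L, (∀ g, inner ℂ (v g) x = inner ℂ (v g) y) → x = y := by
    intro x y hxy
    have h1 : ∀ z ∈ (Submodule.span ℂ (Set.range v)).topologicalClosure,
        inner ℂ z x = inner ℂ z y := by
      intro z hz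
      have hcl : IsClosed {z : L | inner ℂ z x = inner ℂ z y} :=
        isClosed_eq (by fun_prop) (by fun_prop)
      have hsub : ((Submodule.span ℂ (Set.range v) : Submodule ℂ L) : Set L) ⊆
          {z : L | inner ℂ z x = inner ℂ z y} := by
        intro z hz
        induction hz using Submodule.span_induction with
        | mem z hz => obtain ⟨g, rfl⟩ := hz; exact hxy g
        | zero => simp
        | add a c _ _ ha hc => 
          simp only [Set.mem_ofPred_eq, inner_add_left] at *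
          rw [ha, hc]
        | smul a c _ hc => 
          simp only [Set.mem_ofPred_eq, inner_smul_left] at *
          rw [hc]
      exact closure_minimal hsub hcl hz
    rw [hv] at h1
    exact ext_inner_left ℂ fun z => h1 z Submodule.mem_top
  have hone : ∀ (x : H →L[ℂ] H) (g h : G3), (∀ᶠ j in (U : Filter ℕ), ∀ t, x (cv b j t g) = cv b j t h) →
      Φ x (v g) = v h := by
    intro x g h hx
    refine hvext _ _ fun l => ?_
    refine tendsto_nhds_unique (hΦ x l g) ?_
    refine (hcU l h).congr' ?_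
    filter_upwards [hx] with j hj
    simp only [hj]
  have hone' : ∀ (x : H →L[ℂ] H) (g h : G3), (∀ᶠ j in (V : Filter ℕ), ∀ t, x (rv b j t g) = rv b j t h) →
      Φ' x (v g) = v h := by
    intro x g h hx
    refine hvext _ _ fun l => ?_
    refine tendsto_nhds_unique (hΦ' x l g) ?_
    refine (hrV l h).congr' ?_
    filter_upwards [hx] with j hj
    simp only [hj]
  have hv1 : inner ℂ (v 1) (v 1) = 1 := by
    rw [hin]
    have h1 := hτ 1
    simp only [ntr_one] at h1
    simpa using (tendsto_nhds_unique h1 tendsto_const_nhds)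
  refine ⟨stF Φ Φ' (v 1), stF_pos Φ Φ' (v 1) hcomm hΦp hΦp', ?_, ?_, ?_, ?_⟩
  · have e : (1 : (H →L[ℂ] H) ⊗[ℂ] (H →L[ℂ] H)) = 1 ⊗ₜ 1 := rfl
    rw [e, stF_tmul, hone 1 1 1 (Filter.Eventually.of_forall fun j t => rfl),
      hone' 1 1 1 (Filter.Eventually.of_forall fun j t => rfl), hv1]
  · intro S hS T hT
    constructor
    · rw [stF_tmul, hone _ 1 1, hone' _ 1 1, hv1]
      · filter_upwards [hT] with j hj t
        exact (id_cv_rv b (PS b T) j (fun t => (PS_apply b T j t).1 hj) t 1).2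
      · filter_upwards [hS] with j hj t
        exact (id_cv_rv b (PS b S) j (fun t => (PS_apply b S j t).1 hj) t 1).1
    · intro i
      rw [stF_tmul, hone _ 1 (FreeGroup.of i), hone' _ (FreeGroup.of i) 1, hv1]
      · filter_upwards [hT] with j hj t
        rw [op_rv b (YT b T i) i j (fun t => (YT_apply b T i j t).1 hj), mul_inv_cancel]
      · filter_upwards [hS] with j hj t
        rw [op_cv b (XS b S i) i j (fun t => (XS_apply b S i j t).1 hj), mul_one]
  · intro w ε hε
    obtain ⟨n, a, f, hf⟩ := stF_repr Φ Φ' (v 1) hcomm hΦp' w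
    obtain ⟨C, ζ, ψ, h1, h2, h3⟩ := approx_family v hv U (fun j => Bl (k j)) (cv b)
      (fun j => 2 * k j + 1) (fun j => by positivity) (fun j g u => cv_bessel b j g u) Φ hΦ hΦn
      a f ε hε
    refine ⟨n, C, ζ, ψ, h1, fun x => ?_, h3⟩
    rw [hf]
    exact h2 x
  · intro x y hy
    rw [stF_tmul]
    have h0 : Φ' y = 0 := by
      have h1 : ∀ g, Φ' y (v g) = 0 := by
        intro g
        refine hvext _ _ fun l => ?_
        rw [inner_zero_right]
        exact tendsto_nhds_unique (hΦ' y l g) ((hy l g).mono_left hV)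
      have h2 : ∀ z ∈ (Submodule.span ℂ (Set.range v)).topologicalClosure, Φ' y z = 0 := by
        intro z hz
        have hcl : IsClosed {z : L | Φ' y z = 0} := isClosed_eq (by fun_prop) (by fun_prop)
        have hsub : ((Submodule.span ℂ (Set.range v) : Submodule ℂ L) : Set L) ⊆
            {z : L | Φ' y z = 0} := by
          intro z hz
          induction hz using Submodule.span_induction with
          | mem z hz => obtain ⟨g, rfl⟩ := hz; exact h1 g
          | zero => simp
          | add a c _ _ ha hc => 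
            simp only [Set.mem_ofPred_eq, map_add] at *
            rw [ha, hc, add_zero]
          | smul a c _ hc => 
            simp only [Set.mem_ofPred_eq, map_smul] at *
            rw [hc, smul_zero]
        exact closure_minimal hsub hcl hz
      rw [hv] at h2
      ext z
      exact h2 z Submodule.mem_top
    rw [h0]
    simp

end Pool.Agent.Helper965.CN
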