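import Mathlib
set_option autoImplicit false
open scoped TensorProduct ComplexOrder BigOperators

namespace Pool.Agent.Helper965.CN

theorem exists_sq733 {A : Type} [CStarAlgebra A] (x : A) :
    ∃ a : A, star a * a = ((‖x‖ ^ 2 : ℝ) : ℂ) • (1 : A) - star x * x := by
  letI := CStarAlgebra.spectralOrder A
  letI := CStarAlgebra.spectralOrderedRing A
  have h : star x * x ≤ algebraMap ℝ A (‖x‖ ^ 2) := CStarAlgebra.star_mul_le_algebraMap_norm_sq
  have h2 : 0 ≤ algebraMap ℝ A (‖x‖ ^ 2) - star x * x := sub_nonneg.2 h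
  obtain ⟨a, ha⟩ := CStarAlgebra.nonneg_iff_eq_star_mul_self.1 h2
  refine ⟨a, ?_⟩
  rw [← ha, Algebra.algebraMap_eq_smul_one]
  congr 1

theorem conj_nonneg733 {A B : Type} [CStarAlgebra A] [CStarAlgebra B] (φ : A ⊗[ℂ] B →ₗ[ℂ] ℂ)
    (hφ : ∀ s, 0 ≤ φ (star s * s)) (s w : A ⊗[ℂ] B) : 0 ≤ (φ (star w * (star s * s) * w)).re := by
  have h := hφ (s * w)
  have e : star (s * w) * (s * w) = star w * (star s * s) * w := by
    rw [star_mul]; noncomm_ring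
  rw [e] at h
  exact (Complex.nonneg_iff.1 h).1

/-- TARGET. Left multiplications are uniformly bounded for all positive functionals on an
algebraic tensor product of unital C*-algebras. -/
theorem tensor_bdd {A B : Type} [CStarAlgebra A] [CStarAlgebra B] (t : A ⊗[ℂ] B) :
    ∃ C : ℝ, ∀ φ : A ⊗[ℂ] B →ₗ[ℂ] ℂ, (∀ s, 0 ≤ φ (star s * s)) → ∀ w,
      (φ (star w * (star t * t) * w)).re ≤ C * (φ (star w * w)).re := by
  induction t using TensorProduct.induction_on with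
  | zero =>
    refine ⟨0, fun φ hφ w => ?_⟩
    simp
  | tmul x y =>
    obtain ⟨a, ha⟩ := exists_sq733 x
    obtain ⟨b, hb⟩ := exists_sq733 y
    refine ⟨‖x‖ ^ 2 * ‖y‖ ^ 2, fun φ hφ w => ?_⟩
    have h1 := conj_nonneg733 φ hφ (a ⊗ₜ[ℂ] (((‖y‖ : ℝ) : ℂ) • (1 : B))) w
    have h2 := conj_nonneg733 φ hφ (x ⊗ₜ[ℂ] b) w
    have e1 : star (a ⊗ₜ[ℂ] (((‖y‖ : ℝ) : ℂ) • (1 : B))) * (a ⊗ₜ[ℂ] (((‖y‖ : ℝ) : ℂ) • (1 : B))) =
        ((‖x‖ ^ 2 * ‖y‖ ^ 2 : ℝ) : ℂ) • (1 : A ⊗[ℂ] B) - ((‖y‖ ^ 2 : ℝ) : ℂ) • ((star x * x) ⊗ₜ[ℂ] (1 : B)) := by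
      rw [TensorProduct.star_tmul, Algebra.TensorProduct.tmul_mul_tmul, ha]
      have e3 : star (((‖y‖ : ℝ) : ℂ) • (1 : B)) * (((‖y‖ : ℝ) : ℂ) • (1 : B)) =
          ((‖y‖ ^ 2 : ℝ) : ℂ) • (1 : B) := by
        rw [star_smul, star_one]
        simp only [smul_mul_smul_comm, one_mul]
        congr 1
        simp [sq]
      rw [e3, TensorProduct.sub_tmul, TensorProduct.tmul_smul,
        TensorProduct.tmul_smul, ← TensorProduct.smul_tmul', smul_smul, Algebra.TensorProduct.one_def]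
      congr 2
      push_cast
      ring
    have e2 : star (x ⊗ₜ[ℂ] b) * (x ⊗ₜ[ℂ] b) =
        ((‖y‖ ^ 2 : ℝ) : ℂ) • ((star x * x) ⊗ₜ[ℂ] (1 : B)) - star (x ⊗ₜ[ℂ] y) * (x ⊗ₜ[ℂ] y) := by
      rw [TensorProduct.star_tmul, TensorProduct.star_tmul, Algebra.TensorProduct.tmul_mul_tmul,
        Algebra.TensorProduct.tmul_mul_tmul, hb, TensorProduct.tmul_sub, TensorProduct.tmul_smul]
    rw [e1] at h1
    rw [e2] at h2
    have h3 : (φ (star w * (((‖x‖ ^ 2 * ‖y‖ ^ 2 : ℝ) : ℂ) • (1 : A ⊗[ℂ] B)) * w)).re =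
        ‖x‖ ^ 2 * ‖y‖ ^ 2 * (φ (star w * w)).re := by
      rw [mul_smul_comm, smul_mul_assoc, mul_one, map_smul, smul_eq_mul, Complex.re_ofReal_mul]
    rw [mul_sub, sub_mul, map_sub, Complex.sub_re] at h1 h2
    linarith
  | add t1 t2 ih1 ih2 =>
    obtain ⟨C1, h1⟩ := ih1
    obtain ⟨C2, h2⟩ := ih2
    refine ⟨2 * (C1 + C2), fun φ hφ w => ?_⟩
    have e : star (t1 + t2) * (t1 + t2) = (2:ℂ) • (star t1 * t1) + (2:ℂ) • (star t2 * t2) -
        star (t1 - t2) * (t1 - t2) := by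
      rw [star_add, star_sub, two_smul, two_smul]
      noncomm_ring
    have h3 := conj_nonneg733 φ hφ (t1 - t2) w
    have h4 := h1 φ hφ w
    have h5 := h2 φ hφ w
    rw [e]
    have e2 : star w * ((2:ℂ) • (star t1 * t1) + (2:ℂ) • (star t2 * t2) -
        star (t1 - t2) * (t1 - t2)) * w = (2:ℂ) • (star w * (star t1 * t1) * w) +
        (2:ℂ) • (star w * (star t2 * t2) * w) - star w * (star (t1 - t2) * (t1 - t2)) * w := by
      rw [mul_sub, sub_mul, mul_add, add_mul, mul_smul_comm, mul_smul_comm, smul_mul_assoc, smul_mul_assoc]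
    rw [e2, map_sub, map_add, map_smul, map_smul, Complex.sub_re, Complex.add_re, smul_eq_mul, smul_eq_mul]
    have e3 : ∀ z : ℂ, (2 * z).re = 2 * z.re := fun z => by simp
    rw [e3, e3]
    linarith

end Pool.Agent.Helper965.CN
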