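import Pool.Agent.Helper965.CN.State2
import Pool.Agent.Helper965.CN.MM
import Pool.Agent.Helper965.CN.Abs
import Pool.Agent.Helper965.CN.TB

set_option autoImplicit false
set_option linter.unusedSectionVars false
open scoped TensorProduct ComplexOrder BigOperators Matrix InnerProductSpace
open Filter Topology

namespace Pool.Agent.Helper965.CN
open Pool.Agent.Helper965.O2 (hs w w_mem)

section seminorm
variable {A : Type} [Ring A] [StarRing A] [Algebra ℂ A] [StarModule ℂ A]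

/-- the seminorm of a positive functional -/
noncomputable def nf (φ : A →ₗ[ℂ] ℂ) (t : A) : ℝ := Real.sqrt (b1q φ t)

variable {φ : A →ₗ[ℂ] ℂ}

theorem nf_nonneg (t : A) : 0 ≤ nf φ t := Real.sqrt_nonneg _

theorem nf_sq (hφ : ∀ t, 0 ≤ φ (star t * t)) (t : A) : nf φ t ^ 2 = b1q φ t :=
  Real.sq_sqrt (b1_re hφ t)

theorem nf_add (hφ : ∀ t, 0 ≤ φ (star t * t)) (s t : A) : nf φ (s + t) ≤ nf φ s + nf φ t :=
  b1_mink hφ s t

theorem nf_smul (φ : A →ₗ[ℂ] ℂ) (c : ℂ) (t : A) : nf φ (c • t) = ‖c‖ * nf φ t := by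
  unfold nf
  rw [b1_q_smul, Real.sqrt_mul (by positivity), Real.sqrt_sq (norm_nonneg _)]

theorem nf_cs (hφ : ∀ t, 0 ≤ φ (star t * t)) (s t : A) :
    (φ (star s * t)).re ≤ nf φ s * nf φ t := b1_cs hφ s t

theorem nf_par (hφ : ∀ t, 0 ≤ φ (star t * t)) (s t : A) :
    nf φ (s - t) ^ 2 = 2 * nf φ s ^ 2 + 2 * nf φ t ^ 2 - nf φ (s + t) ^ 2 := by
  rw [nf_sq hφ, nf_sq hφ, nf_sq hφ, nf_sq hφ, b1_q_add' hφ]
  have h := b1_q_add hφ s t (-1)
  have e : s + ((-1 : ℝ) : ℂ) • t = s - t := by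
    push_cast
    rw [neg_smul, one_smul, sub_eq_add_neg]
  rw [e] at h
  rw [h]
  ring

/-- abstract inequality: if `P = P* = P²`, `X i* X i = P`, `X i P = X i` -/
theorem almost_inv (hφ : ∀ t, 0 ≤ φ (star t * t)) (P : A) (X : Fin 3 → A)
    (hP : star P = P) (hPP : P * P = P) (hX : ∀ i, star (X i) * X i = P)
    (hXP : ∀ i, X i * P = X i) (w : A) (hw : nf φ w ≤ 1)
    (hbig : 4 - 1 / 10 ^ 12 < nf φ ((P + ∑ i, X i) * w)) :
    1 - 1 / 10 ^ 12 ≤ nf φ (P * w) ∧ nf φ (P * w) ≤ 1 ∧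
      ∀ i, nf φ (X i * (P * w) - P * w) ≤ 2 / 10 ^ 6 := by
  have hPw : nf φ (P * w) ≤ 1 := by
    refine le_trans ?_ hw
    unfold nf
    apply Real.sqrt_le_sqrt
    have h1 := b1_re hφ (w - P * w)
    have e1 : star (w - P * w) * (w - P * w) = star w * w - star (P * w) * (P * w) := by
      have e2 : star (P * w) * (P * w) = star w * P * w := by
        rw [star_mul, hP, mul_assoc, ← mul_assoc P P w, hPP, mul_assoc]
      rw [e2, star_sub, star_mul, hP, sub_mul, mul_sub, mul_sub]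
      have e3 : star w * P * (P * w) = star w * P * w := by
        rw [mul_assoc (star w) P (P * w), ← mul_assoc P P w, hPP, mul_assoc]
      rw [e3, ← mul_assoc (star w) P w]
      abel
    unfold b1q at h1 ⊢
    rw [e1, map_sub, Complex.sub_re] at h1
    linarith
  have hXw : ∀ i, nf φ (X i * w) = nf φ (P * w) := by
    intro i
    unfold nf b1q
    have e1 : star (X i * w) * (X i * w) = star (P * w) * (P * w) := by
      rw [star_mul, star_mul, mul_assoc, ← mul_assoc (star (X i)), hX, mul_assoc, hP,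
        ← mul_assoc P P w, hPP]
    rw [e1]
  have e0 : (P + ∑ i, X i) * w = P * w + X 0 * w + X 1 * w + X 2 * w := by
    rw [Fin.sum_univ_three, add_mul, add_mul, add_mul]
    abel
  rw [e0] at hbig
  have n0 := hXw 0
  have n1 := hXw 1
  have n2 := hXw 2
  have hn := nf_nonneg (φ := φ) (P * w)
  have t1 := nf_add hφ (P * w + X 0 * w + X 1 * w) (X 2 * w)
  have t2 := nf_add hφ (P * w + X 0 * w) (X 1 * w)
  have t3 := nf_add hφ (P * w) (X 0 * w)
  refine ⟨by linarith, hPw, ?_⟩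
  have key : ∀ i, 2 - 1 / 10 ^ 12 < nf φ (P * w + X i * w) := by
    intro i
    fin_cases i
    · show 2 - 1 / 10 ^ 12 < nf φ (P * w + X 0 * w)
      linarith
    · show 2 - 1 / 10 ^ 12 < nf φ (P * w + X 1 * w)
      have e1 : P * w + X 0 * w + X 1 * w + X 2 * w = (P * w + X 1 * w) + (X 0 * w + X 2 * w) := by
        abel
      rw [e1] at hbig
      have t4 := nf_add hφ (P * w + X 1 * w) (X 0 * w + X 2 * w)
      have t5 := nf_add hφ (X 0 * w) (X 2 * w)
      linarith
    · show 2 - 1 / 10 ^ 12 < nf φ (P * w + X 2 * w)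
      have e1 : P * w + X 0 * w + X 1 * w + X 2 * w = (P * w + X 2 * w) + (X 0 * w + X 1 * w) := by
        abel
      rw [e1] at hbig
      have t4 := nf_add hφ (P * w + X 2 * w) (X 0 * w + X 1 * w)
      have t5 := nf_add hφ (X 0 * w) (X 1 * w)
      linarith
  intro i
  have e1 : X i * (P * w) = X i * w := by rw [← mul_assoc, hXP]
  rw [e1]
  have h1 := nf_par hφ (X i * w) (P * w)
  rw [add_comm (X i * w)] at h1
  have h2 := key i
  have h3 := hXw i
  have h4 : nf φ (X i * w - P * w) ^ 2 ≤ (2 / 10 ^ 6) ^ 2 := by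
    rw [h1, h3]
    nlinarith
  exact abs_le_of_sq_le_sq' h4 (by norm_num) |>.2

end seminorm

end Pool.Agent.Helper965.CN
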