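import Pool.Agent.Helper965.CN.Upper

set_option autoImplicit false
set_option linter.unusedSectionVars false
open scoped TensorProduct ComplexOrder BigOperators Matrix InnerProductSpace
open Filter Topology

namespace Pool.Agent.Helper965.CN
open Pool.Agent.Helper965.O2 (hs w w_mem)

variable {H : Type} [NormedAddCommGroup H] [InnerProductSpace ℂ H] [CompleteSpace H]

/-- left multiplication by a contraction of the left leg does not increase the seminorm -/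
theorem nf_left {A B : Type} [CStarAlgebra A] [CStarAlgebra B] {φ : A ⊗[ℂ] B →ₗ[ℂ] ℂ}
    (hφ : ∀ t, 0 ≤ φ (star t * t)) (z : A) (hz : ‖z‖ ≤ 1) (a : A ⊗[ℂ] B) :
    nf φ ((z ⊗ₜ 1) * a) ≤ nf φ a := by
  obtain ⟨s, hs⟩ := exists_sq733 z
  have h1 := b1_re hφ ((s ⊗ₜ[ℂ] (1 : B)) * a)
  have e1 : star ((s ⊗ₜ[ℂ] (1 : B)) * a) * ((s ⊗ₜ[ℂ] (1 : B)) * a) =
      ((‖z‖ ^ 2 : ℝ) : ℂ) • (star a * a) - star ((z ⊗ₜ[ℂ] (1 : B)) * a) * ((z ⊗ₜ[ℂ] (1 : B)) * a) := by
    have e2 : ∀ y : A, star ((y ⊗ₜ[ℂ] (1 : B)) * a) * ((y ⊗ₜ[ℂ] (1 : B)) * a) =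
        star a * (((star y * y) ⊗ₜ[ℂ] (1 : B)) * a) := by
      intro y
      rw [star_mul, TensorProduct.star_tmul, mul_assoc, ← mul_assoc (star y ⊗ₜ[ℂ] star (1 : B)),
        Algebra.TensorProduct.tmul_mul_tmul, star_one, one_mul]
    rw [e2, e2, hs, TensorProduct.sub_tmul, sub_mul, mul_sub, ← TensorProduct.smul_tmul',
      smul_mul_assoc, mul_smul_comm, ← Algebra.TensorProduct.one_def, one_mul]
  unfold b1q at h1
  rw [e1, map_sub, map_smul, Complex.sub_re, smul_eq_mul, Complex.re_ofReal_mul] at h1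
  unfold nf
  apply Real.sqrt_le_sqrt
  have h2 := b1_re hφ a
  unfold b1q at h2 ⊢
  have h3 : ‖z‖ ^ 2 ≤ 1 := by
    have := norm_nonneg z
    nlinarith
  nlinarith

variable {k : ℕ → ℕ} (b : HilbertBasis (Σ j, Bl (k j)) ℂ H)

/-- the test element -/
noncomputable def tST (S T : Set ℕ) : (H →L[ℂ] H) ⊗[ℂ] (H →L[ℂ] H) :=
  PS b S ⊗ₜ[ℂ] PS b T + ∑ i, XS b S i ⊗ₜ[ℂ] YT b T i

theorem norm_PS_le (S : Set ℕ) : ‖PS b S‖ ≤ 1 := norm_bd_le b _
theorem norm_XS_le (S : Set ℕ) (i : Fin 3) : ‖XS b S i‖ ≤ 1 := norm_bd_le b _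

theorem upper (hk : Grow k) (U : Ultrafilter ℕ) (hU : (U : Filter ℕ) ≤ atTop)
    (φ : (H →L[ℂ] H) ⊗[ℂ] (H →L[ℂ] H) →ₗ[ℂ] ℂ) (hφ : ∀ s, 0 ≤ φ (star s * s))
    (hφU : UType k U φ) (S T : Set ℕ) (hS : S ∉ U) (w : (H →L[ℂ] H) ⊗[ℂ] (H →L[ℂ] H)) :
    nf φ (tST b S T * w) ≤ (4 - 1 / 10 ^ 12) * nf φ w := by
  by_contra hcon
  push Not at hcon
  -- the algebraic relations
  obtain ⟨P, hPdef⟩ : ∃ P, P = PS b S ⊗ₜ[ℂ] PS b T := ⟨_, rfl⟩
  obtain ⟨X, hXdef⟩ : ∃ X : Fin 3 → (H →L[ℂ] H) ⊗[ℂ] (H →L[ℂ] H),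
    X = fun i => XS b S i ⊗ₜ[ℂ] YT b T i := ⟨_, rfl⟩
  have ht : tST b S T = P + ∑ i, X i := by rw [hPdef, hXdef]; rfl
  have hP : star P = P := by rw [hPdef, TensorProduct.star_tmul, PS_star, PS_star]
  have hPP : P * P = P := by rw [hPdef, Algebra.TensorProduct.tmul_mul_tmul, PS_mul, PS_mul]
  have hX : ∀ i, star (X i) * X i = P := by
    intro i
    rw [hXdef, hPdef]
    simp only
    rw [TensorProduct.star_tmul, Algebra.TensorProduct.tmul_mul_tmul, XS_star_mul, YT_star_mul]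
  have hXP : ∀ i, X i * P = X i := by
    intro i
    rw [hXdef, hPdef]
    simp only
    rw [Algebra.TensorProduct.tmul_mul_tmul, XS_mul_PS, YT_mul_PS]
  rw [ht] at hcon
  -- normalise
  have hn0 : 0 < nf φ w := by
    rcases (nf_nonneg (φ := φ) w).eq_or_lt with h0 | h0
    · exfalso
      have h1 : ∀ x : (H →L[ℂ] H) ⊗[ℂ] (H →L[ℂ] H), nf φ (x * w) = 0 := by
        intro x
        obtain ⟨C, hC⟩ := tensor_bdd x
        have h2 := hC φ hφ w
        rw [b1_conv, ← nf_sq hφ] at h2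
        have h3 : (φ (star w * w)).re = nf φ w ^ 2 := (nf_sq hφ w).symm
        rw [h3, ← h0] at h2
        have h4 : nf φ (x * w) ^ 2 ≤ 0 := by simpa using h2
        exact pow_eq_zero_iff (two_ne_zero) |>.1 (le_antisymm h4 (sq_nonneg _))
      rw [h1, ← h0] at hcon
      simp at hcon
    · exact h0
  obtain ⟨v, hv⟩ : ∃ v, v = (((nf φ w)⁻¹ : ℝ) : ℂ) • w := ⟨_, rfl⟩
  have hv1 : nf φ v ≤ 1 := by
    rw [hv, nf_smul, Complex.norm_real, Real.norm_eq_abs, abs_of_pos (inv_pos.2 hn0),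
      inv_mul_cancel₀ hn0.ne']
  have hv2 : 4 - 1 / 10 ^ 12 < nf φ ((P + ∑ i, X i) * v) := by
    rw [hv, mul_smul_comm, nf_smul, Complex.norm_real, Real.norm_eq_abs,
      abs_of_pos (inv_pos.2 hn0), inv_mul_eq_div, lt_div_iff₀ hn0]
    exact hcon
  obtain ⟨hPv1, hPv2, hXv⟩ := almost_inv hφ P X hP hPP hX hXP v hv1 hv2
  obtain ⟨w', hw'⟩ : ∃ w', w' = P * v := ⟨_, rfl⟩
  rw [← hw'] at hPv1 hPv2 hXv
  -- invariance of the left marginal
  have hinv : ∀ (i : Fin 3) (z : H →L[ℂ] H), ‖z‖ ≤ 1 →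
      (φ (star w' * ((star (XS b S i) * z * XS b S i) ⊗ₜ 1) * w')).re -
        (φ (star w' * (z ⊗ₜ 1) * w')).re ≤ 4 / 10 ^ 6 := by
    intro i z hz
    obtain ⟨D, hD⟩ : ∃ D, D = X i * w' - w' := ⟨_, rfl⟩
    have hD1 : nf φ D ≤ 2 / 10 ^ 6 := by rw [hD]; exact hXv i
    have hXw : X i * w' = w' + D := by rw [hD]; abel
    have hnX : nf φ (X i * w') ≤ 1 := by
      have h1 : nf φ (X i * w') = nf φ w' := by
        unfold nf b1q
        have e1 : star (X i * w') * (X i * w') = star w' * w' := by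
          rw [star_mul, mul_assoc, ← mul_assoc (star (X i)), hX, hw', ← mul_assoc P P v, hPP]
        rw [e1]
      rw [h1]; exact hPv2
    have e1 : star w' * ((star (XS b S i) * z * XS b S i) ⊗ₜ 1) * w' =
        star (X i * w') * ((z ⊗ₜ 1) * (X i * w')) := by
      have e2 : w' = (1 ⊗ₜ PS b T) * w' := by
        rw [hw', ← mul_assoc, hPdef, Algebra.TensorProduct.tmul_mul_tmul, one_mul, PS_mul]
      have e3 : star (X i) * ((z ⊗ₜ 1) * X i) =
          ((star (XS b S i) * z * XS b S i) ⊗ₜ 1) * (1 ⊗ₜ PS b T) := by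
        rw [hXdef]
        simp only
        rw [TensorProduct.star_tmul, Algebra.TensorProduct.tmul_mul_tmul,
          Algebra.TensorProduct.tmul_mul_tmul, Algebra.TensorProduct.tmul_mul_tmul, one_mul,
          YT_star_mul, mul_one, one_mul, mul_assoc]
      calc star w' * ((star (XS b S i) * z * XS b S i) ⊗ₜ 1) * w'
          = star w' * (((star (XS b S i) * z * XS b S i) ⊗ₜ 1) * (1 ⊗ₜ PS b T)) * w' := by
            conv_lhs => rw [e2]
            conv_lhs => rw [← e2]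
            rw [mul_assoc (star w'), mul_assoc (star w'), mul_assoc (_ ⊗ₜ _) (1 ⊗ₜ PS b T) w', ← e2]
        _ = star w' * (star (X i) * ((z ⊗ₜ 1) * X i)) * w' := by rw [e3]
        _ = star (X i * w') * ((z ⊗ₜ 1) * (X i * w')) := by
            rw [star_mul]; simp only [mul_assoc]
    have e2 : star w' * (z ⊗ₜ 1) * w' = star w' * ((z ⊗ₜ 1) * w') := mul_assoc _ _ _
    rw [e1, e2]
    have e3 : star (X i * w') * ((z ⊗ₜ 1) * (X i * w')) =
        star D * ((z ⊗ₜ 1) * (X i * w')) + star w' * ((z ⊗ₜ 1) * D) +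
          star w' * ((z ⊗ₜ 1) * w') := by
      have e4 : star (X i * w') = star w' + star D := by rw [hXw, star_add]
      rw [e4, add_mul]
      conv_lhs => 
        rw [hXw]
      have e5 : X i * w' = w' + D := hXw
      rw [e5]
      rw [mul_add (z ⊗ₜ[ℂ] (1 : H →L[ℂ] H)), mul_add, mul_add]
      abel
    rw [e3, map_add, map_add, Complex.add_re, Complex.add_re]
    have h1 := nf_cs hφ D ((z ⊗ₜ 1) * (X i * w'))
    have h2 := nf_cs hφ w' ((z ⊗ₜ 1) * D)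
    have h3 := nf_left hφ z hz (X i * w')
    have h4 := nf_left hφ z hz D
    have h5 := nf_nonneg (φ := φ) D
    have h6 := nf_nonneg (φ := φ) w'
    have h7 := nf_nonneg (φ := φ) (X i * w')
    have h8 : nf φ D * nf φ ((z ⊗ₜ 1) * (X i * w')) ≤ nf φ D * 1 :=
      mul_le_mul_of_nonneg_left (h3.trans hnX) h5
    have h9 : nf φ w' * nf φ ((z ⊗ₜ 1) * D) ≤ 1 * nf φ D :=
      mul_le_mul hPv2 h4 (nf_nonneg _) zero_le_one
    linarith
  -- type U
  obtain ⟨r, C, ζ, ψ, hlim, hψ, hbd⟩ := hφU w' (1 / 10 ^ 6) (by norm_num)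
  have hψre : ∀ x : H →L[ℂ] H, ‖x‖ ≤ 1 →
      |(ψ x).re - (φ (star w' * (x ⊗ₜ 1) * w')).re| ≤ 1 / 10 ^ 6 := by
    intro x hx
    rw [← Complex.sub_re]
    refine (Complex.abs_re_le_norm _).trans ((hψ x).trans ?_)
    nlinarith [norm_nonneg x]
  have hψP : 1 / 2 < (ψ (PS b S)).re := by
    have h1 := hψre (PS b S) (norm_PS_le b S)
    have e1 : star w' * (PS b S ⊗ₜ 1) * w' = star w' * w' := by
      rw [mul_assoc]
      congr 1
      rw [hw', ← mul_assoc, hPdef, Algebra.TensorProduct.tmul_mul_tmul, PS_mul, one_mul]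
    rw [e1] at h1
    have h2 : (φ (star w' * w')).re = nf φ w' ^ 2 := (nf_sq hφ w').symm
    rw [h2] at h1
    have h3 := abs_le.1 h1
    nlinarith [h3.1]
  obtain ⟨A, hA⟩ : ∃ A : Set ℕ, A = {j | j ∉ S ∧
    1 / 2 ≤ (∑ a, ∑ t, inner ℂ (ζ j a t) (PS b S (ζ j a t))).re} := ⟨_, rfl⟩
  have hAU : ∀ᶠ j in (U : Filter ℕ), j ∈ A := by
    have h1 : ∀ᶠ j in (U : Filter ℕ), j ∉ S := by
      have := Ultrafilter.compl_mem_iff_notMem.2 hS
      exact this
    have h2 : ∀ᶠ j in (U : Filter ℕ),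
        1 / 2 < (∑ a, ∑ t, inner ℂ (ζ j a t) (PS b S (ζ j a t))).re :=
      ((Complex.continuous_re.tendsto _).comp (hlim (PS b S))).eventually_const_lt hψP
    filter_upwards [h1, h2] with j h1 h2
    rw [hA]
    exact ⟨h1, h2.le⟩
  obtain ⟨z, hz, j₀, hj₀⟩ := minimax_blocks b hk S A
    (Set.disjoint_left.2 fun j h1 h2 => by rw [hA] at h2; exact h2.1 h1) r C ζ
    (fun j hj => by rw [hA] at hj; exact hj.2) (fun j _ u => hbd j u)
  -- pass to the limit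
  have hlim2 : Tendsto (fun j => (∑ i, ∑ a, ∑ t,
      (inner ℂ (ζ j a t) ((star (XS b S i) * z i * XS b S i) (ζ j a t)) -
        inner ℂ (ζ j a t) (z i (ζ j a t)))).re) (U : Filter ℕ)
      (𝓝 (∑ i, (ψ (star (XS b S i) * z i * XS b S i) - ψ (z i))).re) := by
    refine (Complex.continuous_re.tendsto _).comp ?_
    refine tendsto_finsetSum _ fun i _ => ?_
    simp only [Finset.sum_sub_distrib]
    exact (hlim _).sub (hlim _)
  have h1 : 1 / 10000 ≤ (∑ i, (ψ (star (XS b S i) * z i * XS b S i) - ψ (z i))).re := by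
    refine ge_of_tendsto hlim2 ?_
    have h2 : ∀ᶠ j in (U : Filter ℕ), j₀ ≤ j := hU (eventually_ge_atTop j₀)
    filter_upwards [hAU, h2] with j hj1 hj2
    exact hj₀ j hj1 hj2
  have h2 : (∑ i, (ψ (star (XS b S i) * z i * XS b S i) - ψ (z i))).re ≤
      ∑ _i : Fin 3, (6 / 10 ^ 6 : ℝ) := by
    rw [Complex.re_sum]
    refine Finset.sum_le_sum fun i _ => ?_
    rw [Complex.sub_re]
    have hn : ‖star (XS b S i) * z i * XS b S i‖ ≤ 1 := by
      have n1 := norm_XS_le b S i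
      have n2 : ‖star (XS b S i)‖ ≤ 1 := by rw [norm_star]; exact n1
      calc ‖star (XS b S i) * z i * XS b S i‖ ≤ ‖star (XS b S i) * z i‖ * ‖XS b S i‖ :=
            norm_mul_le _ _
        _ ≤ (‖star (XS b S i)‖ * ‖z i‖) * ‖XS b S i‖ := by
            gcongr; exact norm_mul_le _ _
        _ ≤ (1 * 1) * 1 := by gcongr; exact hz i
        _ = 1 := by norm_num
    have a1 := abs_le.1 (hψre _ hn)
    have a2 := abs_le.1 (hψre _ (hz i))
    have a3 := hinv i (z i) (hz i)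
    have : (6 : ℝ) / 10 ^ 6 = 4 / 10 ^ 6 + 1 / 10 ^ 6 + 1 / 10 ^ 6 := by norm_num
    rw [this]
    linarith [a1.2, a2.1]
  simp only [Finset.sum_const, Finset.card_univ, Fintype.card_fin, nsmul_eq_mul] at h2
  norm_num at h1 h2
  linarith

end Pool.Agent.Helper965.CN
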